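import Mathlib
import Pool.Agent.TH194.BL.Stmts

/-!
Project BL, part FIN 1: the exceptional set in a cube is covered by the sets of the large sieve.
-/

namespace Pool.Agent.TH194.BL

open Finset

/-- The exceptional tuples for the exponent `n`: some sum or difference of two coprime elements
`u`, `v`, `u v ≠ 1`, of the multiplicative semigroup generated by the `A i` is a number without
prime factors larger than `Y` times an `n`-th power. -/
def Exc (k n : ℕ) (Y : ℝ) : Set (Fin k → ℕ) :=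
  {A | (∀ i, 0 < A i) ∧ ∃ (x y : Fin k → ℕ) (c w : ℕ),
    Nat.Coprime (∏ i, A i ^ x i) (∏ i, A i ^ y i) ∧
    (∏ i, A i ^ x i) * (∏ i, A i ^ y i) ≠ 1 ∧ 0 < c ∧
    (∀ p : ℕ, p.Prime → p ∣ c → (p : ℝ) ≤ Y) ∧
    (∏ i, A i ^ x i + ∏ i, A i ^ y i = c * w ^ n ∨
      ∏ i, A i ^ x i = ∏ i, A i ^ y i + c * w ^ n)}

theorem Exc_mono_exp {k n q : ℕ} {Y : ℝ} (hq : q ∣ n) : Exc k n Y ⊆ Exc k q Y := by
  rintro A ⟨hA, x, y, c, w, h1, h2, h3, h4, h5⟩
  obtain ⟨m, rfl⟩ := hq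
  refine ⟨hA, x, y, c, w ^ m, h1, h2, h3, h4, ?_⟩
  rw [← pow_mul, mul_comm m q]
  exact h5

theorem Exc_mono {k n : ℕ} {Y Y' : ℝ} (h : Y ≤ Y') : Exc k n Y ⊆ Exc k n Y' := by
  rintro A ⟨hA, x, y, c, w, h1, h2, h3, h4, h5⟩
  exact ⟨hA, x, y, c, w, h1, h2, h3, fun p hp hpc => (h4 p hp hpc).trans h, h5⟩

/-- the cube with corner `a` and side `N` -/
def Cube {k : ℕ} (a : Fin k → ℕ) (N : ℕ) : Finset (Fin k → ℕ) :=
  Fintype.piFinset (fun i => Ioc (a i) (a i + N))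

open Classical in
/-- the local sets -/
noncomputable def Om (k q : ℕ) (x y : Fin k → ℕ) (s : ℤ) (c : ℕ) (t : ℕ) :
    Finset (Fin k → ZMod t) :=
  if h : t.Prime then
    haveI : Fact t.Prime := ⟨h⟩
    (univ : Finset (Fin k → ZMod t)).filter (fun A => (∃ i, A i = 0) ∨
      ∃ z, ∏ i, A i ^ x i + (s : ZMod t) * ∏ i, A i ^ y i = (c : ZMod t) * z ^ q)
  else ∅

theorem mem_Om {k q : ℕ} {x y : Fin k → ℕ} {s : ℤ} {c t : ℕ} (ht : t.Prime)
    (A : Fin k → ZMod t) (h : (∃ i, A i = 0) ∨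
      ∃ z, ∏ i, A i ^ x i + (s : ZMod t) * ∏ i, A i ^ y i = (c : ZMod t) * z ^ q) :
    A ∈ Om k q x y s c t := by
  classical
  unfold Om
  rw [dif_pos ht]
  have : Fact t.Prime := ⟨ht⟩
  rw [mem_filter]
  exact ⟨mem_univ _, h⟩

theorem card_Om (hloc : S_LOC) {k q : ℕ} (hq : q.Prime) {x y : Fin k → ℕ} {s : ℤ} {c t : ℕ}
    (ht : t.Prime) (hqt : q ∣ t - 1) (htk : 16 * (k + 4) ^ 2 ≤ t) (hs : s = 1 ∨ s = -1)
    (hr : ∀ r : ℕ, r ∣ t - 1 → (∀ i, (r : ℤ) ∣ (y i : ℤ) - x i) → r ∣ 2) :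
    ((Om k q x y s c t).card : ℝ) ≤ 3 / 4 * (t : ℝ) ^ k := by
  classical
  have : Fact t.Prime := ⟨ht⟩
  have h := hloc k q t hq hqt htk x y (s : ZMod t) (c : ZMod t) (by
    rcases hs with rfl | rfl
    · left; simp
    · right; simp) hr
  refine le_trans (le_of_eq ?_) h
  unfold Om
  rw [dif_pos ht]

theorem pow_mod_lam {t lam : ℕ} [Fact t.Prime] (h : t - 1 ∣ lam) {a : ZMod t} (ha : a ≠ 0) (n : ℕ) :
    a ^ (n % lam) = a ^ n := by
  have h1 : a ^ lam = 1 := by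
    obtain ⟨m, rfl⟩ := h
    rw [pow_mul, ZMod.pow_card_sub_one_eq_one ha, one_pow]
  conv_rhs => rw [← Nat.mod_add_div n lam, pow_add, pow_mul, h1, one_pow, mul_one]

/-- the coefficient with given exponents -/
def cc {S : Finset ℕ} {q : ℕ} (e : S → Fin q) : ℕ := ∏ p : S, (p : ℕ) ^ (e p : ℕ)

theorem exists_cc {S : Finset ℕ} {q c : ℕ} (hc : 0 < c)
    (hS : ∀ p : ℕ, p.Prime → p ∣ c → p ∈ S) (hq : ∀ p : ℕ, c.factorization p < q)
    :
    ∃ e : S → Fin q, cc e = c := by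
  refine ⟨fun p => ⟨c.factorization p, hq p⟩, ?_⟩
  unfold cc
  simp only
  rw [Finset.prod_coe_sort S (fun p => p ^ c.factorization p)]
  conv_rhs => rw [← Nat.prod_factorization_pow_eq_self hc.ne']
  rw [Finsupp.prod]
  symm
  apply Finset.prod_subset
  · intro p hp
    rw [Nat.support_factorization, Nat.mem_primeFactors] at hp
    exact hS p hp.1 hp.2.1
  · intro p _ hp
    rw [Finsupp.notMem_support_iff] at hp
    rw [hp, pow_zero]

open Classical in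
/-- the sets to which the large sieve is applied -/
noncomputable def ZZ (k q : ℕ) (a : Fin k → ℕ) (N : ℕ) (P : Finset ℕ) (x y : Fin k → ℕ) (s : ℤ)
    (c : ℕ) : Finset (Fin k → ℕ) :=
  (Cube a N).filter (fun A => ∀ t ∈ P, (fun i => ((A i : ℕ) : ZMod t)) ∈ Om k q x y s c t)

theorem card_ZZ (hloc : S_LOC) (hlsk : S_LSK) {k q : ℕ} (hq : q.Prime) {x y : Fin k → ℕ} {s : ℤ}
    {c lam N Q j : ℕ} (a : Fin k → ℕ) {P : Finset ℕ}
    (hN : 1 ≤ N) (hQ : Q ^ 2 ≤ N) (hP : ∀ t ∈ P, t.Prime) (hPl : ∀ t ∈ P, t - 1 ∣ lam)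
    (hPq : ∀ t ∈ P, q ∣ t - 1)
    (hPk : ∀ t ∈ P, 16 * (k + 4) ^ 2 ≤ t) (hs : s = 1 ∨ s = -1)
    (hr : ∀ r : ℕ, r ∣ lam → (∀ i, (r : ℤ) ∣ (y i : ℤ) - x i) → r ∣ 2)
    (hj : ∀ D ∈ P.powersetCard j, ∏ t ∈ D, t ≤ Q) :
    ((ZZ k q a N P x y s c).card : ℝ) * ((P.card.choose j : ℝ) / 3 ^ j) ≤ (12 * (N : ℝ)) ^ k := by
  classical
  refine hlsk k N Q j a P (ZZ k q a N P x y s c) (Om k q x y s c) hN hQ hP ?_ ?_ ?_ hj
  · intro z hz i
    unfold ZZ at hz
    rw [mem_filter, Cube, Fintype.mem_piFinset] at hz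
    exact hz.1 i
  · intro t ht
    exact card_Om hloc hq (hP t ht) (hPq t ht) (hPk t ht) hs
      (fun r hr1 => hr r (hr1.trans (hPl t ht)))
  · intro z hz t ht
    unfold ZZ at hz
    rw [mem_filter] at hz
    exact hz.2 t ht

open Classical in
/-- **Covering.** -/
theorem card_exc_le (hloc : S_LOC) (hlsk : S_LSK) (hdesc : S_DESC) {k q : ℕ} (hq : q.Prime)
    {lam N Q j : ℕ} (a : Fin k → ℕ) {P S : Finset ℕ} {Y : ℝ}
    (hN : 1 ≤ N) (hQ : Q ^ 2 ≤ N) (hP : ∀ t ∈ P, t.Prime) (hPl : ∀ t ∈ P, t - 1 ∣ lam)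
    (hPq : ∀ t ∈ P, q ∣ t - 1)
    (hPk : ∀ t ∈ P, 16 * (k + 4) ^ 2 ≤ t)
    (hj : ∀ D ∈ P.powersetCard j, ∏ t ∈ D, t ≤ Q) (hjP : j ≤ P.card)
    (hlam : 0 < lam) (hlam4 : ¬ 4 ∣ lam) (hSp : ∀ p ∈ S, p.Prime)
    (hSl : ∀ p : ℕ, p.Prime → p ∣ lam → p ∈ S) (hSY : ∀ p : ℕ, p.Prime → (p : ℝ) ≤ Y → p ∈ S) :
    (((Cube a N).filter (fun A => A ∈ Exc k q Y)).card : ℝ) ≤
      2 * (lam : ℝ) ^ (2 * k) * (q : ℝ) ^ S.card *
        ((12 * (N : ℝ)) ^ k / ((P.card.choose j : ℝ) / 3 ^ j)) := by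
  have : NeZero lam := ⟨hlam.ne'⟩
  set L : ℝ := (P.card.choose j : ℝ) / 3 ^ j with hL
  have hLpos : 0 < L := by
    have : 0 < P.card.choose j := Nat.choose_pos hjP
    positivity
  set I := (Fin k → Fin lam) × (Fin k → Fin lam) × (S → Fin q) × Bool with hI
  let sg : Bool → ℤ := fun b => if b then 1 else -1
  have hsg : ∀ b, sg b = 1 ∨ sg b = -1 := by
    intro b; cases b <;> simp [sg]
  let good : I → Prop := fun i => ∀ r : ℕ, r ∣ lam →
    (∀ l, (r : ℤ) ∣ (((i.2.1 l : Fin lam) : ℕ) : ℤ) - (((i.1 l : Fin lam) : ℕ) : ℤ)) → r ∣ 2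
  let ZI : I → Finset (Fin k → ℕ) := fun i =>
    ZZ k q a N P (fun l => ((i.1 l : Fin lam) : ℕ)) (fun l => ((i.2.1 l : Fin lam) : ℕ))
      (sg i.2.2.2) (cc i.2.2.1)
  have hsub : (Cube a N).filter (fun A => A ∈ Exc k q Y) ⊆
      ((univ : Finset I).filter good).biUnion ZI := by
    intro A hA
    rw [mem_filter] at hA
    obtain ⟨hAc, hA0, x, y, c, w, h1, h2, h3, h4, h5⟩ := hA
    obtain ⟨x', y', c', w', g1, g2, g3, g4, g5⟩ := hdesc k q lam (fun p => p ∈ S) hq hlam hlam4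
      hSl A x y c w hA0 h1 h2 h3 (fun p hp hpc => hSY p hp (h4 p hp hpc)) h5
    obtain ⟨e, he⟩ := exists_cc g1 g2 g3
    rw [mem_biUnion]
    have main : ∀ b : Bool, ((∏ i, A i ^ x' i : ℕ) : ℤ) + sg b * ((∏ i, A i ^ y' i : ℕ) : ℤ) =
        (c' : ℤ) * (w' : ℤ) ^ q → ∃ i ∈ (univ : Finset I).filter good, A ∈ ZI i := by
      intro b hb
      refine ⟨(fun l => ⟨x' l % lam, Nat.mod_lt _ hlam⟩, fun l => ⟨y' l % lam, Nat.mod_lt _ hlam⟩,
        e, b), ?_, ?_⟩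
      · rw [mem_filter]
        refine ⟨mem_univ _, ?_⟩
        intro r hr hdiv
        apply g4 r hr
        intro l
        have hl := hdiv l
        simp only at hl
        have e1 : ((y' l % lam : ℕ) : ℤ) - ((x' l % lam : ℕ) : ℤ) =
            ((y' l : ℤ) - x' l) - (lam : ℤ) * ((y' l / lam : ℕ) - (x' l / lam : ℕ)) := by
          have h1 := Nat.mod_add_div (y' l) lam
          have h2 := Nat.mod_add_div (x' l) lam
          have h1' : ((y' l % lam : ℕ) : ℤ) + (lam : ℤ) * ((y' l / lam : ℕ) : ℤ) = (y' l : ℤ) := by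
            exact_mod_cast h1
          have h2' : ((x' l % lam : ℕ) : ℤ) + (lam : ℤ) * ((x' l / lam : ℕ) : ℤ) = (x' l : ℤ) := by
            exact_mod_cast h2
          linarith
        have hl' : (r : ℤ) ∣ ((y' l % lam : ℕ) : ℤ) - ((x' l % lam : ℕ) : ℤ) := hl
        rw [e1] at hl'
        have e2 : (r : ℤ) ∣ (lam : ℤ) * ((y' l / lam : ℕ) - (x' l / lam : ℕ)) :=
          Dvd.dvd.mul_right (Int.natCast_dvd_natCast.mpr hr) _
        exact (dvd_sub_left e2).mp hl'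
      · show A ∈ ZZ k q a N P (fun l => x' l % lam) (fun l => y' l % lam) (sg b) (cc e)
        unfold ZZ
        rw [mem_filter]
        refine ⟨hAc, fun t ht => ?_⟩
        have htp := hP t ht
        have : Fact t.Prime := ⟨htp⟩
        apply mem_Om htp
        by_cases h0 : ∃ i, ((A i : ℕ) : ZMod t) = 0
        · left; exact h0
        · right
          push Not at h0
          refine ⟨(w' : ZMod t), ?_⟩
          rw [he]
          have e1 : ∀ z : Fin k → ℕ, ∏ i, ((A i : ℕ) : ZMod t) ^ (z i % lam) =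
              ((∏ i, A i ^ z i : ℕ) : ZMod t) := by
            intro z
            rw [Nat.cast_prod]
            apply Finset.prod_congr rfl
            intro i _
            rw [pow_mod_lam (hPl t ht) (h0 i), Nat.cast_pow]
          rw [e1, e1]
          have hb' := congrArg (fun z : ℤ => (z : ZMod t)) hb
          simp only [Int.cast_add, Int.cast_mul, Int.cast_natCast, Int.cast_pow] at hb'
          exact hb'
    rcases g5 with g5 | g5
    · obtain ⟨i, hi, hAi⟩ := main true (by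
        simp only [sg, if_true, one_mul]
        exact_mod_cast g5)
      exact ⟨i, hi, hAi⟩
    · obtain ⟨i, hi, hAi⟩ := main false (by
        have : ((∏ i, A i ^ x' i : ℕ) : ℤ) = ((∏ i, A i ^ y' i : ℕ) : ℤ) + (c' : ℤ) * (w' : ℤ) ^ q := by
          exact_mod_cast g5
        rw [this]
        simp [sg])
      exact ⟨i, hi, hAi⟩
  have hZ : ∀ i ∈ (univ : Finset I).filter good, ((ZI i).card : ℝ) ≤ (12 * (N : ℝ)) ^ k / L := by
    intro i hi
    rw [mem_filter] at hi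
    rw [le_div_iff₀ hLpos]
    exact card_ZZ hloc hlsk hq a hN hQ hP hPl hPq hPk (hsg _) hi.2 hj
  have hcard : (Fintype.card I : ℝ) = 2 * (lam : ℝ) ^ (2 * k) * (q : ℝ) ^ S.card := by
    simp only [hI, Fintype.card_prod, Fintype.card_fun, Fintype.card_fin, Fintype.card_coe,
      Fintype.card_bool]
    push_cast
    ring
  calc (((Cube a N).filter (fun A => A ∈ Exc k q Y)).card : ℝ)
      ≤ ((((univ : Finset I).filter good).biUnion ZI).card : ℝ) := by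
        exact_mod_cast card_le_card hsub
    _ ≤ ∑ i ∈ (univ : Finset I).filter good, ((ZI i).card : ℝ) := by
        exact_mod_cast card_biUnion_le
    _ ≤ ∑ i ∈ (univ : Finset I).filter good, (12 * (N : ℝ)) ^ k / L := sum_le_sum hZ
    _ = (((univ : Finset I).filter good).card : ℝ) * ((12 * (N : ℝ)) ^ k / L) := by
        rw [sum_const, nsmul_eq_mul]
    _ ≤ (Fintype.card I : ℝ) * ((12 * (N : ℝ)) ^ k / L) := by
        apply mul_le_mul_of_nonneg_right _ (by positivity)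
        exact_mod_cast card_le_univ _
    _ = _ := by rw [hcard]

end Pool.Agent.TH194.BL
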