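import Mathlib
import Pool.Agent.TH194.BL.Fin1

/-!
Project BL, part FIN 2: choice of the parameters.
-/

namespace Pool.Agent.TH194.BL

open Finset Filter

theorem choose_lower {n j : ℕ} (hj : 1 ≤ j) (h : 2 * j ≤ n) :
    ((n : ℝ) / (2 * j)) ^ j ≤ (n.choose j : ℝ) := by
  have h1 : (((n + 1 - j : ℕ) : ℝ)) ^ j ≤ (j.factorial : ℝ) * (n.choose j : ℝ) := by
    have := Nat.pow_le_choose (α := ℝ) j n
    rw [div_le_iff₀ (by positivity)] at this
    linarith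
  have h2 : (j.factorial : ℝ) ≤ (j : ℝ) ^ j := by exact_mod_cast Nat.factorial_le_pow j
  have hj0 : (0 : ℝ) < j := by exact_mod_cast hj
  have h3 : (n : ℝ) / 2 ≤ ((n + 1 - j : ℕ) : ℝ) := by
    have : n ≤ 2 * (n + 1 - j) := by omega
    have h4 : (n : ℝ) ≤ 2 * ((n + 1 - j : ℕ) : ℝ) := by exact_mod_cast this
    linarith
  have h5 : ((n : ℝ) / (2 * j)) ^ j = ((n : ℝ) / 2) ^ j / (j : ℝ) ^ j := by
    rw [← div_pow]
    congr 1
    field_simp
  rw [h5, div_le_iff₀ (by positivity)]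
  calc ((n : ℝ) / 2) ^ j ≤ (((n + 1 - j : ℕ) : ℝ)) ^ j := pow_le_pow_left₀ (by positivity) h3 j
    _ ≤ (j.factorial : ℝ) * (n.choose j : ℝ) := h1
    _ ≤ (j : ℝ) ^ j * (n.choose j : ℝ) := by gcongr
    _ = _ := mul_comm _ _

/-- the exponent `lam` -/
def lamOf (S : Finset ℕ) (T : ℕ) : ℕ := 2 * ∏ p ∈ S.filter (fun p => p ≠ 2), p ^ Nat.log p T

theorem lamOf_pos {S : Finset ℕ} {T : ℕ} (hS : ∀ p ∈ S, p.Prime) : 0 < lamOf S T := by
  unfold lamOf
  apply Nat.mul_pos (by norm_num)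
  apply Finset.prod_pos
  intro p hp
  exact pow_pos (hS p (mem_filter.1 hp).1).pos _

theorem lamOf_four {S : Finset ℕ} {T : ℕ} (hS : ∀ p ∈ S, p.Prime) : ¬ 4 ∣ lamOf S T := by
  unfold lamOf
  intro h
  have h1 : 2 ∣ ∏ p ∈ S.filter (fun p => p ≠ 2), p ^ Nat.log p T := by
    obtain ⟨m, hm⟩ := h
    exact ⟨m, by omega⟩
  rw [Prime.dvd_finsetProd_iff Nat.prime_two.prime] at h1
  obtain ⟨p, hp, h2⟩ := h1
  rw [mem_filter] at hp
  have h3 := Nat.prime_two.dvd_of_dvd_pow h2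
  exact hp.2 ((Nat.prime_dvd_prime_iff_eq Nat.prime_two (hS p hp.1)).1 h3).symm

theorem lamOf_prime {S : Finset ℕ} {T : ℕ} (hS : ∀ p ∈ S, p.Prime) (h2 : 2 ∈ S) (p : ℕ)
    (hp : p.Prime) (h : p ∣ lamOf S T) : p ∈ S := by
  unfold lamOf at h
  rcases (Nat.Prime.dvd_mul hp).1 h with h | h
  · have := (Nat.prime_dvd_prime_iff_eq hp Nat.prime_two).1 h
    rw [this]; exact h2
  · rw [Prime.dvd_finsetProd_iff hp.prime] at h
    obtain ⟨r, hr, h3⟩ := h
    rw [mem_filter] at hr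
    have h4 := hp.dvd_of_dvd_pow h3
    rw [(Nat.prime_dvd_prime_iff_eq hp (hS r hr.1)).1 h4]
    exact hr.1

theorem lamOf_le {S : Finset ℕ} {T : ℕ} (hT : 2 ≤ T) :
    (lamOf S T : ℝ) ≤ (T : ℝ) ^ (S.card + 1) := by
  have h1 : lamOf S T ≤ T * T ^ S.card := by
    unfold lamOf
    apply Nat.mul_le_mul hT
    calc ∏ p ∈ S.filter (fun p => p ≠ 2), p ^ Nat.log p T
        ≤ ∏ p ∈ S.filter (fun p => p ≠ 2), T := by
          apply Finset.prod_le_prod'
          intro p _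
          exact Nat.pow_log_le_self p (by omega)
      _ = T ^ (S.filter (fun p => p ≠ 2)).card := by rw [prod_const]
      _ ≤ T ^ S.card := Nat.pow_le_pow_right (by omega) (card_filter_le _ _)
  have h2 : T * T ^ S.card = T ^ (S.card + 1) := by rw [pow_succ, mul_comm]
  rw [h2] at h1
  exact_mod_cast h1

theorem dvd_lamOf {S : Finset ℕ} {T t : ℕ} (ht : t ≤ T) (ht3 : t % 4 = 3)
    (hS : ∀ p : ℕ, p.Prime → p ∣ t - 1 → p ∈ S) : t - 1 ∣ lamOf S T := by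
  obtain ⟨m, hm⟩ : ∃ m, t - 1 = 2 * m := ⟨(t - 1) / 2, by omega⟩
  have hmodd : m % 2 = 1 := by omega
  have hm0 : m ≠ 0 := by omega
  unfold lamOf
  rw [hm]
  apply Nat.mul_dvd_mul_left
  conv_lhs => rw [← Nat.prod_factorization_pow_eq_self hm0]
  rw [Finsupp.prod, Nat.support_factorization]
  have hsub : m.primeFactors ⊆ S.filter (fun p => p ≠ 2) := by
    intro p hp
    rw [Nat.mem_primeFactors] at hp
    rw [mem_filter]
    refine ⟨hS p hp.1 (hm ▸ Dvd.dvd.mul_left hp.2.1 2), ?_⟩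
    rintro rfl
    have := hp.2.1
    omega
  refine dvd_trans (Finset.prod_dvd_prod_of_dvd _ _ ?_)
    (Finset.prod_dvd_prod_of_subset _ _ _ hsub)
  intro p hp
  rw [Nat.mem_primeFactors] at hp
  apply pow_dvd_pow
  apply Nat.le_log_of_pow_le hp.1.one_lt
  calc p ^ m.factorization p ≤ m := Nat.le_of_dvd (by omega) (Nat.ordProj_dvd m p)
    _ ≤ T := by omega

end Pool.Agent.TH194.BL
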