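import Mathlib
import Pool.Agent.TH194.BL.Fin2

/-!
Project BL, part FIN 3: the power saving for one prime exponent.
-/

namespace Pool.Agent.TH194.BL

open Finset Filter

theorem choose_lower' {n j : ℕ} (h : 2 * j ≤ n) :
    ((n : ℝ) / (2 * j)) ^ j ≤ (n.choose j : ℝ) := by
  rcases Nat.eq_zero_or_pos j with rfl | hj
  · simp
  · exact choose_lower hj h

/-- exponents -/
noncomputable def al (ε : ℝ) : ℝ := (1 - ε / 2) / (1 / 2 + ε / 16)

noncomputable def be (ε : ℝ) : ℝ := al ε * (1 - ε / 8) - 1 - ε / 16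

theorem al_le {ε : ℝ} (h0 : 0 < ε) : al ε ≤ 2 := by
  unfold al
  rw [div_le_iff₀ (by linarith)]
  linarith

theorem al_ge {ε : ℝ} (h0 : 0 < ε) (h1 : ε ≤ 1 / 8) : 7 / 4 ≤ al ε := by
  unfold al
  rw [le_div_iff₀ (by linarith)]
  linarith

theorem al_mul {ε : ℝ} (h0 : 0 < ε) : al ε * (1 / 2 + ε / 16) = 1 - ε / 2 := by
  unfold al
  rw [div_mul_cancel₀]
  linarith

theorem al_e {ε : ℝ} (h0 : 0 < ε) (h1 : ε ≤ 1 / 8) : 3 / 2 ≤ al ε * (1 - ε / 8) := by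
  have := al_ge h0 h1
  nlinarith

theorem be_pos {ε : ℝ} (h0 : 0 < ε) (h1 : ε ≤ 1 / 8) : 0 < be ε := by
  have := al_e h0 h1
  unfold be
  linarith

theorem be_le {ε : ℝ} (h0 : 0 < ε) (h1 : ε ≤ 1 / 8) : be ε ≤ 2 := by
  have := al_le h0
  have h2 := al_ge h0 h1
  unfold be
  nlinarith

theorem be_al {ε : ℝ} (h0 : 0 < ε) (h1 : ε ≤ 1 / 8) : (1 / 4 - ε / 4) * (2 * al ε) ≤ be ε := by
  have ha := al_ge h0 h1
  have hm := al_mul h0
  unfold be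
  -- `al` is determined by `hm`
  nlinarith [mul_pos h0 h0]


/-- all the inequalities between the parameters, for `L = log N` large -/
structure Par (k B : ℕ) (ε : ℝ) (T₀ : ℕ) (L : ℝ) : Prop where
  l1 : 1 ≤ L
  ll : 1 ≤ Real.log L
  y2 : 2 ≤ L ^ (1 - ε / 2)
  t0 : T₀ ≤ ⌊L ^ al ε⌋₊
  tl : L ^ al ε / 2 ≤ (⌊L ^ al ε⌋₊ : ℝ)
  tL : L ≤ (⌊L ^ al ε⌋₊ : ℝ)
  tk : ((⌊L ^ al ε⌋₊ : ℕ) : ℝ) ^ (1 - ε / 8) + 16 * (k + 4) ^ 2 ≤
    ((⌊L ^ al ε⌋₊ : ℕ) : ℝ) ^ (1 - ε / 16)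
  e2 : Real.log 2 + (L ^ (1 - ε / 2) + 1) * ((4 * k + B) * Real.log L) ≤ ε / 8 * L
  e6 : 4 * L ≤ L ^ (al ε * (1 - ε / 8))
  e7 : 12 ≤ L ^ (ε / 16)
  e8 : 2 * Real.log L ≤ ε / 8 * L
  e9 : k * Real.log 12 ≤ ε / 8 * L
  eB : Real.log L ^ B ≤ Real.exp (ε / 8 * L)

theorem ev_par (k B : ℕ) {ε : ℝ} (h0 : 0 < ε) (h1 : ε ≤ 1 / 8) (T₀ : ℕ) :
    ∀ᶠ L : ℝ in atTop, Par k B ε T₀ L := by
  have hal := al_ge h0 h1
  have hlog := Real.tendsto_log_atTop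
  have f1 : ∀ᶠ L : ℝ in atTop, 1 ≤ L := eventually_ge_atTop 1
  have f2 : ∀ᶠ L : ℝ in atTop, 1 ≤ Real.log L := hlog.eventually_ge_atTop 1
  have f3 : ∀ᶠ L : ℝ in atTop, 2 ≤ L ^ (1 - ε / 2) :=
    (tendsto_rpow_atTop (by linarith)).eventually_ge_atTop 2
  have hfl : Tendsto (fun L : ℝ => ⌊L ^ al ε⌋₊) atTop atTop :=
    tendsto_nat_floor_atTop.comp (tendsto_rpow_atTop (by linarith))
  have f4 : ∀ᶠ L : ℝ in atTop, T₀ ≤ ⌊L ^ al ε⌋₊ := hfl.eventually_ge_atTop T₀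
  have f5 : ∀ᶠ L : ℝ in atTop, 2 ≤ L ^ al ε :=
    (tendsto_rpow_atTop (by linarith)).eventually_ge_atTop 2
  have f6 : ∀ᶠ L : ℝ in atTop, 4 ≤ L ^ (1 / 2 : ℝ) :=
    (tendsto_rpow_atTop (by norm_num)).eventually_ge_atTop 4
  have f7 : ∀ᶠ L : ℝ in atTop, 12 ≤ L ^ (ε / 16) :=
    (tendsto_rpow_atTop (by linarith)).eventually_ge_atTop 12
  -- T^(1-ε/8) + C ≤ T^(1-ε/16)
  have g1 : ∀ᶠ T : ℝ in atTop, T ^ (1 - ε / 8) + 16 * ((k : ℝ) + 4) ^ 2 ≤ T ^ (1 - ε / 16) := by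
    have a1 : ∀ᶠ T : ℝ in atTop, 1 + 16 * ((k : ℝ) + 4) ^ 2 ≤ T ^ (ε / 16) :=
      (tendsto_rpow_atTop (by linarith)).eventually_ge_atTop _
    filter_upwards [a1, eventually_ge_atTop (1 : ℝ)] with T hT hT1
    have b1 : 1 ≤ T ^ (1 - ε / 8) := Real.one_le_rpow hT1 (by linarith)
    have b2 : T ^ (1 - ε / 16) = T ^ (1 - ε / 8) * T ^ (ε / 16) := by
      rw [← Real.rpow_add (by linarith)]
      congr 1
      ring
    rw [b2]
    have b3 : (0 : ℝ) ≤ 16 * ((k : ℝ) + 4) ^ 2 := by positivity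
    nlinarith
  have f8 : ∀ᶠ L : ℝ in atTop, ((⌊L ^ al ε⌋₊ : ℕ) : ℝ) ^ (1 - ε / 8) + 16 * ((k : ℝ) + 4) ^ 2 ≤
    ((⌊L ^ al ε⌋₊ : ℕ) : ℝ) ^ (1 - ε / 16) :=
    (tendsto_natCast_atTop_atTop.comp hfl).eventually g1
  -- logarithms
  have g2 : ∀ (C s : ℝ), 0 < s → ∀ᶠ L : ℝ in atTop, C * Real.log L ≤ L ^ s := by
    intro C s hs
    have h1 := isLittleO_log_rpow_atTop hs
    have h2 := h1.bound (show (0 : ℝ) < 1 / (|C| + 1) by positivity)
    filter_upwards [h2, eventually_ge_atTop (1 : ℝ)] with L hL hL1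
    have h3 : 0 ≤ Real.log L := Real.log_nonneg hL1
    have h4 : 0 ≤ L ^ s := by positivity
    rw [Real.norm_of_nonneg h3, Real.norm_of_nonneg h4] at hL
    calc C * Real.log L ≤ (|C| + 1) * Real.log L := by
          apply mul_le_mul_of_nonneg_right _ h3
          have := le_abs_self C
          linarith
      _ ≤ (|C| + 1) * (1 / (|C| + 1) * L ^ s) := by gcongr
      _ = L ^ s := by field_simp
  have f9 : ∀ᶠ L : ℝ in atTop,
      Real.log 2 + (L ^ (1 - ε / 2) + 1) * ((4 * k + B) * Real.log L) ≤ ε / 8 * L := by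
    have a1 := g2 (2 * (4 * k + B) / (ε / 16)) (ε / 2) (by linarith)
    have a2 : ∀ᶠ L : ℝ in atTop, Real.log 2 / (ε / 16) ≤ L := eventually_ge_atTop _
    filter_upwards [a1, a2, f3, f1] with L hL1 hL2 hL3 hL4
    have b1 : Real.log 2 ≤ ε / 16 * L := by
      rw [div_le_iff₀ (by linarith)] at hL2
      linarith
    have b2 : 2 * (4 * k + B) * Real.log L ≤ ε / 16 * L ^ (ε / 2) := by
      have : 2 * (4 * (k : ℝ) + B) / (ε / 16) * Real.log L =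
          (2 * (4 * k + B) * Real.log L) / (ε / 16) := by ring
      rw [this, div_le_iff₀ (by linarith)] at hL1
      linarith
    have b3 : L ^ (1 - ε / 2) * L ^ (ε / 2) = L := by
      rw [← Real.rpow_add (by linarith)]
      rw [show 1 - ε / 2 + ε / 2 = 1 by ring, Real.rpow_one]
    have b4 : 0 ≤ (4 * (k : ℝ) + B) * Real.log L := by
      have := Real.log_nonneg hL4
      positivity
    calc Real.log 2 + (L ^ (1 - ε / 2) + 1) * ((4 * k + B) * Real.log L)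
        ≤ ε / 16 * L + (L ^ (1 - ε / 2) + L ^ (1 - ε / 2)) * ((4 * k + B) * Real.log L) := by
          gcongr
          linarith
      _ = ε / 16 * L + L ^ (1 - ε / 2) * (2 * (4 * k + B) * Real.log L) := by ring
      _ ≤ ε / 16 * L + L ^ (1 - ε / 2) * (ε / 16 * L ^ (ε / 2)) := by gcongr
      _ = ε / 16 * L + ε / 16 * (L ^ (1 - ε / 2) * L ^ (ε / 2)) := by ring
      _ = ε / 8 * L := by rw [b3]; ring
  have f10 : ∀ᶠ L : ℝ in atTop, 2 * Real.log L ≤ ε / 8 * L := by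
    filter_upwards [g2 (2 / (ε / 8)) 1 one_pos] with L hL
    rw [Real.rpow_one] at hL
    have : 2 / (ε / 8) * Real.log L = (2 * Real.log L) / (ε / 8) := by ring
    rw [this, div_le_iff₀ (by linarith)] at hL
    linarith
  have f11 : ∀ᶠ L : ℝ in atTop, (k : ℝ) * Real.log 12 ≤ ε / 8 * L := by
    filter_upwards [eventually_ge_atTop ((k : ℝ) * Real.log 12 / (ε / 8))] with L hL
    rw [div_le_iff₀ (by linarith)] at hL
    linarith
  have f12 : ∀ᶠ L : ℝ in atTop, Real.log L ^ B ≤ Real.exp (ε / 8 * L) := by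
    filter_upwards [g2 ((B : ℝ) / (ε / 8)) 1 one_pos, f1, f2] with L hL hL1 hL2
    rw [Real.rpow_one] at hL
    have h3 : (B : ℝ) / (ε / 8) * Real.log L = (B * Real.log L) / (ε / 8) := by ring
    rw [h3, div_le_iff₀ (by linarith)] at hL
    have h4 : Real.log (Real.log L) ≤ Real.log L := by
      have := Real.log_le_sub_one_of_pos (show 0 < Real.log L by linarith)
      linarith
    have h5 : Real.log L ^ B = Real.exp (B * Real.log (Real.log L)) := by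
      rw [Real.exp_nat_mul, Real.exp_log (by linarith)]
    rw [h5]
    apply Real.exp_le_exp.2
    calc (B : ℝ) * Real.log (Real.log L) ≤ B * Real.log L := by gcongr
      _ ≤ ε / 8 * L := by linarith
  filter_upwards [f1, f2, f3, f4, f5, f6, f7, f8, f9, f10, f11, f12] with L h1' h2 h3 h4 h5 h6 h7 h8
    h9 h10 h11 h12
  have hLpos : 0 < L := by linarith
  have k1 : L ^ al ε / 2 ≤ (⌊L ^ al ε⌋₊ : ℝ) := by
    have := Nat.lt_floor_add_one (L ^ al ε)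
    linarith
  have k2 : 4 * L ≤ L ^ (al ε * (1 - ε / 8)) := by
    calc 4 * L ≤ L ^ (1 / 2 : ℝ) * L := by gcongr
      _ = L ^ (3 / 2 : ℝ) := by
          rw [show (3 / 2 : ℝ) = 1 / 2 + 1 by norm_num, Real.rpow_add hLpos, Real.rpow_one]
      _ ≤ _ := Real.rpow_le_rpow_of_exponent_le h1' (al_e h0 h1)
  have k3 : L ≤ (⌊L ^ al ε⌋₊ : ℝ) := by
    have a1 : L ^ (3 / 2 : ℝ) ≤ L ^ al ε :=
      Real.rpow_le_rpow_of_exponent_le h1' (by linarith)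
    have a2 : L ^ (3 / 2 : ℝ) = L ^ (1 / 2 : ℝ) * L := by
      rw [show (3 / 2 : ℝ) = 1 / 2 + 1 by norm_num, Real.rpow_add hLpos, Real.rpow_one]
    nlinarith
  exact ⟨h1', h2, h3, h4, k1, k3, by exact_mod_cast h8, h9, k2, h7, h10, h11, h12⟩

end Pool.Agent.TH194.BL
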