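import Mathlib
import Pool.Agent.TH194.BL.Fin3

/-!
Project BL, part FIN 4: the power saving.
-/

namespace Pool.Agent.TH194.BL

open Finset Filter

/-- the lower bound for the sieve sum -/
theorem sieve_sum {ε : ℝ} (h0 : 0 < ε) (h1 : ε ≤ 1 / 8) {k B T₀ : ℕ} {L : ℝ}
    (hp : Par k B ε T₀ L) {n j : ℕ} (hn : L ^ (al ε * (1 - ε / 8)) / 2 ≤ n)
    (hj1 : (j : ℝ) ≤ L) (hj2 : L / 2 ≤ (j + 1) * (al ε * Real.log L)) :
    Real.exp ((1 / 4 - 3 * ε / 8) * L) ≤ (n.choose j : ℝ) / 3 ^ j := by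
  have hL0 : 0 < L := by linarith [hp.l1]
  have hal := al_ge h0 h1
  have hll : 0 < Real.log L := by linarith [hp.ll]
  have hn2 : 2 * L ≤ n := by linarith [hp.e6]
  have h2j : 2 * j ≤ n := by
    have : (2 * j : ℝ) ≤ n := by linarith
    exact_mod_cast this
  have c1 := choose_lower' h2j
  -- the ratio
  have hr : L ^ be ε ≤ (n : ℝ) / (6 * L) := by
    rw [le_div_iff₀ (by positivity)]
    have e1 : L ^ be ε * L ^ (ε / 16) * L = L ^ (al ε * (1 - ε / 8)) := by
      rw [← Real.rpow_add hL0]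
      nth_rewrite 2 [← Real.rpow_one L]
      rw [← Real.rpow_add hL0]
      congr 1
      unfold be
      ring
    have e2 : L ^ be ε * 12 * L ≤ L ^ be ε * L ^ (ε / 16) * L := by
      gcongr
      exact hp.e7
    nlinarith
  have hpow : (L ^ be ε) ^ j ≤ (n.choose j : ℝ) / 3 ^ j := by
    rw [le_div_iff₀ (by positivity)]
    calc (L ^ be ε) ^ j * 3 ^ j = (L ^ be ε * 3) ^ j := by rw [mul_pow]
      _ ≤ ((n : ℝ) / (2 * j)) ^ j := by
          rcases Nat.eq_zero_or_pos j with rfl | hj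
          · simp
          have hj0 : (0 : ℝ) < j := by exact_mod_cast hj
          apply pow_le_pow_left₀ (by positivity)
          calc L ^ be ε * 3 ≤ (n : ℝ) / (6 * L) * 3 := by gcongr
            _ = (n : ℝ) / (2 * L) := by field_simp; ring
            _ ≤ (n : ℝ) / (2 * j) := by gcongr
      _ ≤ _ := c1
  refine le_trans ?_ hpow
  have e3 : (L ^ be ε) ^ j = Real.exp (be ε * Real.log L * j) := by
    rw [Real.rpow_def_of_pos hL0, ← Real.exp_nat_mul]
    congr 1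
    ring
  rw [e3]
  apply Real.exp_le_exp.2
  -- (1/4 - 3ε/8) L ≤ be ℓ j
  have hb := be_al h0 h1
  have hb0 := be_pos h0 h1
  have hb2 := be_le h0 h1
  have e8 := hp.e8
  -- be * (L/2) ≤ be * (j+1) * al * ℓ
  have s1 : be ε * (L / 2) ≤ be ε * ((j + 1) * (al ε * Real.log L)) := by gcongr
  -- (1/4-ε/4) * 2 al * (L/2) ≤ be * (L/2)
  have s2 : (1 / 4 - ε / 4) * (2 * al ε) * (L / 2) ≤ be ε * (L / 2) := by gcongr
  have hal0 : 0 < al ε := by linarith
  have s3 : (1 / 4 - ε / 4) * L ≤ be ε * ((j + 1) * Real.log L) := by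
    have : al ε * ((1 / 4 - ε / 4) * L) ≤ al ε * (be ε * ((j + 1) * Real.log L)) := by
      calc al ε * ((1 / 4 - ε / 4) * L) = (1 / 4 - ε / 4) * (2 * al ε) * (L / 2) := by ring
        _ ≤ _ := s2
        _ ≤ _ := s1
        _ = _ := by ring
    exact le_of_mul_le_mul_left this hal0
  have s4 : be ε * Real.log L ≤ ε / 8 * L := by nlinarith
  nlinarith

theorem one_q (hloc : S_LOC) (hlsk : S_LSK) (hdesc : S_DESC) (hssp : S_SSP) (k B : ℕ) {ε : ℝ}
    (h0 : 0 < ε) (h1 : ε ≤ 1 / 8) : ∃ N₀ : ℕ, ∀ N : ℕ, N₀ ≤ N → ∀ q : ℕ, q.Prime →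
    (q : ℝ) ≤ Real.log (Real.log N) ^ B → ∀ a : Fin k → ℕ, ∀ E : Finset (Fin k → ℕ),
    (∀ A ∈ E, A ∈ Cube a N ∧ A ∈ Exc k q (Real.log N ^ (1 - ε))) →
    (E.card : ℝ) ≤ (N : ℝ) ^ ((k : ℝ) - 1 / 4 + 5 * ε / 8) := by
  classical
  obtain ⟨T₀, hT₀⟩ := hssp (1 / 2 + ε / 16) (ε / 16) (by linarith) (by linarith) (by linarith) B
  have hev := (Real.tendsto_log_atTop.comp tendsto_natCast_atTop_atTop).eventually
    (ev_par k B h0 h1 (max T₀ 2))
  obtain ⟨N₀, hN₀⟩ := eventually_atTop.1 hev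
  refine ⟨max N₀ 1, fun N hN q hq hqB a E hE => ?_⟩
  have hN1 : 1 ≤ N := (le_max_right _ _).trans hN
  have hp : Par k B ε (max T₀ 2) (Real.log N) := hN₀ N ((le_max_left _ _).trans hN)
  set L := Real.log N with hL
  have hNR : (0 : ℝ) < N := by exact_mod_cast hN1
  have hNexp : (N : ℝ) = Real.exp L := (Real.exp_log hNR).symm
  have hL0 : 0 < L := by linarith [hp.l1]
  have hll : 0 < Real.log L := by linarith [hp.ll]
  have hal := al_ge h0 h1
  have hal2 := al_le h0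
  set T := ⌊L ^ al ε⌋₊ with hT
  have hTR : (T : ℝ) ≤ L ^ al ε := Nat.floor_le (by positivity)
  have hT2 : 2 ≤ T := (le_max_right _ _).trans hp.t0
  have hT0 : (0 : ℝ) < T := by exact_mod_cast (by omega : 0 < T)
  have hlogT : Real.log T ≤ al ε * Real.log L := by
    have := Real.log_le_log hT0 hTR
    rwa [Real.log_rpow hL0] at this
  have hlogL : Real.log L ≤ Real.log T := Real.log_le_log hL0 hp.tL
  -- primes
  set P₀ := (Icc 1 T).filter (fun t : ℕ => t.Prime ∧ t % 4 = 3 ∧ q ∣ t - 1 ∧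
    ∀ p : ℕ, p.Prime → p ∣ t - 1 → (p : ℝ) ≤ (T : ℝ) ^ (1 / 2 + ε / 16)) with hP₀
  have hP₀c : (T : ℝ) ^ (1 - ε / 16) ≤ (P₀.card : ℝ) := by
    have h := hT₀ T ((le_max_left _ _).trans hp.t0) q hq
      (hqB.trans (pow_le_pow_left₀ hll.le hlogL B))
    refine h.trans (le_of_eq ?_)
    rw [hP₀]
  set P := P₀.filter (fun t => 16 * (k + 4) ^ 2 ≤ t) with hP
  have hPc : L ^ (al ε * (1 - ε / 8)) / 2 ≤ (P.card : ℝ) := by
    have c1 : P₀.card ≤ P.card + 16 * (k + 4) ^ 2 := by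
      have : P₀ ⊆ P ∪ Icc 1 (16 * (k + 4) ^ 2) := by
        intro t ht
        rw [mem_union, hP, mem_filter, mem_Icc]
        have h1 : 1 ≤ t := by
          rw [hP₀, mem_filter, mem_Icc] at ht
          exact ht.1.1
        rcases le_total (16 * (k + 4) ^ 2) t with h | h
        · left; exact ⟨ht, h⟩
        · right; exact ⟨h1, h⟩
      calc P₀.card ≤ (P ∪ Icc 1 (16 * (k + 4) ^ 2)).card := card_le_card this
        _ ≤ P.card + (Icc 1 (16 * (k + 4) ^ 2)).card := card_union_le _ _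
        _ = _ := by rw [Nat.card_Icc, Nat.add_sub_cancel]
    have c2 : (P₀.card : ℝ) ≤ P.card + 16 * (k + 4) ^ 2 := by exact_mod_cast c1
    have c3 := hp.tk
    have c4 : L ^ (al ε * (1 - ε / 8)) / 2 ≤ (T : ℝ) ^ (1 - ε / 8) := by
      have d1 : (L ^ al ε / 2) ^ (1 - ε / 8) ≤ (T : ℝ) ^ (1 - ε / 8) :=
        Real.rpow_le_rpow (by positivity) hp.tl (by linarith)
      have d2 : (L ^ al ε / 2) ^ (1 - ε / 8) = L ^ (al ε * (1 - ε / 8)) / 2 ^ (1 - ε / 8) := by
        rw [Real.div_rpow (by positivity) (by norm_num), ← Real.rpow_mul hL0.le]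
      have d3 : (2 : ℝ) ^ (1 - ε / 8) ≤ 2 := by
        calc (2 : ℝ) ^ (1 - ε / 8) ≤ 2 ^ (1 : ℝ) :=
              Real.rpow_le_rpow_of_exponent_le (by norm_num) (by linarith)
          _ = 2 := Real.rpow_one 2
      calc L ^ (al ε * (1 - ε / 8)) / 2 ≤ L ^ (al ε * (1 - ε / 8)) / 2 ^ (1 - ε / 8) := by
            gcongr
        _ = _ := d2.symm
        _ ≤ _ := d1
    linarith
  have hPmem : ∀ t ∈ P, t ≤ T ∧ t.Prime ∧ t % 4 = 3 ∧ q ∣ t - 1 ∧
      (∀ p : ℕ, p.Prime → p ∣ t - 1 → (p : ℝ) ≤ (T : ℝ) ^ (1 / 2 + ε / 16)) ∧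
      16 * (k + 4) ^ 2 ≤ t := by
    intro t ht
    rw [hP, mem_filter, hP₀, mem_filter, mem_Icc] at ht
    exact ⟨ht.1.1.2, ht.1.2.1, ht.1.2.2.1, ht.1.2.2.2.1, ht.1.2.2.2.2, ht.2⟩
  -- small primes
  set Y' := L ^ (1 - ε / 2) with hY'
  set S := (Icc 1 ⌊Y'⌋₊).filter (fun p : ℕ => p.Prime) with hS
  have hY'0 : 0 < Y' := by linarith [hp.y2]
  have hSc : (S.card : ℝ) ≤ Y' := by
    calc (S.card : ℝ) ≤ ((Icc 1 ⌊Y'⌋₊).card : ℝ) := by exact_mod_cast card_filter_le _ _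
      _ = (⌊Y'⌋₊ : ℝ) := by rw [Nat.card_Icc, Nat.add_sub_cancel]
      _ ≤ Y' := Nat.floor_le hY'0.le
  have hSp : ∀ p ∈ S, p.Prime := fun p hp' => (mem_filter.1 hp').2
  have hSmem : ∀ p : ℕ, p.Prime → (p : ℝ) ≤ Y' → p ∈ S := by
    intro p hpp hpY
    rw [hS, mem_filter, mem_Icc]
    exact ⟨⟨hpp.one_le, Nat.le_floor hpY⟩, hpp⟩
  have hS2 : 2 ∈ S := hSmem 2 Nat.prime_two (by exact_mod_cast hp.y2)
  have hTth : (T : ℝ) ^ (1 / 2 + ε / 16) ≤ Y' := by
    calc (T : ℝ) ^ (1 / 2 + ε / 16) ≤ (L ^ al ε) ^ (1 / 2 + ε / 16) :=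
          Real.rpow_le_rpow hT0.le hTR (by linarith)
      _ = L ^ (al ε * (1 / 2 + ε / 16)) := by rw [← Real.rpow_mul hL0.le]
      _ = Y' := by rw [al_mul h0]
  -- j and Q
  set Q := Nat.sqrt N with hQ
  have hQ2 : Q ^ 2 ≤ N := by rw [sq]; exact Nat.sqrt_le N
  have hQ1 : 1 ≤ Q := by
    rw [hQ, Nat.le_sqrt]
    omega
  set j := Nat.log T Q with hj
  have hTj : T ^ j ≤ Q := Nat.pow_log_le_self T (by omega)
  have hTj2 : Q < T ^ (j + 1) := Nat.lt_pow_succ_log_self (by omega) Q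
  have hNQ : N < (Q + 1) ^ 2 := by rw [sq]; exact Nat.lt_succ_sqrt N
  have hlT : 1 ≤ Real.log T := by linarith [hp.ll]
  have hj1 : (j : ℝ) ≤ L := by
    have a1 : (T : ℝ) ^ j ≤ Q := by exact_mod_cast hTj
    have a2 := Real.log_le_log (by positivity) a1
    rw [Real.log_pow] at a2
    have a3 : Real.log Q ≤ L := by
      apply Real.log_le_log (by exact_mod_cast hQ1)
      have : Q ≤ Q ^ 2 := Nat.le_self_pow (by norm_num) Q
      exact_mod_cast this.trans hQ2
    have a4 : (j : ℝ) * 1 ≤ j * Real.log T := by gcongr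
    linarith
  have hj2 : L / 2 ≤ (j + 1) * (al ε * Real.log L) := by
    have a1 : N < (T ^ (j + 1)) ^ 2 := lt_of_lt_of_le hNQ (Nat.pow_le_pow_left hTj2 2)
    have a2 : (N : ℝ) ≤ ((T : ℝ) ^ (j + 1)) ^ 2 := by exact_mod_cast a1.le
    have a3 := Real.log_le_log hNR a2
    rw [← pow_mul, Real.log_pow, ← hL] at a3
    push_cast at a3
    have a4 : ((j : ℝ) + 1) * 2 * Real.log T ≤ (j + 1) * 2 * (al ε * Real.log L) := by gcongr
    linarith
  have hsum := sieve_sum h0 h1 hp hPc hj1 hj2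
  have hjP : j ≤ P.card := by
    have : (j : ℝ) ≤ P.card := by
      have := hp.e6
      linarith
    exact_mod_cast this
  have hmain := card_exc_le (Y := L ^ (1 - ε)) hloc hlsk hdesc hq (lam := lamOf S T) (N := N) (Q := Q) (j := j)
    a (P := P) (S := S) hN1 hQ2 (fun t ht => (hPmem t ht).2.1)
    (fun t ht => dvd_lamOf (hPmem t ht).1 (hPmem t ht).2.2.1
      (fun p hpp hpt => hSmem p hpp (((hPmem t ht).2.2.2.2.1 p hpp hpt).trans hTth)))
    (fun t ht => (hPmem t ht).2.2.2.1) (fun t ht => (hPmem t ht).2.2.2.2.2)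
    (by
      intro D hD
      rw [mem_powersetCard] at hD
      calc ∏ t ∈ D, t ≤ ∏ t ∈ D, T := prod_le_prod' (fun t ht => (hPmem t (hD.1 ht)).1)
        _ = T ^ j := by rw [prod_const, hD.2]
        _ ≤ Q := hTj)
    hjP (lamOf_pos hSp) (lamOf_four hSp) hSp (fun p hpp hpl => lamOf_prime hSp hS2 p hpp hpl)
    (fun p hpp hpY => hSmem p hpp (hpY.trans
      (Real.rpow_le_rpow_of_exponent_le hp.l1 (by linarith))))
  have hEsub : E ⊆ (Cube a N).filter (fun A => A ∈ Exc k q (L ^ (1 - ε))) := by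
    intro A hA
    rw [mem_filter]
    exact hE A hA
  have hEc : (E.card : ℝ) ≤ 2 * (lamOf S T : ℝ) ^ (2 * k) * (q : ℝ) ^ S.card *
        ((12 * (N : ℝ)) ^ k / ((P.card.choose j : ℝ) / 3 ^ j)) := by
    refine le_trans ?_ hmain
    exact_mod_cast card_le_card (by convert hEsub)
  refine hEc.trans ?_
  -- numerical estimate
  have hlam0 : (0 : ℝ) < lamOf S T := by exact_mod_cast lamOf_pos hSp
  have hq0 : (0 : ℝ) < q := by exact_mod_cast hq.pos
  have n1 : 2 * (lamOf S T : ℝ) ^ (2 * k) * (q : ℝ) ^ S.card ≤ Real.exp (ε / 8 * L) := by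
    have hpos : 0 < 2 * (lamOf S T : ℝ) ^ (2 * k) * (q : ℝ) ^ S.card := by positivity
    rw [← Real.log_le_iff_le_exp hpos]
    rw [Real.log_mul (by positivity) (by positivity), Real.log_mul (by positivity) (by positivity),
      Real.log_pow, Real.log_pow]
    have b1 : Real.log (lamOf S T) ≤ (Y' + 1) * (2 * Real.log L) := by
      have c1 := Real.log_le_log hlam0 (lamOf_le (S := S) hT2)
      rw [Real.log_pow] at c1
      push_cast at c1
      have c2 : Real.log T ≤ 2 * Real.log L := by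
        refine hlogT.trans ?_
        gcongr
      calc Real.log (lamOf S T) ≤ _ := c1
        _ ≤ (Y' + 1) * (2 * Real.log L) := by
            apply mul_le_mul (by linarith) c2 (by linarith) (by linarith)
    have b2 : Real.log q ≤ B * Real.log L := by
      have c1 := Real.log_le_log hq0 hqB
      rw [Real.log_pow] at c1
      refine c1.trans ?_
      have c3 : Real.log (Real.log L) ≤ Real.log L := by
        have := Real.log_le_sub_one_of_pos hll
        linarith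
      gcongr
    have b3 : (S.card : ℝ) * Real.log q ≤ (Y' + 1) * (B * Real.log L) := by
      apply mul_le_mul (by linarith) b2 (Real.log_nonneg (by exact_mod_cast hq.one_le))
        (by linarith)
    have b4 : ((2 * k : ℕ) : ℝ) * Real.log (lamOf S T) ≤
        ((2 * k : ℕ) : ℝ) * ((Y' + 1) * (2 * Real.log L)) := by gcongr
    push_cast at b4
    have e2 := hp.e2
    push_cast
    nlinarith
  have n2 : (12 * (N : ℝ)) ^ k / ((P.card.choose j : ℝ) / 3 ^ j) ≤
      Real.exp ((ε / 8 + k) * L - (1 / 4 - 3 * ε / 8) * L) := by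
    rw [sub_eq_add_neg, Real.exp_add, Real.exp_neg, ← div_eq_mul_inv]
    have c1 : (12 * (N : ℝ)) ^ k ≤ Real.exp ((ε / 8 + k) * L) := by
      rw [mul_pow, add_mul, Real.exp_add]
      apply mul_le_mul _ _ (by positivity) (by positivity)
      · rw [← Real.log_le_iff_le_exp (by positivity), Real.log_pow]
        exact hp.e9
      · rw [hNexp, Real.exp_nat_mul]
    have hpos := Real.exp_pos ((1 / 4 - 3 * ε / 8) * L)
    exact div_le_div₀ (by positivity) c1 hpos hsum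
  calc 2 * (lamOf S T : ℝ) ^ (2 * k) * (q : ℝ) ^ S.card *
        ((12 * (N : ℝ)) ^ k / ((P.card.choose j : ℝ) / 3 ^ j))
      ≤ Real.exp (ε / 8 * L) * Real.exp ((ε / 8 + k) * L - (1 / 4 - 3 * ε / 8) * L) := by
        apply mul_le_mul n1 n2 _ (by positivity)
        have hc : 0 < P.card.choose j := Nat.choose_pos hjP
        positivity
    _ = Real.exp (L * ((k : ℝ) - 1 / 4 + 5 * ε / 8)) := by
        rw [← Real.exp_add]
        congr 1
        ring
    _ = (N : ℝ) ^ ((k : ℝ) - 1 / 4 + 5 * ε / 8) := by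
        rw [Real.rpow_def_of_pos hNR]

end Pool.Agent.TH194.BL
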