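import Mathlib
import Pool.Agent.TH194.BL.Fin4

/-!
Project BL, part FIN 5: boxes and all exponents with a small prime factor.
-/

namespace Pool.Agent.TH194.BL

open Finset Filter

/-- the tuples which are exceptional for some exponent `n` with a prime factor at most
`(log log N) ^ B` -/
def ExcAll (k B N : ℕ) (ε : ℝ) : Set (Fin k → ℕ) :=
  {A | ∃ n q : ℕ, q.Prime ∧ q ∣ n ∧ (q : ℝ) ≤ Real.log (Real.log N) ^ B ∧
    A ∈ Exc k n (Real.log N ^ (1 - ε))}

theorem box_count {k N : ℕ} (hN : 1 ≤ N) {a M : Fin k → ℕ} (hM : ∀ i, N ≤ M i)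
    {E : Finset (Fin k → ℕ)} (hE : ∀ A ∈ E, ∀ i, a i < A i ∧ A i ≤ a i + M i) {b : ℝ}
    (hb0 : 0 ≤ b)
    (hb : ∀ a' : Fin k → ℕ, ∀ E' : Finset (Fin k → ℕ), E' ⊆ E → (∀ A ∈ E', A ∈ Cube a' N) →
      (E'.card : ℝ) ≤ b) :
    (E.card : ℝ) ≤ b * (2 ^ k * (∏ i, (M i : ℝ)) / (N : ℝ) ^ k) := by
  classical
  set f : (Fin k → ℕ) → (Fin k → ℕ) := fun A i => (A i - a i - 1) / N with hf
  set t := Fintype.piFinset (fun i : Fin k => range (M i / N + 1)) with ht
  have hmaps : Set.MapsTo f (E : Set (Fin k → ℕ)) (t : Set (Fin k → ℕ)) := by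
    intro A hA
    rw [mem_coe] at hA
    rw [mem_coe, ht, Fintype.mem_piFinset]
    intro i
    rw [mem_range, Nat.lt_succ_iff]
    apply Nat.div_le_div_right
    have := hE A hA i
    omega
  have hfib := card_eq_sum_card_fiberwise hmaps
  have hcard : (t.card : ℝ) ≤ 2 ^ k * (∏ i, (M i : ℝ)) / (N : ℝ) ^ k := by
    rw [ht, Fintype.card_piFinset]
    simp only [card_range]
    push_cast
    have hNR : (0 : ℝ) < N := by exact_mod_cast hN
    calc ∏ i, (((M i / N : ℕ) : ℝ) + 1) ≤ ∏ i, (2 * ((M i : ℝ) / N)) := by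
          apply Finset.prod_le_prod
          · intro i _; positivity
          · intro i _
            have h1 : ((M i / N : ℕ) : ℝ) ≤ (M i : ℝ) / N := Nat.cast_div_le
            have h2 : (1 : ℝ) ≤ (M i : ℝ) / N := by
              rw [le_div_iff₀ hNR, one_mul]
              exact_mod_cast hM i
            linarith
      _ = 2 ^ k * (∏ i, (M i : ℝ)) / (N : ℝ) ^ k := by
          rw [prod_mul_distrib, prod_const, card_univ, Fintype.card_fin, prod_div_distrib,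
            prod_const, card_univ, Fintype.card_fin]
          ring
  calc (E.card : ℝ) = ∑ c ∈ t, ((E.filter (fun A => f A = c)).card : ℝ) := by
        rw [hfib]; push_cast; rfl
    _ ≤ ∑ c ∈ t, b := by
        apply sum_le_sum
        intro c _
        apply hb (fun i => a i + c i * N) _ (filter_subset _ _)
        intro A hA
        rw [mem_filter] at hA
        rw [Cube, Fintype.mem_piFinset]
        intro i
        have h1 := hE A hA.1 i
        have h2 : (A i - a i - 1) / N = c i := congrFun hA.2 i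
        have h3 : c i * N ≤ A i - a i - 1 := by
          rw [← h2]; exact Nat.div_mul_le_self _ _
        have h4 : A i - a i - 1 < (c i + 1) * N := by
          rw [← h2]
          have := Nat.lt_mul_div_succ (A i - a i - 1) (show 0 < N by omega)
          rw [mul_comm]
          exact this
        rw [mem_Ioc]
        have h5 : (c i + 1) * N = c i * N + N := by ring
        omega
    _ = t.card * b := by rw [sum_const, nsmul_eq_mul]
    _ ≤ _ := by
        rw [mul_comm]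
        exact mul_le_mul_of_nonneg_left hcard hb0

theorem ExcAll_mono {k B N : ℕ} {ε ε' : ℝ} (h : ε' ≤ ε) (hN : 1 ≤ Real.log N) :
    ExcAll k B N ε ⊆ ExcAll k B N ε' := by
  rintro A ⟨n, q, h1, h2, h3, h4⟩
  refine ⟨n, q, h1, h2, h3, Exc_mono ?_ h4⟩
  exact Real.rpow_le_rpow_of_exponent_le hN (by linarith)

/-- **Power saving.** In every box with all sides at least `N` all but `N ^ (-1/4 + ε) * volume`
of the tuples are not exceptional. -/
theorem power_saving (hloc : S_LOC) (hlsk : S_LSK) (hdesc : S_DESC) (hssp : S_SSP) (k B : ℕ)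
    {ε : ℝ} (h0 : 0 < ε) : ∃ N₀ : ℕ, ∀ N : ℕ, N₀ ≤ N → ∀ a M : Fin k → ℕ, (∀ i, N ≤ M i) →
    ∀ E : Finset (Fin k → ℕ), (∀ A ∈ E, (∀ i, a i < A i ∧ A i ≤ a i + M i) ∧ A ∈ ExcAll k B N ε) →
    (E.card : ℝ) ≤ (N : ℝ) ^ (-(1 / 4) + ε) * ∏ i, (M i : ℝ) := by
  classical
  set δ := min ε (1 / 8) with hδ
  have hδ0 : 0 < δ := lt_min h0 (by norm_num)
  have hδ1 : δ ≤ 1 / 8 := min_le_right _ _
  have hδε : δ ≤ ε := min_le_left _ _
  obtain ⟨N₁, hN₁⟩ := one_q hloc hlsk hdesc hssp k B hδ0 hδ1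
  have hev := (Real.tendsto_log_atTop.comp tendsto_natCast_atTop_atTop).eventually
    (ev_par k B hδ0 hδ1 0)
  obtain ⟨N₂, hN₂⟩ := eventually_atTop.1 hev
  refine ⟨max (max N₁ N₂) 1, fun N hN a M hM E hE => ?_⟩
  have hN1 : 1 ≤ N := (le_max_right _ _).trans hN
  have hNN1 : N₁ ≤ N := ((le_max_left _ _).trans (le_max_left _ _)).trans hN
  have hNN2 : N₂ ≤ N := ((le_max_right _ _).trans (le_max_left _ _)).trans hN
  have hp : Par k B δ 0 (Real.log N) := hN₂ N hNN2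
  set L := Real.log N with hL
  have hNR : (0 : ℝ) < N := by exact_mod_cast hN1
  have hNR1 : (1 : ℝ) ≤ N := by exact_mod_cast hN1
  have hll : 0 < Real.log L := by linarith [hp.ll]
  -- the primes q
  set R := (Icc 1 ⌊Real.log L ^ B⌋₊).filter (fun q : ℕ => q.Prime) with hR
  have hRc : (R.card : ℝ) ≤ (N : ℝ) ^ (δ / 8) := by
    calc (R.card : ℝ) ≤ ((Icc 1 ⌊Real.log L ^ B⌋₊).card : ℝ) := by
          exact_mod_cast card_filter_le _ _
      _ = (⌊Real.log L ^ B⌋₊ : ℝ) := by rw [Nat.card_Icc, Nat.add_sub_cancel]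
      _ ≤ Real.log L ^ B := Nat.floor_le (by positivity)
      _ ≤ Real.exp (δ / 8 * L) := hp.eB
      _ = _ := by rw [Real.rpow_def_of_pos hNR, mul_comm]
  have hkc : (2 : ℝ) ^ k ≤ (N : ℝ) ^ (δ / 8) := by
    calc (2 : ℝ) ^ k ≤ 12 ^ k := pow_le_pow_left₀ (by norm_num) (by norm_num) k
      _ = Real.exp (k * Real.log 12) := by
          rw [Real.exp_nat_mul, Real.exp_log (by norm_num)]
      _ ≤ Real.exp (δ / 8 * L) := Real.exp_le_exp.2 hp.e9
      _ = _ := by rw [Real.rpow_def_of_pos hNR, mul_comm]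
  let Eq : ℕ → Finset (Fin k → ℕ) := fun q => E.filter (fun A => A ∈ Exc k q (L ^ (1 - δ)))
  have hsub : E ⊆ R.biUnion Eq := by
    intro A hA
    obtain ⟨hAb, n, q, h1, h2, h3, h4⟩ := hE A hA
    rw [mem_biUnion]
    refine ⟨q, ?_, ?_⟩
    · rw [hR, mem_filter, mem_Icc]
      exact ⟨⟨h1.one_le, Nat.le_floor h3⟩, h1⟩
    · rw [mem_filter]
      refine ⟨hA, Exc_mono ?_ (Exc_mono_exp h2 h4)⟩
      exact Real.rpow_le_rpow_of_exponent_le hp.l1 (by linarith)
  set b : ℝ := (N : ℝ) ^ ((k : ℝ) - 1 / 4 + 5 * δ / 8) with hb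
  have hq : ∀ q ∈ R, ((Eq q).card : ℝ) ≤ b * (2 ^ k * (∏ i, (M i : ℝ)) / (N : ℝ) ^ k) := by
    intro q hq
    rw [hR, mem_filter, mem_Icc] at hq
    have hqB : (q : ℝ) ≤ Real.log L ^ B := by
      calc (q : ℝ) ≤ (⌊Real.log L ^ B⌋₊ : ℝ) := by exact_mod_cast hq.1.2
        _ ≤ _ := Nat.floor_le (by positivity)
    apply box_count hN1 hM
    · intro A hA
      exact (hE A (mem_filter.1 hA).1).1
    · positivity
    · intro a' E' hE' hcube
      apply hN₁ N hNN1 q hq.2 hqB a' E'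
      intro A hA
      exact ⟨hcube A hA, (mem_filter.1 (hE' hA)).2⟩
  have hM0 : (0 : ℝ) ≤ ∏ i, (M i : ℝ) := prod_nonneg (fun i _ => Nat.cast_nonneg _)
  calc (E.card : ℝ) ≤ ((R.biUnion Eq).card : ℝ) := by exact_mod_cast card_le_card hsub
    _ ≤ ∑ q ∈ R, ((Eq q).card : ℝ) := by exact_mod_cast card_biUnion_le
    _ ≤ ∑ q ∈ R, b * (2 ^ k * (∏ i, (M i : ℝ)) / (N : ℝ) ^ k) := sum_le_sum hq
    _ = R.card * (b * (2 ^ k * (∏ i, (M i : ℝ)) / (N : ℝ) ^ k)) := by rw [sum_const, nsmul_eq_mul]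
    _ ≤ (N : ℝ) ^ (δ / 8) * (b * ((N : ℝ) ^ (δ / 8) * (∏ i, (M i : ℝ)) / (N : ℝ) ^ k)) := by
        gcongr
    _ = ((N : ℝ) ^ (δ / 8) * (N : ℝ) ^ (δ / 8) * (b * (N : ℝ) ^ (-(k : ℝ)))) * ∏ i, (M i : ℝ) := by
        rw [Real.rpow_neg hNR.le, Real.rpow_natCast]
        ring
    _ = (N : ℝ) ^ (-(1 / 4) + 7 * δ / 8) * ∏ i, (M i : ℝ) := by
        congr 1
        rw [hb, ← Real.rpow_add hNR, ← Real.rpow_add hNR, ← Real.rpow_add hNR]
        congr 1
        ring
    _ ≤ (N : ℝ) ^ (-(1 / 4) + ε) * ∏ i, (M i : ℝ) := by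
        apply mul_le_mul_of_nonneg_right _ hM0
        apply Real.rpow_le_rpow_of_exponent_le hNR1
        linarith

end Pool.Agent.TH194.BL
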