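import Mathlib

/-!
Project BL, unit equations: the local count.

A nonzero linear combination of `n` distinct characters of a finite group with values in a field
vanishes on at most a proportion `1 - 2 ^ (1 - n)` of the group.
-/

set_option autoImplicit false

namespace Pool.Agent.TH194.BL.W

open Finset

open Classical in
theorem supp_lower {G F : Type} [CommGroup G] [Fintype G] [Field F] :
    ∀ (n : ℕ) (X : Finset (G →* F)) (c : (G →* F) → F), X.card = n → X.Nonempty →
      (∀ χ ∈ X, c χ ≠ 0) →
      Fintype.card G ≤ 2 ^ (n - 1) * ((univ : Finset G).filter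
        (fun a => ∑ χ ∈ X, c χ * χ a ≠ 0)).card := by
  intro n
  induction n using Nat.strong_induction_on with
  | _ n ih =>
    intro X c hn hX hc
    have hunit : ∀ (χ : G →* F) (a : G), χ a ≠ 0 := by
      intro χ a h
      have h1 : χ a * χ a⁻¹ = 1 := by rw [← map_mul, mul_inv_cancel, map_one]
      rw [h, zero_mul] at h1
      exact zero_ne_one h1
    by_cases h1 : X.card = 1
    · obtain ⟨χ, rfl⟩ := card_eq_one.1 h1
      have : (univ : Finset G).filter (fun a => ∑ χ' ∈ {χ}, c χ' * χ' a ≠ 0) = univ := by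
        rw [filter_true_of_mem]
        intro a _
        rw [sum_singleton]
        exact mul_ne_zero (hc χ (mem_singleton_self χ)) (hunit χ a)
      rw [this, card_univ]
      exact Nat.le_mul_of_pos_left _ (by positivity)
    · have h2 : 1 < X.card := by
        have := hX.card_pos
        omega
      obtain ⟨χ₁, h1X, χ₂, h2X, hne⟩ := one_lt_card.1 h2
      obtain ⟨g, hg⟩ : ∃ g, χ₁ g ≠ χ₂ g := by
        by_contra hcon
        push Not at hcon
        exact hne (MonoidHom.ext hcon)
      set X' := X.filter (fun χ => χ g ≠ χ₁ g) with hX'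
      set c' : (G →* F) → F := fun χ => c χ * (χ g - χ₁ g) with hc'
      have hX'ne : X'.Nonempty := ⟨χ₂, by rw [hX', mem_filter]; exact ⟨h2X, hg.symm⟩⟩
      have hX'card : X'.card < X.card := by
        apply card_lt_card
        rw [ssubset_iff_of_subset (filter_subset _ _)]
        exact ⟨χ₁, h1X, by rw [mem_filter]; simp⟩
      have hih := ih X'.card (by omega) X' c' rfl hX'ne (by
        intro χ hχ
        rw [hX', mem_filter] at hχ
        exact mul_ne_zero (hc χ hχ.1) (sub_ne_zero.2 hχ.2))
      set Fn : G → F := fun a => ∑ χ ∈ X, c χ * χ a with hFn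
      set S := (univ : Finset G).filter (fun a => Fn a ≠ 0) with hS
      set S' := (univ : Finset G).filter (fun a => ∑ χ ∈ X', c' χ * χ a ≠ 0) with hS'
      have hrel : ∀ a, ∑ χ ∈ X', c' χ * χ a = Fn (g * a) - χ₁ g * Fn a := by
        intro a
        rw [hFn]
        simp only
        rw [mul_sum, ← sum_sub_distrib, hX', sum_filter]
        apply sum_congr rfl
        intro χ _
        rw [map_mul]
        split_ifs with h
        · rw [hc']
          ring
        · push Not at h
          rw [h]
          ring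
      have hsub : S' ⊆ S ∪ S.image (fun a => g⁻¹ * a) := by
        intro a ha
        rw [hS', mem_filter] at ha
        rw [mem_union]
        by_cases h : Fn a = 0
        · right
          rw [mem_image]
          refine ⟨g * a, ?_, by rw [inv_mul_cancel_left]⟩
          rw [hS, mem_filter]
          refine ⟨mem_univ _, fun h' => ha.2 ?_⟩
          rw [hrel, h, h', mul_zero, sub_zero]
        · left
          rw [hS, mem_filter]
          exact ⟨mem_univ _, h⟩
      have hc2 : S'.card ≤ 2 * S.card := by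
        calc S'.card ≤ (S ∪ S.image (fun a => g⁻¹ * a)).card := card_le_card hsub
          _ ≤ S.card + (S.image (fun a => g⁻¹ * a)).card := card_union_le _ _
          _ ≤ S.card + S.card := Nat.add_le_add_left card_image_le _
          _ = 2 * S.card := by ring
      have hpos := hX'ne.card_pos
      calc Fintype.card G ≤ 2 ^ (X'.card - 1) * S'.card := hih
        _ ≤ 2 ^ (X'.card - 1) * (2 * S.card) := Nat.mul_le_mul_left _ hc2
        _ = 2 ^ (X'.card - 1 + 1) * S.card := by rw [pow_succ]; ring
        _ ≤ 2 ^ (n - 1) * S.card := by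
            apply Nat.mul_le_mul_right
            apply Nat.pow_le_pow_right (by norm_num)
            omega

open Classical in
/-- the same for a family of characters, possibly with repetitions -/
theorem supp_lower_family {G F : Type} [CommGroup G] [Fintype G] [Field F] {M : ℕ}
    (χ : Fin M → (G →* F)) (c : Fin M → F) (hc : ∑ i, c i ≠ 0) :
    Fintype.card G ≤ 2 ^ M * ((univ : Finset G).filter
      (fun a => ∑ i, c i * χ i a ≠ 0)).card := by
  set X₀ := (univ : Finset (Fin M)).image χ with hX₀
  set C : (G →* F) → F := fun ψ => ∑ i ∈ (univ : Finset (Fin M)).filter (fun i => χ i = ψ), c i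
    with hC
  set X := X₀.filter (fun ψ => C ψ ≠ 0) with hX
  have hsum : ∀ a, ∑ i, c i * χ i a = ∑ ψ ∈ X, C ψ * ψ a := by
    intro a
    have h1 : ∑ ψ ∈ X, C ψ * ψ a = ∑ ψ ∈ X₀, C ψ * ψ a := by
      rw [hX, sum_filter]
      apply sum_congr rfl
      intro ψ _
      split_ifs with h
      · rfl
      · push Not at h
        rw [h, zero_mul]
    rw [h1]
    have h2 : ∀ ψ ∈ X₀, C ψ * ψ a =
        ∑ i ∈ (univ : Finset (Fin M)).filter (fun i => χ i = ψ), c i * χ i a := by
      intro ψ _
      rw [hC]
      simp only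
      rw [sum_mul]
      apply sum_congr rfl
      intro i hi
      rw [(mem_filter.1 hi).2]
    rw [sum_congr rfl h2]
    rw [sum_fiberwise_of_maps_to (fun i _ => mem_image_of_mem χ (mem_univ i))]
  have hXne : X.Nonempty := by
    by_contra hcon
    rw [not_nonempty_iff_eq_empty] at hcon
    apply hc
    have := hsum 1
    rw [hcon, sum_empty] at this
    simpa using this
  have hXc : X.card ≤ M := by
    calc X.card ≤ X₀.card := card_filter_le _ _
      _ ≤ (univ : Finset (Fin M)).card := card_image_le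
      _ = M := by rw [card_univ, Fintype.card_fin]
  have h := supp_lower X.card X C rfl hXne (fun ψ hψ => (mem_filter.1 hψ).2)
  have heq : (univ : Finset G).filter (fun a => ∑ ψ ∈ X, C ψ * ψ a ≠ 0) =
      (univ : Finset G).filter (fun a => ∑ i, c i * χ i a ≠ 0) := by
    apply filter_congr
    intro a _
    rw [hsum a]
  rw [heq] at h
  refine h.trans ?_
  apply Nat.mul_le_mul_right
  apply Nat.pow_le_pow_right (by norm_num)
  omega

/-- the monomial character -/
def mono {k t : ℕ} (x : Fin k → ℕ) : (Fin k → (ZMod t)ˣ) →* ZMod t where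
  toFun A := ∏ l, ((A l : (ZMod t)ˣ) : ZMod t) ^ x l
  map_one' := by simp
  map_mul' A B := by
    rw [← prod_mul_distrib]
    apply prod_congr rfl
    intro l _
    rw [Pi.mul_apply, Units.val_mul, mul_pow]

open Classical in
theorem locW (k M t : ℕ) [Fact t.Prime] (ht : k * 2 ^ (M + 1) ≤ t) (x : Fin M → Fin k → ℕ)
    (c : Fin M → ZMod t) (hc : ∑ i, c i ≠ 0) :
    (((univ : Finset (Fin k → ZMod t)).filter (fun A => (∃ l, A l = 0) ∨
      ∑ i, c i * ∏ l, A l ^ x i l = 0)).card : ℝ) ≤ (1 - (1 / 2) ^ (M + 1)) * (t : ℝ) ^ k := by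
  have htp : t.Prime := Fact.out
  have h1 := supp_lower_family (G := Fin k → (ZMod t)ˣ) (fun i => mono (x i)) c hc
  have hG : Fintype.card (Fin k → (ZMod t)ˣ) = (t - 1) ^ k := by
    rw [Fintype.card_fun, Fintype.card_fin, ZMod.card_units_eq_totient, Nat.totient_prime htp]
  rw [hG] at h1
  set S := (univ : Finset (Fin k → (ZMod t)ˣ)).filter
    (fun a => ∑ i, c i * (mono (x i) : (Fin k → (ZMod t)ˣ) →* ZMod t) a ≠ 0) with hS
  have h1' : (t - 1) ^ k ≤ 2 ^ M * S.card := by
    rw [hS]
    convert h1
  set B := (univ : Finset (Fin k → ZMod t)).filter (fun A => (∃ l, A l = 0) ∨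
      ∑ i, c i * ∏ l, A l ^ x i l = 0) with hB
  -- the complement
  have hcomp : S.card ≤ (Bᶜ).card := by
    have hinj : Function.Injective (fun (A : Fin k → (ZMod t)ˣ) (l : Fin k) => ((A l : (ZMod t)ˣ) :
        ZMod t)) := by
      intro A A' h
      funext l
      exact Units.ext (congrFun h l)
    rw [← card_image_of_injective S hinj]
    apply card_le_card
    intro A hA
    rw [mem_image] at hA
    obtain ⟨A', hA', rfl⟩ := hA
    rw [mem_compl, hB, mem_filter]
    rintro ⟨_, h⟩
    rcases h with ⟨l, hl⟩ | h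
    · exact (A' l).ne_zero hl
    · rw [hS, mem_filter] at hA'
      exact hA'.2 h
  have htot : B.card + (Bᶜ).card = t ^ k := by
    rw [card_add_card_compl, Fintype.card_fun, ZMod.card, Fintype.card_fin]
  have htR : (0 : ℝ) < t := by exact_mod_cast htp.pos
  have ht1 : (1 : ℝ) ≤ t := by exact_mod_cast htp.one_le
  -- Bernoulli
  have hber : (t : ℝ) ^ k * (1 - k / t) ≤ ((t - 1 : ℕ) : ℝ) ^ k := by
    have h2 : ((t - 1 : ℕ) : ℝ) = t * (1 + (-(1 / t))) := by
      rw [Nat.cast_sub htp.one_le]
      field_simp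
      push_cast
      ring
    rw [h2, mul_pow]
    apply mul_le_mul_of_nonneg_left _ (by positivity)
    have h3 : (-2 : ℝ) ≤ -(1 / t) := by
      have : 1 / (t : ℝ) ≤ 1 := by
        rw [div_le_one htR]; exact ht1
      linarith
    have h4 := one_add_mul_le_pow h3 k
    calc 1 - (k : ℝ) / t = 1 + k * (-(1 / t)) := by ring
      _ ≤ _ := h4
  have h5 : ((t - 1 : ℕ) : ℝ) ^ k ≤ 2 ^ M * ((Bᶜ).card : ℝ) := by
    have : (t - 1) ^ k ≤ 2 ^ M * (Bᶜ).card := h1'.trans (Nat.mul_le_mul_left _ hcomp)
    exact_mod_cast this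
  have h6 : (k : ℝ) / t ≤ 1 / 2 := by
    rw [div_le_div_iff₀ htR (by norm_num)]
    have h7 : (k : ℝ) * 2 ^ (M + 1) ≤ t := by exact_mod_cast ht
    have h8 : (2 : ℝ) ≤ 2 ^ (M + 1) := by
      calc (2 : ℝ) = 2 ^ 1 := by norm_num
        _ ≤ 2 ^ (M + 1) := pow_le_pow_right₀ (by norm_num) (by omega)
    nlinarith [show (0 : ℝ) ≤ k from Nat.cast_nonneg k]
  have h9 : (t : ℝ) ^ k * (1 / 2) ≤ 2 ^ M * ((Bᶜ).card : ℝ) := by
    refine le_trans ?_ (hber.trans h5)
    apply mul_le_mul_of_nonneg_left _ (by positivity)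
    linarith
  have h10 : (1 / 2 : ℝ) ^ (M + 1) * (t : ℝ) ^ k ≤ ((Bᶜ).card : ℝ) := by
    have e1 : (1 / 2 : ℝ) ^ (M + 1) * (t : ℝ) ^ k = (1 / 2) ^ M * ((t : ℝ) ^ k * (1 / 2)) := by
      rw [pow_succ]; ring
    have e2 : (1 / 2 : ℝ) ^ M * (2 ^ M * ((Bᶜ).card : ℝ)) = ((Bᶜ).card : ℝ) := by
      rw [← mul_assoc, ← mul_pow]
      norm_num
    rw [e1, ← e2]
    gcongr
  have h11 : (B.card : ℝ) + ((Bᶜ).card : ℝ) = (t : ℝ) ^ k := by exact_mod_cast htot
  linarith

end Pool.Agent.TH194.BL.W
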