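import Mathlib
import Pool.Agent.TH194.BL.Stmts

/-!
# Project BL: the lower bound for one modulus, for local sets of density at most `1 - η`
(generalisation of `Low.lean` by helper367)
-/

set_option autoImplicit false

namespace Pool.Agent.TH194.BL.G

open Finset
open Pool.Agent.Helper112 (ee ls_ee_zero ls_ee_add ls_ee_int ls_ee_nat ls_conj_ee ls_norm_ee
  ls_ee_nat_mul ls_ee_eq_one)

theorem low_ee_sum {ι : Type} (s : Finset ι) (f : ι → ℝ) : ee (∑ i ∈ s, f i) = ∏ i ∈ s, ee (f i) := by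
  classical
  induction s using Finset.induction_on with
  | empty => simp [ls_ee_zero]
  | insert a s ha ih => rw [Finset.sum_insert ha, Finset.prod_insert ha, ls_ee_add, ih]

theorem low_geo (t : ℕ) (ht : 0 < t) (n : ℤ) :
    ∑ a ∈ range t, ee ((n : ℝ) * (a : ℝ) / (t : ℝ)) = if (t : ℤ) ∣ n then (t : ℂ) else 0 := by
  have ht0 : (t : ℝ) ≠ 0 := by positivity
  have h1 : ∀ a : ℕ, ee ((n : ℝ) * (a : ℝ) / (t : ℝ)) = ee ((n : ℝ) / t) ^ a := by
    intro a
    rw [← ls_ee_nat_mul]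
    congr 1
    ring
  rw [Finset.sum_congr rfl fun a _ => h1 a]
  split_ifs with h
  · obtain ⟨q, hq⟩ := h
    have h2 : ee ((n : ℝ) / t) = 1 := by
      rw [hq]
      push_cast
      rw [mul_div_cancel_left₀ _ ht0]
      exact ls_ee_int q
    rw [h2]
    simp
  · have h2 : ee ((n : ℝ) / t) ≠ 1 := by
      intro h3
      obtain ⟨q, hq⟩ := ls_ee_eq_one h3
      apply h
      refine ⟨q, ?_⟩
      rw [div_eq_iff ht0] at hq
      have : (n : ℝ) = ((t * q : ℤ) : ℝ) := by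
        rw [hq]
        push_cast
        ring
      exact_mod_cast this
    rw [geom_sum_eq h2, ← ls_ee_nat_mul, mul_div_cancel₀ _ ht0, ls_ee_int, sub_self, zero_div]

theorem low_orth (k t : ℕ) (ht : 0 < t) (δ : Fin k → ℤ) :
    ∑ a ∈ Fintype.piFinset (fun _ : Fin k => range t), ee (∑ i, (δ i : ℝ) * (a i : ℝ) / (t : ℝ)) =
      if ∀ i, (t : ℤ) ∣ δ i then (t : ℂ) ^ k else 0 := by
  rw [Finset.sum_congr rfl fun a _ => low_ee_sum univ _]
  rw [← Finset.prod_univ_sum (fun _ : Fin k => range t)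
    (fun i j => ee ((δ i : ℝ) * (j : ℝ) / (t : ℝ)))]
  rw [Finset.prod_congr rfl fun i _ => low_geo t ht (δ i)]
  split_ifs with h
  · rw [Finset.prod_congr rfl fun i _ => if_pos (h i), Finset.prod_const, Finset.card_univ,
      Fintype.card_fin]
  · push Not at h
    obtain ⟨i, hi⟩ := h
    exact Finset.prod_eq_zero (Finset.mem_univ i) (if_neg hi)

/-- Cauchy-Schwarz for complex sums -/
theorem low_cs {ι : Type} (s : Finset ι) (f g : ι → ℂ) :
    ‖∑ i ∈ s, f i * g i‖ ^ 2 ≤ (∑ i ∈ s, ‖f i‖ ^ 2) * ∑ i ∈ s, ‖g i‖ ^ 2 := by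
  have h1 : ‖∑ i ∈ s, f i * g i‖ ≤ ∑ i ∈ s, ‖f i‖ * ‖g i‖ := by
    refine (norm_sum_le _ _).trans (le_of_eq (Finset.sum_congr rfl fun i _ => norm_mul _ _))
  calc ‖∑ i ∈ s, f i * g i‖ ^ 2 ≤ (∑ i ∈ s, ‖f i‖ * ‖g i‖) ^ 2 := by
        exact pow_le_pow_left₀ (norm_nonneg _) h1 2
    _ ≤ _ := Finset.sum_mul_sq_le_sq_mul_sq _ _ _

/-- the sum over all residues -/
theorem low_all (η : ℝ) (k t : ℕ) [Fact t.Prime] (Z : Finset (Fin k → ℕ))
    (Om : Finset (Fin k → ZMod t)) (hOm : (Om.card : ℝ) ≤ (1 - η) * (t : ℝ) ^ k)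
    (hZ : ∀ z ∈ Z, (fun i => ((z i : ℕ) : ZMod t)) ∈ Om) (c : (Fin k → ℕ) → ℂ) :
    ‖∑ z ∈ Z, c z‖ ^ 2 ≤ (1 - η) * ∑ a ∈ Fintype.piFinset (fun _ : Fin k => range t),
      ‖∑ z ∈ Z, c z * ee (∑ i, (z i : ℝ) * (a i : ℝ) / (t : ℝ))‖ ^ 2 := by
  classical
  have htp : t.Prime := Fact.out
  have ht : 0 < t := htp.pos
  set A := Fintype.piFinset (fun _ : Fin k => range t) with hA
  set Tf : (Fin k → ℕ) → ℂ := fun a => ∑ z ∈ Z, c z * ee (∑ i, (z i : ℝ) * (a i : ℝ) / (t : ℝ))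
    with hTf
  set g : (Fin k → ℕ) → ℂ := fun a =>
    ∑ w ∈ Om, ee (∑ i, (-((w i).val : ℤ) : ℤ) * (a i : ℝ) / (t : ℝ)) with hg
  -- first identity
  have h1 : ∑ a ∈ A, Tf a * g a = (t : ℂ) ^ k * ∑ z ∈ Z, c z := by
    have e1 : ∀ a, Tf a * g a = ∑ z ∈ Z, c z * ∑ w ∈ Om,
        ee (∑ i, (((z i : ℤ) - ((w i).val : ℤ) : ℤ) : ℝ) * (a i : ℝ) / (t : ℝ)) := by
      intro a
      rw [hTf, hg]
      simp only
      rw [Finset.sum_mul]
      refine Finset.sum_congr rfl fun z _ => ?_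
      rw [mul_assoc, Finset.mul_sum]
      congr 1
      refine Finset.sum_congr rfl fun w _ => ?_
      rw [← ls_ee_add, ← Finset.sum_add_distrib]
      congr 1
      refine Finset.sum_congr rfl fun i _ => ?_
      push_cast
      ring
    rw [Finset.sum_congr rfl fun a _ => e1 a, Finset.sum_comm, Finset.mul_sum]
    refine Finset.sum_congr rfl fun z hz => ?_
    rw [← Finset.mul_sum, Finset.sum_comm, mul_comm]
    congr 1
    rw [Finset.sum_congr rfl fun w _ => low_orth k t ht _]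
    rw [Finset.sum_eq_single (fun i => ((z i : ℕ) : ZMod t))]
    · rw [if_pos]
      intro i
      have : (((z i : ℤ) - (((z i : ℕ) : ZMod t).val : ℤ) : ℤ) : ZMod t) = 0 := by
        push_cast
        rw [ZMod.natCast_val, ZMod.cast_id', id, sub_self]
      exact (ZMod.intCast_zmod_eq_zero_iff_dvd _ _).1 this
    · intro w _ hne
      rw [if_neg]
      intro h
      apply hne
      funext i
      have h2 := (ZMod.intCast_zmod_eq_zero_iff_dvd _ t).2 (h i)
      push_cast at h2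
      rw [ZMod.natCast_val, ZMod.cast_id', id, sub_eq_zero] at h2
      exact h2.symm
    · intro h
      exact absurd (hZ z hz) h
  -- second identity
  have h2 : ∑ a ∈ A, ‖g a‖ ^ 2 = (t : ℝ) ^ k * Om.card := by
    have e0 : ((∑ a ∈ A, ‖g a‖ ^ 2 : ℝ) : ℂ) = ((t : ℝ) ^ k * Om.card : ℝ) := by
      push_cast
      have e1 : ∀ a, ((‖g a‖ : ℂ)) ^ 2 = ∑ w ∈ Om, ∑ w' ∈ Om,
          ee (∑ i, (((w' i).val : ℤ) - ((w i).val : ℤ) : ℤ) * (a i : ℝ) / (t : ℝ)) := by
        intro a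
        rw [← Complex.mul_conj', hg]
        simp only
        rw [map_sum, Finset.sum_mul_sum]
        refine Finset.sum_congr rfl fun w _ => Finset.sum_congr rfl fun w' _ => ?_
        rw [ls_conj_ee, ← ls_ee_add, ← Finset.sum_neg_distrib, ← Finset.sum_add_distrib]
        congr 1
        refine Finset.sum_congr rfl fun i _ => ?_
        push_cast
        ring
      rw [Finset.sum_congr rfl fun a _ => e1 a, Finset.sum_comm]
      have e2 : ∀ w ∈ Om, ∑ a ∈ A, ∑ w' ∈ Om,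
          ee (∑ i, (((w' i).val : ℤ) - ((w i).val : ℤ) : ℤ) * (a i : ℝ) / (t : ℝ)) =
          (t : ℂ) ^ k := by
        intro w hw
        rw [Finset.sum_comm, Finset.sum_congr rfl fun w' _ => low_orth k t ht _,
          Finset.sum_eq_single w]
        · rw [if_pos]
          intro i
          rw [sub_self]
          exact dvd_zero _
        · intro w' _ hne
          rw [if_neg]
          intro h
          apply hne
          funext i
          have h2 := (ZMod.intCast_zmod_eq_zero_iff_dvd _ t).2 (h i)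
          push_cast at h2
          rw [ZMod.natCast_val, ZMod.cast_id', id, ZMod.natCast_val, ZMod.cast_id', id,
            sub_eq_zero] at h2
          exact h2
        · intro h
          exact absurd hw h
      rw [Finset.sum_congr rfl e2, Finset.sum_const, nsmul_eq_mul, mul_comm]
    exact_mod_cast e0
  have h3 := low_cs A Tf g
  rw [h1, h2, norm_mul, norm_pow, Complex.norm_natCast, mul_pow] at h3
  have htk : (0 : ℝ) < (t : ℝ) ^ k := by positivity
  have hS : 0 ≤ ∑ a ∈ A, ‖Tf a‖ ^ 2 := Finset.sum_nonneg fun a _ => by positivity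
  have h4 : ((t : ℝ) ^ k) ^ 2 * ‖∑ z ∈ Z, c z‖ ^ 2 ≤
      ((t : ℝ) ^ k) ^ 2 * ((1 - η) * ∑ a ∈ A, ‖Tf a‖ ^ 2) := by
    refine h3.trans ?_
    have : (t : ℝ) ^ k * (Om.card : ℝ) ≤ (t : ℝ) ^ k * ((1 - η) * (t : ℝ) ^ k) :=
      mul_le_mul_of_nonneg_left hOm htk.le
    calc (∑ a ∈ A, ‖Tf a‖ ^ 2) * ((t : ℝ) ^ k * (Om.card : ℝ)) ≤
        (∑ a ∈ A, ‖Tf a‖ ^ 2) * ((t : ℝ) ^ k * ((1 - η) * (t : ℝ) ^ k)) :=
          mul_le_mul_of_nonneg_left this hS
      _ = _ := by ring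
  exact le_of_mul_le_mul_left h4 (by positivity)

open Classical in
/-- one prime -/
theorem low_prime {η : ℝ} (hη0 : 0 < η) (k t : ℕ) [Fact t.Prime]
    (Z : Finset (Fin k → ℕ)) (Om : Finset (Fin k → ZMod t))
    (hOm : (Om.card : ℝ) ≤ (1 - η) * (t : ℝ) ^ k)
    (hZ : ∀ z ∈ Z, (fun i => ((z i : ℕ) : ZMod t)) ∈ Om) (c : (Fin k → ℕ) → ℂ) :
    η * ‖∑ z ∈ Z, c z‖ ^ 2 ≤
      ∑ a ∈ (Fintype.piFinset (fun _ : Fin k => range t)).filter (fun a => ∃ i, ¬ t ∣ a i),
      ‖∑ z ∈ Z, c z * ee (∑ i, (z i : ℝ) * (a i : ℝ) / (t : ℝ))‖ ^ 2 := by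
  have htp : t.Prime := Fact.out
  have h1 := low_all η k t Z Om hOm hZ c
  rw [← Finset.sum_filter_add_sum_filter_not (Fintype.piFinset (fun _ : Fin k => range t))
    (fun a => ∃ i, ¬ t ∣ a i)] at h1
  have h2 : (Fintype.piFinset (fun _ : Fin k => range t)).filter (fun a => ¬ ∃ i, ¬ t ∣ a i) =
      {fun _ => 0} := by
    ext a
    rw [Finset.mem_filter, Fintype.mem_piFinset, Finset.mem_singleton]
    constructor
    · rintro ⟨h3, h4⟩
      push Not at h4
      funext i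
      exact Nat.eq_zero_of_dvd_of_lt (h4 i) (Finset.mem_range.1 (h3 i))
    · rintro rfl
      refine ⟨fun i => Finset.mem_range.2 htp.pos, ?_⟩
      push Not
      intro i
      exact dvd_zero _
  rw [h2, Finset.sum_singleton] at h1
  have h3 : ∑ z ∈ Z, c z * ee (∑ i, (z i : ℝ) * ((0 : ℕ) : ℝ) / (t : ℝ)) = ∑ z ∈ Z, c z := by
    refine Finset.sum_congr rfl fun z _ => ?_
    have : ∑ i, (z i : ℝ) * ((0 : ℕ) : ℝ) / (t : ℝ) = 0 := by simp
    rw [this, ls_ee_zero, mul_one]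
  rw [h3] at h1
  have hpos : 0 ≤ ∑ a ∈ (Fintype.piFinset (fun _ : Fin k => range t)).filter
      (fun a => ∃ i, ¬ t ∣ a i),
      ‖∑ z ∈ Z, c z * ee (∑ i, (z i : ℝ) * (a i : ℝ) / (t : ℝ))‖ ^ 2 :=
    Finset.sum_nonneg fun a _ => by positivity
  nlinarith

open Classical in
theorem low {η : ℝ} (hη0 : 0 < η) : ∀ (k : ℕ) (D : Finset ℕ) (Z : Finset (Fin k → ℕ))
  (Om : (t : ℕ) → Finset (Fin k → ZMod t)), (∀ t ∈ D, t.Prime) →
  (∀ t ∈ D, ((Om t).card : ℝ) ≤ (1 - η) * (t : ℝ) ^ k) →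
  (∀ z ∈ Z, ∀ t ∈ D, (fun i => ((z i : ℕ) : ZMod t)) ∈ Om t) → ∀ c : (Fin k → ℕ) → ℂ,
  η ^ D.card * ‖∑ z ∈ Z, c z‖ ^ 2 ≤
    ∑ b ∈ (Fintype.piFinset (fun _ : Fin k => range (∏ t ∈ D, t))).filter
      (fun b => ∀ t ∈ D, ∃ i, ¬ t ∣ b i),
      ‖∑ z ∈ Z, c z * ee (∑ i, (z i : ℝ) * (b i : ℝ) / ((∏ t ∈ D, t : ℕ) : ℝ))‖ ^ 2 := by
  intro k D
  induction D using Finset.induction_on with
  | empty =>
    intro Z Om _ _ _ c
    rw [Finset.card_empty, pow_zero, one_mul, Finset.prod_empty]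
    have h1 : (fun _ : Fin k => (0 : ℕ)) ∈ (Fintype.piFinset (fun _ : Fin k => range 1)).filter
      (fun b => ∀ t ∈ (∅ : Finset ℕ), ∃ i, ¬ t ∣ b i) := by
      rw [Finset.mem_filter, Fintype.mem_piFinset]
      exact ⟨fun i => by simp, fun t ht => absurd ht (Finset.notMem_empty t)⟩
    refine le_trans (le_of_eq ?_) (Finset.single_le_sum
      (f := fun b : Fin k → ℕ => ‖∑ z ∈ Z, c z * ee (∑ i, (z i : ℝ) * (b i : ℝ) / ((1 : ℕ) : ℝ))‖ ^ 2)
      (fun b _ => by positivity) h1)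
    congr 2
    refine Finset.sum_congr rfl fun z _ => ?_
    have : ∑ i, (z i : ℝ) * ((0 : ℕ) : ℝ) / ((1 : ℕ) : ℝ) = 0 := by simp
    rw [this, ls_ee_zero, mul_one]
  | insert t D htD ih =>
    intro Z Om hp hOm hZ c
    have htp : t.Prime := hp t (Finset.mem_insert_self t D)
    have hfact : Fact t.Prime := ⟨htp⟩
    have hpD : ∀ l ∈ D, l.Prime := fun l hl => hp l (Finset.mem_insert_of_mem hl)
    have hih := ih Z Om hpD (fun l hl => hOm l (Finset.mem_insert_of_mem hl))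
      (fun z hz l hl => hZ z hz l (Finset.mem_insert_of_mem hl)) c
    rw [Finset.prod_insert htD, Finset.card_insert_of_notMem htD]
    set m := ∏ l ∈ D, l with hm
    have hm0 : 0 < m := Finset.prod_pos fun l hl => (hpD l hl).pos
    have ht0 : 0 < t := htp.pos
    have hmt : Nat.Coprime m t := by
      rw [hm]
      refine Nat.Coprime.prod_left fun l hl => ?_
      rw [Nat.coprime_primes (hpD l hl) htp]
      rintro rfl
      exact htD hl
    set Bs := (Fintype.piFinset (fun _ : Fin k => range m)).filter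
      (fun b => ∀ l ∈ D, ∃ i, ¬ l ∣ b i) with hBs
    set As := (Fintype.piFinset (fun _ : Fin k => range t)).filter
      (fun a => ∃ i, ¬ t ∣ a i) with hAs
    set φ : (Fin k → ℕ) × (Fin k → ℕ) → (Fin k → ℕ) :=
      fun p i => (p.1 i * t + p.2 i * m) % (t * m) with hφ
    -- the terms
    have hterm : ∀ (z : Fin k → ℕ) (p : (Fin k → ℕ) × (Fin k → ℕ)),
        ee (∑ i, (z i : ℝ) * (φ p i : ℝ) / ((t * m : ℕ) : ℝ)) =
        ee (∑ i, (z i : ℝ) * (p.1 i : ℝ) / (m : ℝ)) * ee (∑ i, (z i : ℝ) * (p.2 i : ℝ) / (t : ℝ)) := by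
      intro z p
      rw [← ls_ee_add]
      have e1 : ∑ i, (z i : ℝ) * (p.1 i : ℝ) / (m : ℝ) + ∑ i, (z i : ℝ) * (p.2 i : ℝ) / (t : ℝ) =
          ∑ i, (z i : ℝ) * (φ p i : ℝ) / ((t * m : ℕ) : ℝ) +
          ((∑ i, z i * ((p.1 i * t + p.2 i * m) / (t * m)) : ℕ) : ℝ) := by
        rw [Nat.cast_sum, ← Finset.sum_add_distrib, ← Finset.sum_add_distrib]
        refine Finset.sum_congr rfl fun i _ => ?_
        have e2 : ((p.1 i * t + p.2 i * m : ℕ) : ℝ) =
            ((t * m : ℕ) : ℝ) * (((p.1 i * t + p.2 i * m) / (t * m) : ℕ) : ℝ) + (φ p i : ℝ) := by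
          rw [hφ]
          simp only
          exact_mod_cast (Nat.div_add_mod (p.1 i * t + p.2 i * m) (t * m)).symm
        have hmr : (m : ℝ) ≠ 0 := by positivity
        have htr : (t : ℝ) ≠ 0 := by positivity
        have e3 : (φ p i : ℝ) = (p.1 i : ℝ) * t + (p.2 i : ℝ) * m -
            (t : ℝ) * m * (((p.1 i * t + p.2 i * m) / (t * m) : ℕ) : ℝ) := by
          push_cast at e2
          linarith
        rw [e3]
        push_cast
        field_simp
        ring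
      rw [e1, ls_ee_add, ls_ee_nat, mul_one]
    -- injectivity
    have hinj : Set.InjOn φ (↑(Bs ×ˢ As) : Set ((Fin k → ℕ) × (Fin k → ℕ))) := by
      rintro ⟨b, a⟩ hp1 ⟨b', a'⟩ hp2 heq
      rw [Finset.mem_coe, Finset.mem_product, hBs, hAs, Finset.mem_filter, Finset.mem_filter,
        Fintype.mem_piFinset, Fintype.mem_piFinset] at hp1 hp2
      have h3 : ∀ i, b i * t + a i * m ≡ b' i * t + a' i * m [MOD t * m] := fun i =>
        congrFun heq i
      have h4 : b = b' := by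
        funext i
        have h5 : b i * t + a i * m ≡ b' i * t + a' i * m [MOD m] :=
          (h3 i).of_dvd (Dvd.intro_left t rfl)
        have h6 : b i * t ≡ b' i * t [MOD m] := by
          have x1 : b i * t + a i * m ≡ b i * t + 0 [MOD m] :=
            Nat.ModEq.add_left _ ((Nat.modEq_zero_iff_dvd).2 (Dvd.intro_left _ rfl))
          have x2 : b' i * t + a' i * m ≡ b' i * t + 0 [MOD m] :=
            Nat.ModEq.add_left _ ((Nat.modEq_zero_iff_dvd).2 (Dvd.intro_left _ rfl))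
          rw [add_zero] at x1 x2
          exact (x1.symm.trans h5).trans x2
        have h7 : b i ≡ b' i [MOD m] := Nat.ModEq.cancel_right_of_coprime hmt h6
        exact h7.eq_of_lt_of_lt (Finset.mem_range.1 (hp1.1.1 i)) (Finset.mem_range.1 (hp2.1.1 i))
      have h4' : a = a' := by
        funext i
        have h5 : b i * t + a i * m ≡ b' i * t + a' i * m [MOD t] :=
          (h3 i).of_dvd (Dvd.intro m rfl)
        have h6 : a i * m ≡ a' i * m [MOD t] := by
          have x1 : b i * t + a i * m ≡ 0 + a i * m [MOD t] :=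
            Nat.ModEq.add_right _ ((Nat.modEq_zero_iff_dvd).2 (Dvd.intro_left _ rfl))
          have x2 : b' i * t + a' i * m ≡ 0 + a' i * m [MOD t] :=
            Nat.ModEq.add_right _ ((Nat.modEq_zero_iff_dvd).2 (Dvd.intro_left _ rfl))
          rw [zero_add] at x1 x2
          exact (x1.symm.trans h5).trans x2
        have h7 : a i ≡ a' i [MOD t] := Nat.ModEq.cancel_right_of_coprime hmt.symm h6
        exact h7.eq_of_lt_of_lt (Finset.mem_range.1 (hp1.2.1 i)) (Finset.mem_range.1 (hp2.2.1 i))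
      rw [h4, h4']
    -- the image
    have himg : (Bs ×ˢ As).image φ ⊆ (Fintype.piFinset (fun _ : Fin k => range (t * m))).filter
        (fun b => ∀ l ∈ insert t D, ∃ i, ¬ l ∣ b i) := by
      intro x hx
      rw [Finset.mem_image] at hx
      obtain ⟨⟨b, a⟩, hp1, rfl⟩ := hx
      rw [Finset.mem_product, hBs, hAs, Finset.mem_filter, Finset.mem_filter,
        Fintype.mem_piFinset, Fintype.mem_piFinset] at hp1
      obtain ⟨⟨hb1, hb2⟩, ha1, ha2⟩ := hp1
      rw [Finset.mem_filter, Fintype.mem_piFinset]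
      refine ⟨fun i => Finset.mem_range.2 (Nat.mod_lt _ (by positivity)), ?_⟩
      intro l hl
      rw [Finset.mem_insert] at hl
      rcases hl with rfl | hl
      · obtain ⟨i, hi⟩ := ha2
        refine ⟨i, fun h => hi ?_⟩
        rw [hφ] at h
        simp only at h
        rw [Nat.dvd_mod_iff (Dvd.intro m rfl)] at h
        rw [Nat.dvd_add_right (Dvd.intro_left _ rfl)] at h
        exact (Nat.Coprime.dvd_of_dvd_mul_right hmt.symm h)
      · obtain ⟨i, hi⟩ := hb2 l hl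
        refine ⟨i, fun h => hi ?_⟩
        have hlm : l ∣ m := Finset.dvd_prod_of_mem _ hl
        rw [hφ] at h
        simp only at h
        rw [Nat.dvd_mod_iff (hlm.trans (Dvd.intro_left t rfl))] at h
        rw [Nat.dvd_add_left (hlm.trans (Dvd.intro_left _ rfl))] at h
        have : Nat.Coprime l t := Nat.Coprime.coprime_dvd_left hlm hmt
        exact Nat.Coprime.dvd_of_dvd_mul_right this h
    have hstep : ∑ b ∈ Bs, ∑ a ∈ As, ‖∑ z ∈ Z, c z *
        ee (∑ i, (z i : ℝ) * (φ (b, a) i : ℝ) / ((t * m : ℕ) : ℝ))‖ ^ 2 ≤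
        ∑ x ∈ (Fintype.piFinset (fun _ : Fin k => range (t * m))).filter
          (fun b => ∀ l ∈ insert t D, ∃ i, ¬ l ∣ b i),
          ‖∑ z ∈ Z, c z * ee (∑ i, (z i : ℝ) * (x i : ℝ) / ((t * m : ℕ) : ℝ))‖ ^ 2 := by
      rw [← Finset.sum_product' Bs As (fun b a => ‖∑ z ∈ Z, c z *
        ee (∑ i, (z i : ℝ) * (φ (b, a) i : ℝ) / ((t * m : ℕ) : ℝ))‖ ^ 2)]
      rw [← Finset.sum_image (f := fun x : Fin k → ℕ =>
        ‖∑ z ∈ Z, c z * ee (∑ i, (z i : ℝ) * (x i : ℝ) / ((t * m : ℕ) : ℝ))‖ ^ 2) hinj]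
      exact Finset.sum_le_sum_of_subset_of_nonneg himg fun x _ _ => by positivity
    refine le_trans ?_ hstep
    have hone : ∀ b ∈ Bs, η *
        ‖∑ z ∈ Z, c z * ee (∑ i, (z i : ℝ) * (b i : ℝ) / (m : ℝ))‖ ^ 2 ≤
        ∑ a ∈ As, ‖∑ z ∈ Z, c z *
        ee (∑ i, (z i : ℝ) * (φ (b, a) i : ℝ) / ((t * m : ℕ) : ℝ))‖ ^ 2 := by
      intro b _
      have h5 := low_prime hη0 k t Z (Om t) (hOm t (Finset.mem_insert_self t D))
        (fun z hz => hZ z hz t (Finset.mem_insert_self t D))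
        (fun z => c z * ee (∑ i, (z i : ℝ) * (b i : ℝ) / (m : ℝ)))
      refine h5.trans (le_of_eq (Finset.sum_congr rfl fun a _ => ?_))
      congr 2
      refine Finset.sum_congr rfl fun z _ => ?_
      rw [hterm z (b, a), mul_assoc]
    calc η ^ (D.card + 1) * ‖∑ z ∈ Z, c z‖ ^ 2 =
        η * (η ^ D.card * ‖∑ z ∈ Z, c z‖ ^ 2) := by ring
      _ ≤ η * ∑ b ∈ Bs,
          ‖∑ z ∈ Z, c z * ee (∑ i, (z i : ℝ) * (b i : ℝ) / (m : ℝ))‖ ^ 2 :=
        mul_le_mul_of_nonneg_left hih hη0.le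
      _ ≤ _ := by
        rw [Finset.mul_sum]
        exact Finset.sum_le_sum hone

end Pool.Agent.TH194.BL.G
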