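import Pool.Agent.TH194.BL.Lsk
import Pool.Agent.TH194.BL.Add
import Pool.Agent.TH194.BL.LowG

/-!
Project BL: the arithmetic large sieve in dimension `k` for local sets of density at most `1 - η`
(generalisation of `Lsk.lean` by helper761).
-/

set_option autoImplicit false

namespace Pool.Agent.TH194.BL.G

open Finset
open Pool.Agent.Helper112 (ee)
open Pool.Agent.TH194.BL Pool.Agent.TH194.BL.LSK

theorem lskG {η : ℝ} (hη0 : 0 < η) (k N Q j : ℕ) (a : Fin k → ℕ) (P : Finset ℕ)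
    (Z : Finset (Fin k → ℕ)) (Om : (t : ℕ) → Finset (Fin k → ZMod t)) (_hN : 1 ≤ N)
    (hQN : Q ^ 2 ≤ N) (hP : ∀ t ∈ P, t.Prime) (hZ : ∀ z ∈ Z, ∀ i, z i ∈ Ioc (a i) (a i + N))
    (hOm : ∀ t ∈ P, ((Om t).card : ℝ) ≤ (1 - η) * (t : ℝ) ^ k)
    (hZO : ∀ z ∈ Z, ∀ t ∈ P, (fun i => ((z i : ℕ) : ZMod t)) ∈ Om t)
    (hD : ∀ D ∈ P.powersetCard j, ∏ t ∈ D, t ≤ Q) :
    (Z.card : ℝ) * ((P.card.choose j : ℝ) * η ^ j) ≤ (12 * (N : ℝ)) ^ k := by
  classical
  have h1 := add
  -- translation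
  set c : (Fin k → ℕ) → ℂ := fun z => if (fun i => z i + a i) ∈ Z then 1 else 0 with hc
  have hsum : ∀ g : (Fin k → ℕ) → ℂ, ∑ z ∈ Fintype.piFinset (fun _ : Fin k => Icc 1 N), c z * g z =
      ∑ z ∈ Z, g (fun i => z i - a i) := by
    intro g
    have e1 : ∑ z ∈ Fintype.piFinset (fun _ : Fin k => Icc 1 N), c z * g z =
        ∑ z ∈ (Fintype.piFinset (fun _ : Fin k => Icc 1 N)).filter
          (fun z => (fun i => z i + a i) ∈ Z), g z := by
      rw [Finset.sum_filter]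
      refine Finset.sum_congr rfl fun z _ => ?_
      simp only [hc]
      split_ifs <;> simp
    rw [e1]
    symm
    refine Finset.sum_bij' (fun z _ => fun i => z i - a i) (fun z _ => fun i => z i + a i)
      ?_ ?_ ?_ ?_ ?_
    · intro z hz
      rw [Finset.mem_filter, Fintype.mem_piFinset]
      have h3 : (fun i => z i - a i + a i) = z := by
        funext i
        have := Finset.mem_Ioc.1 (hZ z hz i)
        omega
      refine ⟨fun i => ?_, by rw [h3]; exact hz⟩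
      have := Finset.mem_Ioc.1 (hZ z hz i)
      rw [Finset.mem_Icc]
      omega
    · intro z hz
      exact (Finset.mem_filter.1 hz).2
    · intro z hz
      funext i
      have := Finset.mem_Ioc.1 (hZ z hz i)
      show z i - a i + a i = z i
      omega
    · intro z hz
      funext i
      show z i + a i - a i = z i
      omega
    · intro z _
      rfl
  have hc2 : ∑ z ∈ Fintype.piFinset (fun _ : Fin k => Icc 1 N), ‖c z‖ ^ 2 = (Z.card : ℝ) := by
    have e1 := hsum (fun _ => 1)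
    have e2 : ∀ z, ((‖c z‖ ^ 2 : ℝ) : ℂ) = c z * 1 := by
      intro z
      simp only [hc]
      split_ifs <;> simp
    have e3 : ((∑ z ∈ Fintype.piFinset (fun _ : Fin k => Icc 1 N), ‖c z‖ ^ 2 : ℝ) : ℂ) =
        ((Z.card : ℝ) : ℂ) := by
      rw [Complex.ofReal_sum, Finset.sum_congr rfl (fun z _ => e2 z), e1]
      simp
    exact_mod_cast e3
  set F : (Fin k → ℕ × ℕ) → ℝ := fun r =>
    ‖∑ z ∈ Z, (1 : ℂ) * ee (∑ i, (z i : ℝ) * (r i).2 / (r i).1)‖ ^ 2 with hF
  have hFadd : ∀ r, F r = ‖∑ z ∈ Fintype.piFinset (fun _ : Fin k => Icc 1 N),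
      c z * ee (∑ i, (z i : ℝ) * (r i).2 / (r i).1)‖ ^ 2 := by
    intro r
    rw [hsum (fun z => ee (∑ i, (z i : ℝ) * (r i).2 / (r i).1))]
    have e1 : ∀ z ∈ Z, (1 : ℂ) * ee (∑ i, (z i : ℝ) * (r i).2 / (r i).1) =
        ee (∑ i, (a i : ℝ) * (r i).2 / (r i).1) *
          ee (∑ i, (((z i - a i : ℕ)) : ℝ) * (r i).2 / (r i).1) := by
      intro z hz
      rw [one_mul, ← Pool.Agent.Helper112.ls_ee_add, ← Finset.sum_add_distrib]
      congr 1
      refine Finset.sum_congr rfl fun i _ => ?_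
      have h3 := Finset.mem_Ioc.1 (hZ z hz i)
      have h4 : (z i : ℝ) = (a i : ℝ) + ((z i - a i : ℕ) : ℝ) := by
        have : z i = a i + (z i - a i) := by omega
        exact_mod_cast this
      rw [h4]
      ring
    simp only [hF]
    rw [Finset.sum_congr rfl e1, ← Finset.mul_sum, norm_mul, Pool.Agent.Helper112.ls_norm_ee, one_mul]
  have hcol := collect Q j P hP hD F (fun r => by simp only [hF]; positivity)
  have hlow : ∀ D ∈ P.powersetCard j, η ^ j * (Z.card : ℝ) ^ 2 ≤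
      ∑ b ∈ Bs k D, F (Phi ⟨D, b⟩) := by
    intro D hDm
    obtain ⟨hDP, hDc⟩ := Finset.mem_powersetCard.1 hDm
    have h3 := low hη0 k D Z Om (fun t ht => hP t (hDP ht)) (fun t ht => hOm t (hDP ht))
      (fun z hz t ht => hZO z hz t (hDP ht)) (fun _ => 1)
    rw [hDc] at h3
    have h4 : ‖∑ _z ∈ Z, (1 : ℂ)‖ = (Z.card : ℝ) := by simp
    rw [h4] at h3
    refine h3.trans (le_of_eq ?_)
    refine Finset.sum_congr rfl fun b _ => ?_
    simp only [hF]
    congr 2
    refine Finset.sum_congr rfl fun z _ => ?_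
    rw [val_eq D (fun t ht => hP t (hDP ht)) b z]
  have hsumD : ((P.card.choose j : ℕ) : ℝ) * (η ^ j * (Z.card : ℝ) ^ 2) ≤
      ∑ r ∈ Fintype.piFinset (fun _ : Fin k => Far Q), F r := by
    refine le_trans ?_ hcol
    have h5 := Finset.sum_le_sum hlow
    rw [Finset.sum_const, Finset.card_powersetCard, nsmul_eq_mul] at h5
    exact h5
  have hadd := h1 k N Q c
  rw [hc2] at hadd
  have h6 : ∑ r ∈ Fintype.piFinset (fun _ : Fin k => Far Q), F r ≤
      (6 * ((N : ℝ) + (Q : ℝ) ^ 2)) ^ k * (Z.card : ℝ) := by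
    rw [Finset.sum_congr rfl (fun r _ => hFadd r)]
    exact hadd
  have h7 : (6 * ((N : ℝ) + (Q : ℝ) ^ 2)) ^ k ≤ (12 * (N : ℝ)) ^ k := by
    apply pow_le_pow_left₀ (by positivity)
    have : ((Q : ℝ)) ^ 2 ≤ N := by exact_mod_cast hQN
    linarith
  rcases Nat.eq_zero_or_pos Z.card with h0 | h0
  · rw [h0]
    simp only [Nat.cast_zero, zero_mul]
    positivity
  · have hZ0 : (0 : ℝ) < Z.card := by exact_mod_cast h0
    have h8 : ((P.card.choose j : ℕ) : ℝ) * (η ^ j * (Z.card : ℝ) ^ 2) ≤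
        (12 * (N : ℝ)) ^ k * (Z.card : ℝ) :=
      (hsumD.trans h6).trans (mul_le_mul_of_nonneg_right h7 hZ0.le)
    have h9 : ((Z.card : ℝ) * ((P.card.choose j : ℝ) * η ^ j)) * (Z.card : ℝ) ≤
        (12 * (N : ℝ)) ^ k * (Z.card : ℝ) := by
      refine le_trans (le_of_eq ?_) h8
      ring
    exact le_of_mul_le_mul_right h9 hZ0

end Pool.Agent.TH194.BL.G
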