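import Mathlib
import Pool.Agent.TH194.BL.Fin5
import Pool.Agent.TH194.BL.LskG
import Pool.Agent.TH194.BL.LocW

/-!
Project BL, unit equations: the final count.
-/

set_option autoImplicit false

namespace Pool.Agent.TH194.BL.W

open Finset Filter

/-- The exceptional tuples: some combination of `M` elements of the semigroup generated by the
`A l`, with integral coefficients of absolute value at most `H` and nonzero sum, vanishes. -/
def ExcW (k M H : ℕ) : Set (Fin k → ℕ) :=
  {A | ∃ (x : Fin M → Fin k → ℕ) (c : Fin M → ℤ), (∀ i, |c i| ≤ H) ∧ ∑ i, c i ≠ 0 ∧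
    ∑ i, c i * ∏ l, (A l : ℤ) ^ x i l = 0}

open Classical in
/-- the local sets -/
noncomputable def OmW (k M : ℕ) (x : Fin M → Fin k → ℕ) (c : Fin M → ℤ) (t : ℕ) :
    Finset (Fin k → ZMod t) :=
  if h : t.Prime then
    haveI : Fact t.Prime := ⟨h⟩
    (univ : Finset (Fin k → ZMod t)).filter (fun A => (∃ l, A l = 0) ∨
      ∑ i, (c i : ZMod t) * ∏ l, A l ^ x i l = 0)
  else ∅

theorem mem_OmW {k M : ℕ} {x : Fin M → Fin k → ℕ} {c : Fin M → ℤ} {t : ℕ} (ht : t.Prime)
    (A : Fin k → ZMod t) (h : (∃ l, A l = 0) ∨ ∑ i, (c i : ZMod t) * ∏ l, A l ^ x i l = 0) :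
    A ∈ OmW k M x c t := by
  classical
  unfold OmW
  rw [dif_pos ht]
  haveI : Fact t.Prime := ⟨ht⟩
  rw [mem_filter]
  exact ⟨mem_univ _, h⟩

theorem card_OmW {k M : ℕ} {x : Fin M → Fin k → ℕ} {c : Fin M → ℤ} {t : ℕ} (ht : t.Prime)
    (htk : k * 2 ^ (M + 1) ≤ t) (hc : ¬ (t : ℤ) ∣ ∑ i, c i) :
    ((OmW k M x c t).card : ℝ) ≤ (1 - (1 / 2) ^ (M + 1)) * (t : ℝ) ^ k := by
  classical
  haveI : Fact t.Prime := ⟨ht⟩
  have h := locW k M t htk x (fun i => (c i : ZMod t)) (by
    intro h0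
    apply hc
    rw [← ZMod.intCast_zmod_eq_zero_iff_dvd]
    push_cast
    exact h0)
  refine le_trans (le_of_eq ?_) h
  unfold OmW
  rw [dif_pos ht]

/-- few primes of `P` divide the sum of the coefficients -/
theorem few_dvd {P : Finset ℕ} (hP : ∀ t ∈ P, t.Prime) {s : ℤ} (hs : s ≠ 0) :
    ((P.filter (fun t : ℕ => (t : ℤ) ∣ s)).card : ℝ) * Real.log 2 ≤ Real.log |(s : ℝ)| := by
  set D := P.filter (fun t : ℕ => (t : ℤ) ∣ s) with hD
  have h1 : ∏ t ∈ D, t ∣ s.natAbs := by
    apply Finset.prod_primes_dvd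
    · intro t ht
      exact (hP t (mem_filter.1 ht).1).prime
    · intro t ht
      exact Int.natCast_dvd.1 (mem_filter.1 ht).2
  have h2 : 2 ^ D.card ≤ s.natAbs := by
    calc 2 ^ D.card = ∏ t ∈ D, 2 := by rw [prod_const]
      _ ≤ ∏ t ∈ D, t := prod_le_prod' (fun t ht => (hP t (mem_filter.1 ht).1).two_le)
      _ ≤ s.natAbs := Nat.le_of_dvd (Int.natAbs_pos.2 hs) h1
  have h3 : (2 : ℝ) ^ D.card ≤ |(s : ℝ)| := by
    have : ((2 ^ D.card : ℕ) : ℝ) ≤ (s.natAbs : ℝ) := by exact_mod_cast h2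
    rw [Nat.cast_natAbs, Int.cast_abs] at this
    push_cast at this
    exact this
  have h4 := Real.log_le_log (by positivity) h3
  rwa [Real.log_pow] at h4

open Classical in
/-- **Covering.** -/
theorem card_excW_le {k M H lam N Q j : ℕ} {B : ℝ} (a : Fin k → ℕ) {P : Finset ℕ}
    (hN : 1 ≤ N) (hQ : Q ^ 2 ≤ N) (hP : ∀ t ∈ P, t.Prime) (hPl : ∀ t ∈ P, t - 1 ∣ lam)
    (hPk : ∀ t ∈ P, k * 2 ^ (M + 1) ≤ t)
    (hj : ∀ D ∈ P.powersetCard j, ∏ t ∈ D, t ≤ Q) (hlam : 0 < lam) (hB : 0 < B)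
    (hBin : ∀ P' ⊆ P, ∀ s : ℤ, s ≠ 0 → |s| ≤ M * H →
      P' = P.filter (fun t : ℕ => ¬ (t : ℤ) ∣ s) →
      B ≤ (P'.card.choose j : ℝ) * ((1 / 2) ^ (M + 1)) ^ j) :
    (((Cube a N).filter (fun A => A ∈ ExcW k M H)).card : ℝ) ≤
      (lam : ℝ) ^ (k * M) * (2 * H + 1 : ℝ) ^ M * ((12 * (N : ℝ)) ^ k / B) := by
  have : NeZero lam := ⟨hlam.ne'⟩
  set I := (Fin M → Fin k → Fin lam) × (Fin M → Fin (2 * H + 1)) with hI
  let co : I → Fin M → ℤ := fun i m => (((i.2 m : Fin (2 * H + 1)) : ℕ) : ℤ) - H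
  let good : I → Prop := fun i => ∑ m, co i m ≠ 0
  let PI : I → Finset ℕ := fun i => P.filter (fun t : ℕ => ¬ (t : ℤ) ∣ ∑ m, co i m)
  let ZI : I → Finset (Fin k → ℕ) := fun i => (Cube a N).filter (fun A => ∀ t ∈ PI i,
    (fun l => ((A l : ℕ) : ZMod t)) ∈ OmW k M (fun m l => ((i.1 m l : Fin lam) : ℕ)) (co i) t)
  have hsub : (Cube a N).filter (fun A => A ∈ ExcW k M H) ⊆
      ((univ : Finset I).filter good).biUnion ZI := by
    intro A hA
    rw [mem_filter] at hA
    obtain ⟨hAc, x, c, h1, h2, h3⟩ := hA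
    rw [mem_biUnion]
    have hcb : ∀ m, (c m + H).toNat < 2 * H + 1 := by
      intro m
      have := abs_le.1 (h1 m)
      omega
    set i : I := (fun m l => ⟨x m l % lam, Nat.mod_lt _ hlam⟩, fun m => ⟨(c m + H).toNat, hcb m⟩)
      with hi
    have hco : co i = c := by
      funext m
      simp only [co, hi]
      have := abs_le.1 (h1 m)
      omega
    refine ⟨i, ?_, ?_⟩
    · rw [mem_filter]
      refine ⟨mem_univ _, ?_⟩
      show ∑ m, co i m ≠ 0
      rw [hco]
      exact h2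
    · rw [mem_filter]
      refine ⟨hAc, fun t ht => ?_⟩
      have ht' : t ∈ P := (mem_filter.1 ht).1
      have htp := hP t ht'
      have : Fact t.Prime := ⟨htp⟩
      apply mem_OmW htp
      by_cases h0 : ∃ l, ((A l : ℕ) : ZMod t) = 0
      · left; exact h0
      · right
        push Not at h0
        rw [hco]
        have e1 : ∀ m, ∏ l, ((A l : ℕ) : ZMod t) ^ (((i.1 m l : Fin lam) : ℕ)) =
            ((∏ l, (A l : ℤ) ^ x m l : ℤ) : ZMod t) := by
          intro m
          rw [Int.cast_prod]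
          apply prod_congr rfl
          intro l _
          simp only [hi]
          rw [pow_mod_lam (hPl t ht') (h0 l)]
          push_cast
          rfl
        have e2 := congrArg (fun z : ℤ => (z : ZMod t)) h3
        simp only [Int.cast_sum, Int.cast_mul, Int.cast_zero] at e2
        rw [← e2]
        apply sum_congr rfl
        intro m _
        rw [e1]
  have hZ : ∀ i ∈ (univ : Finset I).filter good, ((ZI i).card : ℝ) ≤ (12 * (N : ℝ)) ^ k / B := by
    intro i hi
    rw [mem_filter] at hi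
    have hg : ∑ m, co i m ≠ 0 := hi.2
    have hco : |∑ m, co i m| ≤ M * H := by
      calc |∑ m, co i m| ≤ ∑ m, |co i m| := abs_sum_le_sum_abs _ _
        _ ≤ ∑ m : Fin M, (H : ℤ) := by
            apply sum_le_sum
            intro m _
            simp only [co]
            have := (i.2 m).2
            rw [abs_le]
            constructor <;> omega
        _ = M * H := by rw [sum_const, card_univ, Fintype.card_fin, nsmul_eq_mul]
    have hPIsub : PI i ⊆ P := filter_subset _ _
    have hb := hBin (PI i) hPIsub (∑ m, co i m) hg hco rfl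
    have hl := G.lskG (η := (1 / 2) ^ (M + 1)) (by positivity) k N Q j a (PI i) (ZI i)
      (OmW k M (fun m l => ((i.1 m l : Fin lam) : ℕ)) (co i)) hN hQ
      (fun t ht => hP t (hPIsub ht))
      (by
        intro z hz l
        have := (mem_filter.1 hz).1
        rw [Cube, Fintype.mem_piFinset] at this
        exact this l)
      (by
        intro t ht
        exact card_OmW (hP t (hPIsub ht)) (hPk t (hPIsub ht)) (mem_filter.1 ht).2)
      (by
        intro z hz t ht
        exact (mem_filter.1 hz).2 t ht)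
      (by
        intro D hD
        exact hj D (powersetCard_mono hPIsub hD))
    rw [le_div_iff₀ hB]
    calc ((ZI i).card : ℝ) * B ≤ ((ZI i).card : ℝ) *
          (((PI i).card.choose j : ℝ) * ((1 / 2) ^ (M + 1)) ^ j) := by gcongr
      _ ≤ _ := hl
  have hcard : (Fintype.card I : ℝ) = (lam : ℝ) ^ (k * M) * (2 * H + 1 : ℝ) ^ M := by
    simp only [hI, Fintype.card_prod, Fintype.card_fun, Fintype.card_fin]
    push_cast
    rw [pow_mul]
  calc (((Cube a N).filter (fun A => A ∈ ExcW k M H)).card : ℝ)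
      ≤ ((((univ : Finset I).filter good).biUnion ZI).card : ℝ) := by
        exact_mod_cast card_le_card hsub
    _ ≤ ∑ i ∈ (univ : Finset I).filter good, ((ZI i).card : ℝ) := by
        exact_mod_cast card_biUnion_le
    _ ≤ ∑ i ∈ (univ : Finset I).filter good, (12 * (N : ℝ)) ^ k / B := sum_le_sum hZ
    _ = (((univ : Finset I).filter good).card : ℝ) * ((12 * (N : ℝ)) ^ k / B) := by
        rw [sum_const, nsmul_eq_mul]
    _ ≤ (Fintype.card I : ℝ) * ((12 * (N : ℝ)) ^ k / B) := by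
        apply mul_le_mul_of_nonneg_right _ (by positivity)
        exact_mod_cast card_le_univ _
    _ = _ := by rw [hcard]

end Pool.Agent.TH194.BL.W
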