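import Pool.Agent.TH194.BL.Stmts
import Pool.Agent.TH764.BL.SspC
import Pool.Agent.H442R2.KF.Bv

/-! Project BL (helper194), SSP: many primes `t ≤ T`, `t ≡ 3 (mod 4)`, `t ≡ 1 (mod q)` with
`t - 1` smooth, from the theorem of Bombieri and Vinogradov (helper764). -/

namespace Pool.Agent.TH194.BL

open Finset

theorem ssp : S_SSP := by
  classical
  intro θ ε hθ hθ1 hε B
  obtain ⟨T₀, h⟩ := Pool.Agent.TH764.BL.ssp_of_bv
    (fun δ hδ U => Pool.Agent.H442R2.KF.bv δ hδ U) θ ε hθ hθ1 hε B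
  refine ⟨T₀, fun T hT q hq hqT => (h T hT q hq hqT).trans ?_⟩
  have : ∀ (s t : Finset ℕ), s ⊆ t → (s.card : ℝ) ≤ t.card := fun s t hst => by
    exact_mod_cast card_le_card hst
  apply this
  intro t ht
  rw [mem_filter] at ht ⊢
  exact ht

end Pool.Agent.TH194.BL
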