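import Mathlib
import Pool.Agent.TH194.BL.FinW
import Pool.Agent.TH194.BL.Ssp

/-!
Project BL, unit equations: choice of the parameters.
-/

set_option autoImplicit false

namespace Pool.Agent.TH194.BL.W

open Finset Filter

/-- additional inequalities between the parameters -/
structure ParW (M : ℕ) (ε L : ℝ) : Prop where
  ll2 : 2 ≤ Real.log L
  f6 : 8 * L ≤ L ^ (al ε * (1 - ε / 8))
  f7 : 2 ^ (M + 4) ≤ L ^ (ε / 16)
  f8 : Real.log (M + 1) + L ^ (1 - ε) ≤ L * Real.log 2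

theorem ev_parW (M : ℕ) {ε : ℝ} (h0 : 0 < ε) (h1 : ε ≤ 1 / 8) :
    ∀ᶠ L : ℝ in atTop, ParW M ε L := by
  have hal := al_ge h0 h1
  have g1 : ∀ᶠ L : ℝ in atTop, 2 ≤ Real.log L := Real.tendsto_log_atTop.eventually_ge_atTop 2
  have g2 : ∀ᶠ L : ℝ in atTop, 8 ≤ L ^ (1 / 2 : ℝ) :=
    (tendsto_rpow_atTop (by norm_num)).eventually_ge_atTop 8
  have g3 : ∀ᶠ L : ℝ in atTop, 2 ^ (M + 4) ≤ L ^ (ε / 16) :=
    (tendsto_rpow_atTop (by linarith)).eventually_ge_atTop _
  have g4 : ∀ᶠ L : ℝ in atTop, 4 ≤ L ^ ε := (tendsto_rpow_atTop h0).eventually_ge_atTop 4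
  have g5 : ∀ᶠ L : ℝ in atTop, 4 * Real.log (M + 1) ≤ L := eventually_ge_atTop _
  filter_upwards [g1, g2, g3, g4, g5, eventually_ge_atTop (1 : ℝ)] with L h1' h2 h3 h4 h5 h6
  have hLpos : 0 < L := by linarith
  refine ⟨h1', ?_, h3, ?_⟩
  · calc 8 * L ≤ L ^ (1 / 2 : ℝ) * L := by gcongr
      _ = L ^ (3 / 2 : ℝ) := by
          rw [show (3 / 2 : ℝ) = 1 / 2 + 1 by norm_num, Real.rpow_add hLpos, Real.rpow_one]
      _ ≤ _ := Real.rpow_le_rpow_of_exponent_le h6 (al_e h0 h1)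
  · have e1 : L ^ (1 - ε) * L ^ ε = L := by
      rw [← Real.rpow_add hLpos, show 1 - ε + ε = 1 by ring, Real.rpow_one]
    have e2 : L ^ (1 - ε) * 4 ≤ L := by
      calc L ^ (1 - ε) * 4 ≤ L ^ (1 - ε) * L ^ ε := by gcongr
        _ = L := e1
    have e3 := Real.log_two_gt_d9
    nlinarith

/-- the lower bound for the sieve sum -/
theorem sieve_sumG {ε : ℝ} (h0 : 0 < ε) (h1 : ε ≤ 1 / 8) {k B T₀ M : ℕ} {L : ℝ}
    (hp : Par k B ε T₀ L) (hw : ParW M ε L) {n j : ℕ} (hn : L ^ (al ε * (1 - ε / 8)) / 4 ≤ n)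
    (hj1 : (j : ℝ) ≤ L) (hj2 : L / 2 ≤ (j + 1) * (al ε * Real.log L)) :
    Real.exp ((1 / 4 - 3 * ε / 8) * L) ≤ (n.choose j : ℝ) * ((1 / 2) ^ (M + 1)) ^ j := by
  have hL0 : 0 < L := by linarith [hp.l1]
  have hal := al_ge h0 h1
  have hll : 0 < Real.log L := by linarith [hp.ll]
  have hn2 : 2 * L ≤ n := by linarith [hw.f6]
  have h2j : 2 * j ≤ n := by
    have : (2 * j : ℝ) ≤ n := by linarith
    exact_mod_cast this
  have c1 := choose_lower' h2j
  have hM0 : (0 : ℝ) < 2 ^ (M + 1) := by positivity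
  -- the ratio
  have hr : L ^ be ε ≤ (n : ℝ) / (2 * L) * (1 / 2) ^ (M + 1) := by
    have e0 : (n : ℝ) / (2 * L) * (1 / 2) ^ (M + 1) = (n : ℝ) / (2 * L * 2 ^ (M + 1)) := by
      rw [one_div, inv_pow]
      field_simp
    rw [e0, le_div_iff₀ (by positivity)]
    have e1 : L ^ be ε * L ^ (ε / 16) * L = L ^ (al ε * (1 - ε / 8)) := by
      rw [← Real.rpow_add hL0]
      nth_rewrite 2 [← Real.rpow_one L]
      rw [← Real.rpow_add hL0]
      congr 1
      unfold be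
      ring
    have e2 : L ^ be ε * 2 ^ (M + 4) * L ≤ L ^ be ε * L ^ (ε / 16) * L := by
      gcongr
      exact hw.f7
    have e3 : (2 : ℝ) ^ (M + 4) = 8 * 2 ^ (M + 1) := by
      rw [show M + 4 = 3 + (M + 1) by ring, pow_add]
      norm_num
    rw [e3] at e2
    nlinarith
  have hpow : (L ^ be ε) ^ j ≤ (n.choose j : ℝ) * ((1 / 2) ^ (M + 1)) ^ j := by
    calc (L ^ be ε) ^ j ≤ ((n : ℝ) / (2 * L) * (1 / 2) ^ (M + 1)) ^ j :=
          pow_le_pow_left₀ (by positivity) hr j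
      _ = ((n : ℝ) / (2 * L)) ^ j * ((1 / 2) ^ (M + 1)) ^ j := by rw [mul_pow]
      _ ≤ ((n : ℝ) / (2 * j)) ^ j * ((1 / 2) ^ (M + 1)) ^ j := by
          apply mul_le_mul_of_nonneg_right _ (by positivity)
          rcases Nat.eq_zero_or_pos j with rfl | hj
          · simp
          have hj0 : (0 : ℝ) < j := by exact_mod_cast hj
          apply pow_le_pow_left₀ (by positivity)
          gcongr
      _ ≤ _ := by
          apply mul_le_mul_of_nonneg_right c1 (by positivity)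
  refine le_trans ?_ hpow
  have e3 : (L ^ be ε) ^ j = Real.exp (be ε * Real.log L * j) := by
    rw [Real.rpow_def_of_pos hL0, ← Real.exp_nat_mul]
    congr 1
    ring
  rw [e3]
  apply Real.exp_le_exp.2
  have hb := be_al h0 h1
  have hb0 := be_pos h0 h1
  have hb2 := be_le h0 h1
  have e8 := hp.e8
  have s1 : be ε * (L / 2) ≤ be ε * ((j + 1) * (al ε * Real.log L)) := by gcongr
  have s2 : (1 / 4 - ε / 4) * (2 * al ε) * (L / 2) ≤ be ε * (L / 2) := by gcongr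
  have hal0 : 0 < al ε := by linarith
  have s3 : (1 / 4 - ε / 4) * L ≤ be ε * ((j + 1) * Real.log L) := by
    have : al ε * ((1 / 4 - ε / 4) * L) ≤ al ε * (be ε * ((j + 1) * Real.log L)) := by
      calc al ε * ((1 / 4 - ε / 4) * L) = (1 / 4 - ε / 4) * (2 * al ε) * (L / 2) := by ring
        _ ≤ _ := s2
        _ ≤ _ := s1
        _ = _ := by ring
    exact le_of_mul_le_mul_left this hal0
  have s4 : be ε * Real.log L ≤ ε / 8 * L := by nlinarith
  nlinarith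

/-- the bound for the coefficients -/
noncomputable def HH (N : ℕ) (ε : ℝ) : ℕ := ⌊Real.exp (Real.log N ^ (1 - ε))⌋₊

theorem one_cube (k M : ℕ) {ε : ℝ} (h0 : 0 < ε) (h1 : ε ≤ 1 / 8) : ∃ N₀ : ℕ, ∀ N : ℕ, N₀ ≤ N →
    ∀ a : Fin k → ℕ, ∀ E : Finset (Fin k → ℕ),
    (∀ A ∈ E, A ∈ Cube a N ∧ A ∈ ExcW k M (HH N ε)) →
    (E.card : ℝ) ≤ (N : ℝ) ^ ((k : ℝ) - 1 / 4 + 5 * ε / 8) := by
  classical
  set K' : ℕ := k * M + M + k * 2 ^ (M + 1) + k with hK'
  obtain ⟨T₀, hT₀⟩ := ssp (1 / 2 + ε / 16) (ε / 16) (by linarith) (by linarith) (by linarith) 1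
  have hev := (Real.tendsto_log_atTop.comp tendsto_natCast_atTop_atTop).eventually
    ((ev_par K' 1 h0 h1 (max T₀ 2)).and (ev_parW M h0 h1))
  obtain ⟨N₀, hN₀⟩ := eventually_atTop.1 hev
  refine ⟨max N₀ 1, fun N hN a E hE => ?_⟩
  have hN1 : 1 ≤ N := (le_max_right _ _).trans hN
  obtain ⟨hp, hw⟩ : Par K' 1 ε (max T₀ 2) (Real.log N) ∧ ParW M ε (Real.log N) :=
    hN₀ N ((le_max_left _ _).trans hN)
  set L := Real.log N with hL
  have hNR : (0 : ℝ) < N := by exact_mod_cast hN1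
  have hNexp : (N : ℝ) = Real.exp L := (Real.exp_log hNR).symm
  have hL0 : 0 < L := by linarith [hp.l1]
  have hll : 0 < Real.log L := by linarith [hp.ll]
  have hal := al_ge h0 h1
  have hal2 := al_le h0
  set T := ⌊L ^ al ε⌋₊ with hT
  have hTR : (T : ℝ) ≤ L ^ al ε := Nat.floor_le (by positivity)
  have hT2 : 2 ≤ T := (le_max_right _ _).trans hp.t0
  have hT0 : (0 : ℝ) < T := by exact_mod_cast (by omega : 0 < T)
  have hlogT : Real.log T ≤ al ε * Real.log L := by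
    have := Real.log_le_log hT0 hTR
    rwa [Real.log_rpow hL0] at this
  have hlogL : Real.log L ≤ Real.log T := Real.log_le_log hL0 hp.tL
  -- primes
  set P₀ := (Icc 1 T).filter (fun t : ℕ => t.Prime ∧ t % 4 = 3 ∧ 2 ∣ t - 1 ∧
    ∀ p : ℕ, p.Prime → p ∣ t - 1 → (p : ℝ) ≤ (T : ℝ) ^ (1 / 2 + ε / 16)) with hP₀
  have hP₀c : (T : ℝ) ^ (1 - ε / 16) ≤ (P₀.card : ℝ) := by
    have h := hT₀ T ((le_max_left _ _).trans hp.t0) 2 Nat.prime_two
      (by rw [pow_one]; push_cast; linarith [hw.ll2])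
    refine h.trans (le_of_eq ?_)
    rw [hP₀]
  set P := P₀.filter (fun t => k * 2 ^ (M + 1) ≤ t) with hP
  have hPc : L ^ (al ε * (1 - ε / 8)) / 2 ≤ (P.card : ℝ) := by
    have c1 : P₀.card ≤ P.card + k * 2 ^ (M + 1) := by
      have : P₀ ⊆ P ∪ Icc 1 (k * 2 ^ (M + 1)) := by
        intro t ht
        rw [mem_union, hP, mem_filter, mem_Icc]
        have h1 : 1 ≤ t := by
          rw [hP₀, mem_filter, mem_Icc] at ht
          exact ht.1.1
        rcases le_total (k * 2 ^ (M + 1)) t with h | h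
        · left; exact ⟨ht, h⟩
        · right; exact ⟨h1, h⟩
      calc P₀.card ≤ (P ∪ Icc 1 (k * 2 ^ (M + 1))).card := card_le_card this
        _ ≤ P.card + (Icc 1 (k * 2 ^ (M + 1))).card := card_union_le _ _
        _ = _ := by rw [Nat.card_Icc, Nat.add_sub_cancel]
    have c2 : (P₀.card : ℝ) ≤ P.card + ((k * 2 ^ (M + 1) : ℕ) : ℝ) := by exact_mod_cast c1
    have c5 : ((k * 2 ^ (M + 1) : ℕ) : ℝ) ≤ 16 * ((K' : ℝ) + 4) ^ 2 := by
      have e1 : k * 2 ^ (M + 1) ≤ K' := by rw [hK']; omega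
      have e2 : ((k * 2 ^ (M + 1) : ℕ) : ℝ) ≤ (K' : ℝ) := by exact_mod_cast e1
      nlinarith [show (0 : ℝ) ≤ K' from Nat.cast_nonneg K']
    have c3 := hp.tk
    have c4 : L ^ (al ε * (1 - ε / 8)) / 2 ≤ (T : ℝ) ^ (1 - ε / 8) := by
      have d1 : (L ^ al ε / 2) ^ (1 - ε / 8) ≤ (T : ℝ) ^ (1 - ε / 8) :=
        Real.rpow_le_rpow (by positivity) hp.tl (by linarith)
      have d2 : (L ^ al ε / 2) ^ (1 - ε / 8) = L ^ (al ε * (1 - ε / 8)) / 2 ^ (1 - ε / 8) := by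
        rw [Real.div_rpow (by positivity) (by norm_num), ← Real.rpow_mul hL0.le]
      have d3 : (2 : ℝ) ^ (1 - ε / 8) ≤ 2 := by
        calc (2 : ℝ) ^ (1 - ε / 8) ≤ 2 ^ (1 : ℝ) :=
              Real.rpow_le_rpow_of_exponent_le (by norm_num) (by linarith)
          _ = 2 := Real.rpow_one 2
      calc L ^ (al ε * (1 - ε / 8)) / 2 ≤ L ^ (al ε * (1 - ε / 8)) / 2 ^ (1 - ε / 8) := by
            gcongr
        _ = _ := d2.symm
        _ ≤ _ := d1
    linarith
  have hPmem : ∀ t ∈ P, t ≤ T ∧ t.Prime ∧ t % 4 = 3 ∧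
      (∀ p : ℕ, p.Prime → p ∣ t - 1 → (p : ℝ) ≤ (T : ℝ) ^ (1 / 2 + ε / 16)) ∧
      k * 2 ^ (M + 1) ≤ t := by
    intro t ht
    rw [hP, mem_filter, hP₀, mem_filter, mem_Icc] at ht
    exact ⟨ht.1.1.2, ht.1.2.1, ht.1.2.2.1, ht.1.2.2.2.2, ht.2⟩
  -- small primes
  set Y' := L ^ (1 - ε / 2) with hY'
  set S := (Icc 1 ⌊Y'⌋₊).filter (fun p : ℕ => p.Prime) with hS
  have hY'0 : 0 < Y' := by linarith [hp.y2]
  have hSc : (S.card : ℝ) ≤ Y' := by
    calc (S.card : ℝ) ≤ ((Icc 1 ⌊Y'⌋₊).card : ℝ) := by exact_mod_cast card_filter_le _ _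
      _ = (⌊Y'⌋₊ : ℝ) := by rw [Nat.card_Icc, Nat.add_sub_cancel]
      _ ≤ Y' := Nat.floor_le hY'0.le
  have hSp : ∀ p ∈ S, p.Prime := fun p hp' => (mem_filter.1 hp').2
  have hSmem : ∀ p : ℕ, p.Prime → (p : ℝ) ≤ Y' → p ∈ S := by
    intro p hpp hpY
    rw [hS, mem_filter, mem_Icc]
    exact ⟨⟨hpp.one_le, Nat.le_floor hpY⟩, hpp⟩
  have hTth : (T : ℝ) ^ (1 / 2 + ε / 16) ≤ Y' := by
    calc (T : ℝ) ^ (1 / 2 + ε / 16) ≤ (L ^ al ε) ^ (1 / 2 + ε / 16) :=
          Real.rpow_le_rpow hT0.le hTR (by linarith)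
      _ = L ^ (al ε * (1 / 2 + ε / 16)) := by rw [← Real.rpow_mul hL0.le]
      _ = Y' := by rw [al_mul h0]
  -- j and Q
  set Q := Nat.sqrt N with hQ
  have hQ2 : Q ^ 2 ≤ N := by rw [sq]; exact Nat.sqrt_le N
  have hQ1 : 1 ≤ Q := by
    rw [hQ, Nat.le_sqrt]
    omega
  set j := Nat.log T Q with hj
  have hTj : T ^ j ≤ Q := Nat.pow_log_le_self T (by omega)
  have hTj2 : Q < T ^ (j + 1) := Nat.lt_pow_succ_log_self (by omega) Q
  have hNQ : N < (Q + 1) ^ 2 := by rw [sq]; exact Nat.lt_succ_sqrt N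
  have hlT : 1 ≤ Real.log T := by linarith [hp.ll]
  have hj1 : (j : ℝ) ≤ L := by
    have a1 : (T : ℝ) ^ j ≤ Q := by exact_mod_cast hTj
    have a2 := Real.log_le_log (by positivity) a1
    rw [Real.log_pow] at a2
    have a3 : Real.log Q ≤ L := by
      apply Real.log_le_log (by exact_mod_cast hQ1)
      have : Q ≤ Q ^ 2 := Nat.le_self_pow (by norm_num) Q
      exact_mod_cast this.trans hQ2
    have a4 : (j : ℝ) * 1 ≤ j * Real.log T := by gcongr
    linarith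
  have hj2 : L / 2 ≤ (j + 1) * (al ε * Real.log L) := by
    have a1 : N < (T ^ (j + 1)) ^ 2 := lt_of_lt_of_le hNQ (Nat.pow_le_pow_left hTj2 2)
    have a2 : (N : ℝ) ≤ ((T : ℝ) ^ (j + 1)) ^ 2 := by exact_mod_cast a1.le
    have a3 := Real.log_le_log hNR a2
    rw [← pow_mul, Real.log_pow, ← hL] at a3
    push_cast at a3
    have a4 : ((j : ℝ) + 1) * 2 * Real.log T ≤ (j + 1) * 2 * (al ε * Real.log L) := by gcongr
    linarith
  set H := HH N ε with hH
  have hHle : (H : ℝ) ≤ Real.exp (L ^ (1 - ε)) := Nat.floor_le (Real.exp_pos _).le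
  have hPprime : ∀ t ∈ P, t.Prime := fun t ht => (hPmem t ht).2.1
  set Bd : ℝ := Real.exp ((1 / 4 - 3 * ε / 8) * L) with hBd
  have hBin : ∀ P' ⊆ P, ∀ s : ℤ, s ≠ 0 → |s| ≤ M * H →
      P' = P.filter (fun t : ℕ => ¬ (t : ℤ) ∣ s) →
      Bd ≤ (P'.card.choose j : ℝ) * ((1 / 2) ^ (M + 1)) ^ j := by
    intro P' _ s hs hsb hP'
    apply sieve_sumG h0 h1 hp hw _ hj1 hj2
    have c1 := few_dvd hPprime hs
    have c2 : (P.filter (fun t : ℕ => (t : ℤ) ∣ s)).card + P'.card = P.card := by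
      rw [hP']
      exact card_filter_add_card_filter_not _
    have c3 : ((P.filter (fun t : ℕ => (t : ℤ) ∣ s)).card : ℝ) + P'.card = P.card := by
      exact_mod_cast c2
    have c4 : Real.log |(s : ℝ)| ≤ L * Real.log 2 := by
      have d1 : |(s : ℝ)| ≤ (M + 1) * Real.exp (L ^ (1 - ε)) := by
        have d2 : |(s : ℝ)| ≤ M * H := by exact_mod_cast hsb
        calc |(s : ℝ)| ≤ M * H := d2
          _ ≤ M * Real.exp (L ^ (1 - ε)) := by gcongr
          _ ≤ (M + 1) * Real.exp (L ^ (1 - ε)) := by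
              apply mul_le_mul_of_nonneg_right _ (Real.exp_pos _).le
              linarith
      have d3 : 0 < |(s : ℝ)| := abs_pos.2 (by exact_mod_cast hs)
      have d4 := Real.log_le_log d3 d1
      rw [Real.log_mul (by positivity) (Real.exp_pos _).ne', Real.log_exp] at d4
      exact d4.trans hw.f8
    have c5 : ((P.filter (fun t : ℕ => (t : ℤ) ∣ s)).card : ℝ) ≤ L := by
      have d5 : (0 : ℝ) < Real.log 2 := Real.log_pos (by norm_num)
      exact le_of_mul_le_mul_right (c1.trans c4) d5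
    have c6 := hw.f6
    linarith
  have hmain := card_excW_le (k := k) (M := M) (H := H) (lam := lamOf S T) (N := N) (Q := Q) (j := j)
    (B := Bd) a (P := P) hN1 hQ2 hPprime
    (fun t ht => dvd_lamOf (hPmem t ht).1 (hPmem t ht).2.2.1
      (fun p hpp hpt => hSmem p hpp (((hPmem t ht).2.2.2.1 p hpp hpt).trans hTth)))
    (fun t ht => (hPmem t ht).2.2.2.2)
    (by
      intro D hD
      rw [mem_powersetCard] at hD
      calc ∏ t ∈ D, t ≤ ∏ t ∈ D, T := prod_le_prod' (fun t ht => (hPmem t (hD.1 ht)).1)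
        _ = T ^ j := by rw [prod_const, hD.2]
        _ ≤ Q := hTj)
    (lamOf_pos hSp) (Real.exp_pos _) hBin
  have hEsub : E ⊆ (Cube a N).filter (fun A => A ∈ ExcW k M H) := by
    intro A hA
    rw [mem_filter]
    exact hE A hA
  have hEc : (E.card : ℝ) ≤ (lamOf S T : ℝ) ^ (k * M) * (2 * H + 1 : ℝ) ^ M *
      ((12 * (N : ℝ)) ^ k / Bd) := by
    refine le_trans ?_ hmain
    exact_mod_cast card_le_card (by convert hEsub)
  refine hEc.trans ?_
  -- numerical estimate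
  have hlam0 : (0 : ℝ) < lamOf S T := by exact_mod_cast lamOf_pos hSp
  have n1 : (lamOf S T : ℝ) ^ (k * M) * (2 * H + 1 : ℝ) ^ M ≤ Real.exp (ε / 8 * L) := by
    have hpos : 0 < (lamOf S T : ℝ) ^ (k * M) * (2 * H + 1 : ℝ) ^ M := by positivity
    rw [← Real.log_le_iff_le_exp hpos]
    rw [Real.log_mul (by positivity) (by positivity), Real.log_pow, Real.log_pow]
    have b1 : Real.log (lamOf S T) ≤ (Y' + 1) * (2 * Real.log L) := by
      have c1 := Real.log_le_log hlam0 (lamOf_le (S := S) hT2)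
      rw [Real.log_pow] at c1
      push_cast at c1
      have c2 : Real.log T ≤ 2 * Real.log L := by
        refine hlogT.trans ?_
        gcongr
      calc Real.log (lamOf S T) ≤ _ := c1
        _ ≤ (Y' + 1) * (2 * Real.log L) := by
            apply mul_le_mul (by linarith) c2 (by linarith) (by linarith)
    have b2 : Real.log (2 * H + 1 : ℝ) ≤ (Y' + 1) * (2 * Real.log L) := by
      have c1 : (2 * H + 1 : ℝ) ≤ 3 * Real.exp (L ^ (1 - ε)) := by
        have : (1 : ℝ) ≤ Real.exp (L ^ (1 - ε)) := Real.one_le_exp (by positivity)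
        linarith
      have c2 := Real.log_le_log (by positivity) c1
      rw [Real.log_mul (by norm_num) (Real.exp_pos _).ne', Real.log_exp] at c2
      have c3 : Real.log 3 ≤ 2 := by
        have := Real.log_le_sub_one_of_pos (show (0 : ℝ) < 3 by norm_num)
        linarith
      have c4 : L ^ (1 - ε) ≤ Y' := Real.rpow_le_rpow_of_exponent_le hp.l1 (by linarith)
      have c5 := hp.ll
      nlinarith
    have b3 : ((k * M : ℕ) : ℝ) * Real.log (lamOf S T) ≤
        ((k * M : ℕ) : ℝ) * ((Y' + 1) * (2 * Real.log L)) := by gcongr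
    have b4 : (M : ℝ) * Real.log (2 * H + 1 : ℝ) ≤ M * ((Y' + 1) * (2 * Real.log L)) := by gcongr
    have e2 := hp.e2
    have b5 : ((k * M : ℕ) : ℝ) + M ≤ K' := by
      have : k * M + M ≤ K' := by rw [hK']; omega
      exact_mod_cast this
    have b6 : (((k * M : ℕ) : ℝ) + M) * ((Y' + 1) * (2 * Real.log L)) ≤
        K' * ((Y' + 1) * (2 * Real.log L)) := by gcongr
    have b7 : 0 ≤ (K' : ℝ) * ((Y' + 1) * Real.log L) := by positivity
    have b8 : 0 ≤ (Y' + 1) * Real.log L := by positivity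
    have b9 : 0 ≤ Real.log 2 := Real.log_nonneg (by norm_num)
    push_cast at b3 b4 b6 e2 ⊢
    nlinarith
  have n2 : (12 * (N : ℝ)) ^ k / Bd ≤
      Real.exp ((ε / 8 + k) * L - (1 / 4 - 3 * ε / 8) * L) := by
    rw [sub_eq_add_neg, Real.exp_add, Real.exp_neg, ← div_eq_mul_inv]
    have c1 : (12 * (N : ℝ)) ^ k ≤ Real.exp ((ε / 8 + k) * L) := by
      rw [mul_pow, add_mul, Real.exp_add]
      apply mul_le_mul _ _ (by positivity) (by positivity)
      · rw [← Real.log_le_iff_le_exp (by positivity), Real.log_pow]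
        refine le_trans ?_ hp.e9
        have e1 : (k : ℝ) ≤ K' := by
          have : k ≤ K' := by rw [hK']; omega
          exact_mod_cast this
        have e2 : 0 ≤ Real.log 12 := Real.log_nonneg (by norm_num)
        gcongr
      · rw [hNexp, Real.exp_nat_mul]
    exact div_le_div_of_nonneg_right c1 (Real.exp_pos _).le
  calc (lamOf S T : ℝ) ^ (k * M) * (2 * H + 1 : ℝ) ^ M * ((12 * (N : ℝ)) ^ k / Bd)
      ≤ Real.exp (ε / 8 * L) * Real.exp ((ε / 8 + k) * L - (1 / 4 - 3 * ε / 8) * L) := by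
        apply mul_le_mul n1 n2 _ (by positivity)
        positivity
    _ = Real.exp (L * ((k : ℝ) - 1 / 4 + 5 * ε / 8)) - 0 := by
        rw [← Real.exp_add, sub_zero]
        congr 1
        ring
    _ = (N : ℝ) ^ ((k : ℝ) - 1 / 4 + 5 * ε / 8) := by
        rw [Real.rpow_def_of_pos hNR, sub_zero]

end Pool.Agent.TH194.BL.W
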