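import Mathlib
import Pool.Agent.TH194.BL.FinW2

/-!
Project BL, unit equations: boxes, integral exponents of any sign.
-/

set_option autoImplicit false

namespace Pool.Agent.TH194.BL.W

open Finset Filter

theorem ExcW_mono {k M H H' : ℕ} (h : H ≤ H') : ExcW k M H ⊆ ExcW k M H' := by
  rintro A ⟨x, c, h1, h2, h3⟩
  exact ⟨x, c, fun i => (h1 i).trans (by exact_mod_cast h), h2, h3⟩

theorem unit_equations (k M : ℕ) {ε : ℝ} (h0 : 0 < ε) : ∃ N₀ : ℕ, ∀ N : ℕ, N₀ ≤ N →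
    ∀ a b : Fin k → ℕ, (∀ i, N ≤ b i) → ∀ E : Finset (Fin k → ℕ),
    (∀ A ∈ E, (∀ i, a i < A i ∧ A i ≤ a i + b i) ∧ A ∈ ExcW k M (HH N ε)) →
    (E.card : ℝ) ≤ (N : ℝ) ^ (-(1 / 4) + ε) * ∏ i, (b i : ℝ) := by
  classical
  set δ := min ε (1 / 8) with hδ
  have hδ0 : 0 < δ := lt_min h0 (by norm_num)
  have hδ1 : δ ≤ 1 / 8 := min_le_right _ _
  have hδε : δ ≤ ε := min_le_left _ _
  obtain ⟨N₁, hN₁⟩ := one_cube k M hδ0 hδ1
  have hev := (Real.tendsto_log_atTop.comp tendsto_natCast_atTop_atTop).eventually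
    (ev_par k 0 hδ0 hδ1 0)
  obtain ⟨N₂, hN₂⟩ := eventually_atTop.1 hev
  refine ⟨max (max N₁ N₂) 1, fun N hN a b hb E hE => ?_⟩
  have hN1 : 1 ≤ N := (le_max_right _ _).trans hN
  have hNN1 : N₁ ≤ N := ((le_max_left _ _).trans (le_max_left _ _)).trans hN
  have hNN2 : N₂ ≤ N := ((le_max_right _ _).trans (le_max_left _ _)).trans hN
  have hp : Par k 0 δ 0 (Real.log N) := hN₂ N hNN2
  set L := Real.log N with hL
  have hNR : (0 : ℝ) < N := by exact_mod_cast hN1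
  have hNR1 : (1 : ℝ) ≤ N := by exact_mod_cast hN1
  have hHmono : HH N ε ≤ HH N δ := by
    unfold HH
    apply Nat.floor_le_floor
    apply Real.exp_le_exp.2
    exact Real.rpow_le_rpow_of_exponent_le hp.l1 (by linarith)
  have hkc : (2 : ℝ) ^ k ≤ (N : ℝ) ^ (δ / 8) := by
    calc (2 : ℝ) ^ k ≤ 12 ^ k := pow_le_pow_left₀ (by norm_num) (by norm_num) k
      _ = Real.exp (k * Real.log 12) := by
          rw [Real.exp_nat_mul, Real.exp_log (by norm_num)]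
      _ ≤ Real.exp (δ / 8 * L) := Real.exp_le_exp.2 hp.e9
      _ = _ := by rw [Real.rpow_def_of_pos hNR, mul_comm]
  set bd : ℝ := (N : ℝ) ^ ((k : ℝ) - 1 / 4 + 5 * δ / 8) with hbd
  have hq : (E.card : ℝ) ≤ bd * (2 ^ k * (∏ i, (b i : ℝ)) / (N : ℝ) ^ k) := by
    apply box_count hN1 hb
    · intro A hA
      exact (hE A hA).1
    · positivity
    · intro a' E' hE' hcube
      apply hN₁ N hNN1 a' E'
      intro A hA
      exact ⟨hcube A hA, ExcW_mono hHmono (hE A (hE' hA)).2⟩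
  have hM0 : (0 : ℝ) ≤ ∏ i, (b i : ℝ) := prod_nonneg (fun i _ => Nat.cast_nonneg _)
  calc (E.card : ℝ) ≤ bd * (2 ^ k * (∏ i, (b i : ℝ)) / (N : ℝ) ^ k) := hq
    _ ≤ bd * ((N : ℝ) ^ (δ / 8) * (∏ i, (b i : ℝ)) / (N : ℝ) ^ k) := by gcongr
    _ = ((N : ℝ) ^ (δ / 8) * (bd * (N : ℝ) ^ (-(k : ℝ)))) * ∏ i, (b i : ℝ) := by
        rw [Real.rpow_neg hNR.le, Real.rpow_natCast]
        ring
    _ = (N : ℝ) ^ (-(1 / 4) + 6 * δ / 8) * ∏ i, (b i : ℝ) := by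
        congr 1
        rw [hbd, ← Real.rpow_add hNR, ← Real.rpow_add hNR]
        congr 1
        ring
    _ ≤ (N : ℝ) ^ (-(1 / 4) + ε) * ∏ i, (b i : ℝ) := by
        apply mul_le_mul_of_nonneg_right _ hM0
        apply Real.rpow_le_rpow_of_exponent_le hNR1
        linarith

/-- from the group to the semigroup -/
theorem clear_denominators {k M : ℕ} {A : Fin k → ℕ} (hA : ∀ l, 0 < A l)
    {x : Fin M → Fin k → ℤ} {c : Fin M → ℤ}
    (h : ∑ i, (c i : ℚ) * ∏ l, (A l : ℚ) ^ x i l = 0) :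
    ∃ y : Fin M → Fin k → ℕ, ∑ i, c i * ∏ l, (A l : ℤ) ^ y i l = 0 := by
  set s : ℕ := ∑ i, ∑ l, (x i l).natAbs with hs
  have hle : ∀ i l, (x i l).natAbs ≤ s := by
    intro i l
    calc (x i l).natAbs ≤ ∑ l, (x i l).natAbs :=
          single_le_sum (f := fun l => (x i l).natAbs) (fun _ _ => Nat.zero_le _) (mem_univ l)
      _ ≤ s := single_le_sum (f := fun i => ∑ l, (x i l).natAbs) (fun _ _ => Nat.zero_le _)
          (mem_univ i)
  refine ⟨fun i l => (x i l + s).toNat, ?_⟩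
  have hcast : ((∑ i, c i * ∏ l, (A l : ℤ) ^ (x i l + s).toNat : ℤ) : ℚ) = 0 := by
    push_cast
    have e1 : ∀ i, ∏ l, (A l : ℚ) ^ (x i l + s).toNat =
        (∏ l, (A l : ℚ) ^ x i l) * ∏ l, (A l : ℚ) ^ s := by
      intro i
      rw [← prod_mul_distrib]
      apply prod_congr rfl
      intro l _
      have hl : (A l : ℚ) ≠ 0 := by exact_mod_cast (hA l).ne'
      rw [← zpow_natCast (A l : ℚ) (x i l + s).toNat, ← zpow_natCast (A l : ℚ) s, ← zpow_add₀ hl]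
      congr 1
      have := hle i l
      omega
    have e2 : ∑ i, (c i : ℚ) * ∏ l, (A l : ℚ) ^ (x i l + s).toNat =
        (∑ i, (c i : ℚ) * ∏ l, (A l : ℚ) ^ x i l) * ∏ l, (A l : ℚ) ^ s := by
      rw [sum_mul]
      apply sum_congr rfl
      intro i _
      rw [e1, mul_assoc]
    rw [e2, h, zero_mul]
  exact_mod_cast hcast

theorem group_form (k M : ℕ) {ε : ℝ} (h0 : 0 < ε) : ∃ N₀ : ℕ, ∀ N : ℕ, N₀ ≤ N →
    ∀ a b : Fin k → ℕ, (∀ i, N ≤ b i) →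
    (({A : Fin k → ℕ | (∀ l, a l < A l ∧ A l ≤ a l + b l) ∧
      ∃ (x : Fin M → Fin k → ℤ) (c : Fin M → ℤ),
        (∀ i, |(c i : ℝ)| ≤ Real.exp (Real.log N ^ (1 - ε))) ∧ ∑ i, c i ≠ 0 ∧
        ∑ i, (c i : ℚ) * ∏ l, (A l : ℚ) ^ x i l = 0}.ncard : ℕ) : ℝ) ≤
      (N : ℝ) ^ (-(1 / 4) + ε) * ∏ i, (b i : ℝ) := by
  classical
  obtain ⟨N₀, hN₀⟩ := unit_equations k M h0
  refine ⟨N₀, fun N hN a b hb => ?_⟩
  set Bx : Finset (Fin k → ℕ) := Fintype.piFinset (fun i => Ioc (a i) (a i + b i)) with hBx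
  set X : Set (Fin k → ℕ) := {A : Fin k → ℕ | (∀ l, a l < A l ∧ A l ≤ a l + b l) ∧
      ∃ (x : Fin M → Fin k → ℤ) (c : Fin M → ℤ),
        (∀ i, |(c i : ℝ)| ≤ Real.exp (Real.log N ^ (1 - ε))) ∧ ∑ i, c i ≠ 0 ∧
        ∑ i, (c i : ℚ) * ∏ l, (A l : ℚ) ^ x i l = 0} with hX
  have hXB : X ⊆ (Bx : Set (Fin k → ℕ)) := by
    intro A hA
    rw [mem_coe, hBx, Fintype.mem_piFinset]
    intro i
    rw [mem_Ioc]
    exact hA.1 i
  have hfin : X.Finite := Bx.finite_toSet.subset hXB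
  rw [Set.ncard_eq_toFinset_card X hfin]
  apply hN₀ N hN a b hb
  intro A hA
  rw [Set.Finite.mem_toFinset] at hA
  obtain ⟨h1, x, c, h2, h3, h4⟩ := hA
  obtain ⟨y, hy⟩ := clear_denominators (fun l => lt_of_le_of_lt (Nat.zero_le _) (h1 l).1) h4
  refine ⟨h1, y, c, fun i => ?_, h3, hy⟩
  unfold HH
  have h5 := h2 i
  have h6 : ((|c i|).toNat : ℝ) ≤ Real.exp (Real.log N ^ (1 - ε)) := by
    have : ((|c i|).toNat : ℝ) = |(c i : ℝ)| := by
      have e1 : (((|c i|).toNat : ℤ) : ℝ) = ((|c i| : ℤ) : ℝ) := by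
        rw [Int.toNat_of_nonneg (abs_nonneg _)]
      rw [Int.cast_natCast] at e1
      rw [e1, Int.cast_abs]
    rw [this]
    exact h5
  have h7 := Nat.le_floor h6
  have h8 : |c i| = ((|c i|).toNat : ℤ) := (Int.toNat_of_nonneg (abs_nonneg _)).symm
  rw [h8]
  exact_mod_cast h7

end Pool.Agent.TH194.BL.W
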