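import Mathlib
import Pool.Agent.TH194.BL.Fin5
import Pool.Agent.H755R4.Main

/-!
Project BL, part FIN 6: all exponents free, the first base in an arbitrary set with at least
`X * min (X, Y) ^ (-1/4 + ε)` elements.
-/

namespace Pool.Agent.TH194.BL

open Finset Filter
open Pool.Agent.H755R4 (Sol)

theorem sol_exc {A B z : ℕ} (hA : 0 < A) (hB : 0 < B) (hAB : Nat.Coprime A B) (hz : 2 ≤ z) {x y C : ℕ}
    (hx : 0 < x) (hy : 0 < y) (hC : 0 < C)
    (h : A ^ x + B ^ y = C ^ z ∨ A ^ x + C ^ z = B ^ y ∨ B ^ y + C ^ z = A ^ x) {Y : ℝ} :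
    (![A, B] : Fin 2 → ℕ) ∈ Exc 2 z Y := by
  have hne : A ^ x * B ^ y ≠ 1 := by
    intro h1
    have h2 := Nat.eq_one_of_mul_eq_one_right h1
    have h3 := Nat.eq_one_of_mul_eq_one_left h1
    rw [h2, h3] at h
    have hCz : 1 ≤ C ^ z := Nat.one_le_pow _ _ hC
    rcases h with h | h | h
    · rcases Nat.lt_or_ge C 2 with hC1 | hC2
      · have : C = 1 := by omega
        rw [this, one_pow] at h
        omega
      · have : 2 ^ 2 ≤ C ^ z := (Nat.pow_le_pow_left hC2 2).trans (Nat.pow_le_pow_right hC hz)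
        omega
    · omega
    · omega
  have hco : Nat.Coprime (A ^ x) (B ^ y) := hAB.pow _ _
  have hpos : ∀ i : Fin 2, 0 < (![A, B] : Fin 2 → ℕ) i := by
    intro i; fin_cases i <;> simpa
  have hY : ∀ p : ℕ, p.Prime → p ∣ 1 → (p : ℝ) ≤ Y := fun p hp h1 =>
    absurd (Nat.dvd_one.1 h1) hp.one_lt.ne'
  rcases h with h | h | h
  · refine ⟨hpos, ![x, 0], ![0, y], 1, C, ?_, ?_, one_pos, hY, Or.inl ?_⟩
    · simpa [Fin.prod_univ_two] using hco
    · simpa [Fin.prod_univ_two] using hne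
    · simpa [Fin.prod_univ_two] using h
  · refine ⟨hpos, ![0, y], ![x, 0], 1, C, ?_, ?_, one_pos, hY, Or.inr ?_⟩
    · simpa [Fin.prod_univ_two] using hco.symm
    · rw [mul_comm] at hne
      simpa [Fin.prod_univ_two] using hne
    · simpa [Fin.prod_univ_two] using h.symm
  · refine ⟨hpos, ![x, 0], ![0, y], 1, C, ?_, ?_, one_pos, hY, Or.inr ?_⟩
    · simpa [Fin.prod_univ_two] using hco
    · simpa [Fin.prod_univ_two] using hne
    · simpa [Fin.prod_univ_two] using h.symm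

theorem all_exponents (hloc : S_LOC) (hlsk : S_LSK) (hdesc : S_DESC) (hssp : S_SSP) (K : ℕ)
    {ε : ℝ} (h0 : 0 < ε) : ∃ L : ℕ, ∀ X Y a b : ℕ, L ≤ X → L ≤ Y → a + X ≤ Y ^ K → b ≤ Y ^ K →
    ∀ S : Finset ℕ, (∀ A ∈ S, a < A ∧ A ≤ a + X) →
    (X : ℝ) * ((min X Y : ℕ) : ℝ) ^ (-(1 / 4) + ε) ≤ (S.card : ℝ) →
    (({p : ℕ × ℕ | p.1 ∈ S ∧ (b < p.2 ∧ p.2 ≤ b + Y) ∧ Nat.Coprime p.1 p.2 ∧
      ∃ x y z C : ℕ, 0 < x ∧ 0 < y ∧ 2 ≤ z ∧ 0 < C ∧
        (p.1 ^ x + p.2 ^ y = C ^ z ∨ p.1 ^ x + C ^ z = p.2 ^ y ∨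
          p.2 ^ y + C ^ z = p.1 ^ x)}.ncard : ℕ) : ℝ) ≤ ε * ((S.card : ℝ) * Y) := by
  classical
  set δ := min ε (1 / 8) with hδ
  have hδ0 : 0 < δ := lt_min h0 (by norm_num)
  have hδ1 : δ ≤ 1 / 8 := min_le_right _ _
  have hδε : δ ≤ ε := min_le_left _ _
  obtain ⟨Z₀, L₁, hcore⟩ := Pool.Agent.H755R4.core (K + 2) (by omega) (ε := δ / 4) (by linarith)
    (by linarith)
  obtain ⟨N₀, hps⟩ := power_saving hloc hlsk hdesc hssp 2 1 (ε := δ / 2) (by linarith)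
  -- largeness conditions
  have c1 : ∀ᶠ N : ℕ in atTop, (Z₀ : ℝ) ≤ Real.log (Real.log N) :=
    ((Real.tendsto_log_atTop.comp Real.tendsto_log_atTop).comp
      tendsto_natCast_atTop_atTop).eventually_ge_atTop _
  have c2 : ∀ᶠ N : ℕ in atTop, 4 / δ ≤ (N : ℝ) ^ (δ / 2) :=
    ((tendsto_rpow_atTop (by linarith)).comp tendsto_natCast_atTop_atTop).eventually_ge_atTop _
  obtain ⟨N₁, hN₁⟩ := eventually_atTop.1 (c1.and c2)
  refine ⟨max (max N₀ N₁) (max L₁ 2), fun X Y a b hX hY haX hbY S hS hcard => ?_⟩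
  simp only [max_le_iff] at hX hY
  obtain ⟨⟨x1, x2⟩, x3, x4⟩ := hX
  obtain ⟨⟨y1, y2⟩, y3, y4⟩ := hY
  set N := min X Y with hN
  have n1 : N₀ ≤ N := le_min x1 y1
  have n2 : N₁ ≤ N := le_min x2 y2
  have n3 : 2 ≤ N := le_min x4 y4
  obtain ⟨d1, d2⟩ := hN₁ N n2
  have hYR : (2 : ℝ) ≤ Y := by exact_mod_cast y4
  have hNR : (2 : ℝ) ≤ N := by exact_mod_cast n3
  have hNY : (N : ℝ) ≤ Y := by exact_mod_cast min_le_right X Y
  have hYK : a + X + (b + Y) ≤ Y ^ (K + 2) := by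
    have h1 : 1 ≤ Y ^ K := Nat.one_le_pow _ _ (by omega)
    have h2 : Y ^ (K + 2) = Y ^ K * Y ^ 2 := pow_add _ _ _
    have h4 : Y + 2 ≤ Y ^ 2 := by nlinarith
    have h3 : 2 * Y ^ K + Y ≤ Y ^ K * Y ^ 2 := by
      calc 2 * Y ^ K + Y ≤ Y ^ K * (Y + 2) := by nlinarith
        _ ≤ Y ^ K * Y ^ 2 := Nat.mul_le_mul_left _ h4
    omega
  obtain ⟨T, hTs, hTc, hT⟩ := hcore (a + X + (b + Y)) Y b y3 (by omega) hYK
  have hTfin : T.Finite := (Set.finite_Ioc b (b + Y)).subset hTs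
  -- the three parts
  set TF := hTfin.toFinset with hTF
  set box := S ×ˢ Ioc b (b + Y) with hbox
  set F1 := S ×ˢ TF with hF1
  set F2 := box.filter (fun p : ℕ × ℕ => p.2 ∉ T ∧ Nat.Coprime p.1 p.2 ∧ Sol Z₀ p.1 p.2) with hF2
  set F3 := box.filter (fun p : ℕ × ℕ => (![p.1, p.2] : Fin 2 → ℕ) ∈ ExcAll 2 1 N (δ / 2)) with hF3
  have hsub : {p : ℕ × ℕ | p.1 ∈ S ∧ (b < p.2 ∧ p.2 ≤ b + Y) ∧ Nat.Coprime p.1 p.2 ∧
      ∃ x y z C : ℕ, 0 < x ∧ 0 < y ∧ 2 ≤ z ∧ 0 < C ∧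
        (p.1 ^ x + p.2 ^ y = C ^ z ∨ p.1 ^ x + C ^ z = p.2 ^ y ∨
          p.2 ^ y + C ^ z = p.1 ^ x)} ⊆ ((F1 ∪ (F2 ∪ F3) : Finset (ℕ × ℕ)) : Set (ℕ × ℕ)) := by
    rintro ⟨A, B⟩ ⟨hA, hB, hco, x, y, z, C, hx, hy, hz, hC, h⟩
    simp only at hA hB hco h
    rw [mem_coe, mem_union, mem_union]
    have hbx : (A, B) ∈ box := by
      rw [hbox, mem_product, mem_Ioc]
      exact ⟨hA, hB⟩
    by_cases hBT : B ∈ T
    · left
      rw [hF1, mem_product, hTF, Set.Finite.mem_toFinset]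
      exact ⟨hA, hBT⟩
    right
    rcases Nat.lt_or_ge z Z₀ with hzZ | hzZ
    · right
      rw [hF3, mem_filter]
      refine ⟨hbx, z, z.minFac, Nat.minFac_prime (by omega), Nat.minFac_dvd z, ?_, ?_⟩
      · rw [pow_one]
        have h1 : z.minFac ≤ z := Nat.minFac_le (by omega)
        have h2 : (z.minFac : ℝ) ≤ Z₀ := by exact_mod_cast h1.trans hzZ.le
        linarith
      · exact sol_exc (lt_of_le_of_lt (Nat.zero_le _) (hS A hA).1)
          (lt_of_le_of_lt (Nat.zero_le _) hB.1) hco hz hx hy hC h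
    · left
      rw [hF2, mem_filter]
      exact ⟨hbx, hBT, hco, x, y, z, C, hx, hy, hzZ, hC, h⟩
  have hSc0 : (0 : ℝ) ≤ S.card := Nat.cast_nonneg _
  -- F1
  have k1 : (F1.card : ℝ) ≤ S.card * (δ / 4 * Y) := by
    rw [hF1, card_product]
    push_cast
    have : (TF.card : ℝ) ≤ δ / 4 * Y := by
      rw [hTF, ← Set.ncard_eq_toFinset_card T hTfin]
      exact hTc
    gcongr
  -- F2
  have k2 : (F2.card : ℝ) ≤ S.card * (δ / 4 * Y) := by
    have h1 : F2.card = ∑ A ∈ S, (F2.filter (fun p => p.1 = A)).card := by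
      apply card_eq_sum_card_fiberwise
      intro p hp
      rw [mem_coe, hF2, mem_filter, hbox, mem_product] at hp
      exact hp.1.1
    have h2 : ∀ A ∈ S, ((F2.filter (fun p => p.1 = A)).card : ℝ) ≤ δ / 4 * Y := by
      intro A hA
      have hA0 : 0 < A := lt_of_le_of_lt (Nat.zero_le _) (hS A hA).1
      have hAN : A ≤ a + X + (b + Y) := by
        have := (hS A hA).2
        omega
      have h3 := hT A hA0 hAN
      have h4 : (F2.filter (fun p => p.1 = A)).card ≤ {B : ℕ | B ∈ Set.Ioc b (b + Y) ∧ B ∉ T ∧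
          Nat.Coprime A B ∧ Sol Z₀ A B}.ncard := by
        rw [← Set.ncard_coe_finset]
        apply Set.ncard_le_ncard_of_injOn (fun p => p.2)
        · intro p hp
          rw [mem_coe, mem_filter, hF2, mem_filter, hbox, mem_product, mem_Ioc] at hp
          obtain ⟨⟨⟨_, hb2⟩, hpT, hpc, hps⟩, rfl⟩ := hp
          exact ⟨hb2, hpT, hpc, hps⟩
        · intro p hp p' hp' hpp
          rw [mem_coe, mem_filter] at hp hp'
          exact Prod.ext (hp.2.trans hp'.2.symm) hpp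
      have h5 : ((F2.filter (fun p => p.1 = A)).card : ℝ) ≤ (Y : ℝ) ^ (δ / 4) :=
        le_trans (by exact_mod_cast h4) h3
      refine h5.trans ?_
      -- Y^(δ/4) ≤ δ/4 * Y
      have h6 : (N : ℝ) ^ (δ / 2) ≤ (Y : ℝ) ^ (δ / 2) := Real.rpow_le_rpow (by linarith) hNY (by linarith)
      have h7 : 4 / δ ≤ (Y : ℝ) ^ (δ / 2) := d2.trans h6
      have h8 : (Y : ℝ) ^ (δ / 2) * (Y : ℝ) ^ (δ / 4) ≤ Y := by
        rw [← Real.rpow_add (by linarith)]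
        calc (Y : ℝ) ^ (δ / 2 + δ / 4) ≤ (Y : ℝ) ^ (1 : ℝ) :=
              Real.rpow_le_rpow_of_exponent_le (by linarith) (by linarith)
          _ = Y := Real.rpow_one _
      have h9 : 4 / δ * (Y : ℝ) ^ (δ / 4) ≤ Y := by
        refine le_trans ?_ h8
        gcongr
      have h10 : δ / 4 * (4 / δ * (Y : ℝ) ^ (δ / 4)) ≤ δ / 4 * Y := by gcongr
      have h11 : δ / 4 * (4 / δ * (Y : ℝ) ^ (δ / 4)) = (Y : ℝ) ^ (δ / 4) := by
        field_simp
      linarith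
    calc (F2.card : ℝ) = ∑ A ∈ S, ((F2.filter (fun p => p.1 = A)).card : ℝ) := by
          rw [h1]; push_cast; rfl
      _ ≤ ∑ A ∈ S, δ / 4 * Y := sum_le_sum h2
      _ = _ := by rw [sum_const, nsmul_eq_mul]
  -- F3
  have k3 : (F3.card : ℝ) ≤ S.card * (δ / 4 * Y) := by
    set E : Finset (Fin 2 → ℕ) := F3.image (fun p : ℕ × ℕ => (![p.1, p.2] : Fin 2 → ℕ)) with hE
    have hEc : F3.card = E.card := by
      rw [hE, card_image_of_injective]
      intro p p' hpp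
      have e1 := congrFun hpp 0
      have e2 := congrFun hpp 1
      simp at e1 e2
      exact Prod.ext e1 e2
    have h1 := hps N n1 ![a, b] ![X, Y] (by
      intro i; fin_cases i
      · exact min_le_left X Y
      · exact min_le_right X Y) E (by
      intro A hA
      rw [hE, mem_image] at hA
      obtain ⟨p, hp, rfl⟩ := hA
      rw [hF3, mem_filter, hbox, mem_product, mem_Ioc] at hp
      refine ⟨?_, hp.2⟩
      intro i; fin_cases i
      · exact hS p.1 hp.1.1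
      · exact hp.1.2)
    rw [← hEc] at h1
    simp only [Fin.prod_univ_two, Matrix.cons_val_zero, Matrix.cons_val_one] at h1
    refine h1.trans ?_
    have e1 : (N : ℝ) ^ (-(1 / 4) + δ / 2) * (N : ℝ) ^ (δ / 2) ≤ (N : ℝ) ^ (-(1 / 4) + ε) := by
      rw [← Real.rpow_add (by linarith)]
      apply Real.rpow_le_rpow_of_exponent_le (by linarith)
      linarith
    have e2 : (N : ℝ) ^ (-(1 / 4) + δ / 2) * (4 / δ) ≤ (N : ℝ) ^ (-(1 / 4) + ε) :=
      le_trans (by gcongr) e1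
    have e3 : (N : ℝ) ^ (-(1 / 4) + δ / 2) ≤ δ / 4 * (N : ℝ) ^ (-(1 / 4) + ε) := by
      have : (N : ℝ) ^ (-(1 / 4) + δ / 2) = δ / 4 * ((N : ℝ) ^ (-(1 / 4) + δ / 2) * (4 / δ)) := by
        field_simp
      rw [this]
      gcongr
    calc (N : ℝ) ^ (-(1 / 4) + δ / 2) * ((X : ℝ) * Y)
        ≤ (δ / 4 * (N : ℝ) ^ (-(1 / 4) + ε)) * ((X : ℝ) * Y) := by gcongr
      _ = ((X : ℝ) * (N : ℝ) ^ (-(1 / 4) + ε)) * (δ / 4 * Y) := by ring
      _ ≤ S.card * (δ / 4 * Y) := by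
          apply mul_le_mul_of_nonneg_right hcard (by positivity)
  have hcardle : {p : ℕ × ℕ | p.1 ∈ S ∧ (b < p.2 ∧ p.2 ≤ b + Y) ∧ Nat.Coprime p.1 p.2 ∧
      ∃ x y z C : ℕ, 0 < x ∧ 0 < y ∧ 2 ≤ z ∧ 0 < C ∧
        (p.1 ^ x + p.2 ^ y = C ^ z ∨ p.1 ^ x + C ^ z = p.2 ^ y ∨
          p.2 ^ y + C ^ z = p.1 ^ x)}.ncard ≤ F1.card + (F2.card + F3.card) := by
    refine (Set.ncard_le_ncard hsub (finite_toSet _)).trans ?_
    rw [Set.ncard_coe_finset]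
    exact (card_union_le _ _).trans (Nat.add_le_add_left (card_union_le _ _) _)
  have hfin : (({p : ℕ × ℕ | p.1 ∈ S ∧ (b < p.2 ∧ p.2 ≤ b + Y) ∧ Nat.Coprime p.1 p.2 ∧
      ∃ x y z C : ℕ, 0 < x ∧ 0 < y ∧ 2 ≤ z ∧ 0 < C ∧
        (p.1 ^ x + p.2 ^ y = C ^ z ∨ p.1 ^ x + C ^ z = p.2 ^ y ∨
          p.2 ^ y + C ^ z = p.1 ^ x)}.ncard : ℕ) : ℝ) ≤ F1.card + (F2.card + F3.card) := by
    exact_mod_cast hcardle
  have hSY : (0 : ℝ) ≤ S.card * Y := by positivity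
  calc _ ≤ (F1.card : ℝ) + (F2.card + F3.card) := hfin
    _ ≤ S.card * (δ / 4 * Y) + (S.card * (δ / 4 * Y) + S.card * (δ / 4 * Y)) := by gcongr
    _ = (3 / 4 * δ) * (S.card * Y) := by ring
    _ ≤ ε * (S.card * Y) := by
        apply mul_le_mul_of_nonneg_right _ hSY
        linarith

end Pool.Agent.TH194.BL
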