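import Mathlib
import Pool.Agent.TH194.BL.Stmts

set_option autoImplicit false

/-! Project BL (helper194): the descent. -/

namespace Pool.Agent.TH194.BL

open Finset

namespace DescX

/-- `n` is a smooth number times a `q`-th power -/
def G (q : ℕ) (Sm : ℕ → Prop) (n : ℕ) : Prop :=
  0 < n ∧ ∀ l : ℕ, l.Prime → ¬ Sm l → q ∣ n.factorization l

theorem G_of {q : ℕ} {Sm : ℕ → Prop} {c w : ℕ} (hpos : 0 < c * w ^ q)
    (hc : ∀ p : ℕ, p.Prime → p ∣ c → Sm p) : G q Sm (c * w ^ q) := by
  refine ⟨hpos, fun l hl hs => ?_⟩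
  have hc0 : c ≠ 0 := by rintro rfl; simp at hpos
  have hw0 : w ^ q ≠ 0 := by intro h; rw [h] at hpos; simp at hpos
  rw [Nat.factorization_mul hc0 hw0, Nat.factorization_pow]
  have : c.factorization l = 0 := Nat.factorization_eq_zero_of_not_dvd (fun h => hs (hc l hl h))
  simp [this]

theorem prod_pow_ne_zero' {g : ℕ →₀ ℕ} (hg : ∀ p ∈ g.support, p.Prime) : g.prod (· ^ ·) ≠ 0 := by
  unfold Finsupp.prod
  rw [Finset.prod_ne_zero_iff]
  intro p hp
  exact pow_ne_zero _ (hg p hp).ne_zero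

theorem split {q : ℕ} (hq : 0 < q) {Sm : ℕ → Prop} {n : ℕ} (h : G q Sm n) :
    ∃ c w : ℕ, 0 < c ∧ (∀ p : ℕ, p.Prime → p ∣ c → Sm p) ∧ (∀ p : ℕ, c.factorization p < q) ∧
      n = c * w ^ q := by
  obtain ⟨hn, hG⟩ := h
  let g : ℕ →₀ ℕ := n.factorization.mapRange (· % q) (by simp)
  let g' : ℕ →₀ ℕ := n.factorization.mapRange (· / q) (by simp)
  have eg : ∀ p, g p = n.factorization p % q := fun p => rfl
  have eg' : ∀ p, g' p = n.factorization p / q := fun p => rfl
  have hsup : ∀ p, n.factorization p ≠ 0 → p.Prime := by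
    intro p hp
    by_contra hcon
    exact hp (Nat.factorization_eq_zero_of_not_prime n hcon)
  have hg : ∀ p ∈ g.support, p.Prime := by
    intro p hp
    apply hsup
    intro h0
    rw [Finsupp.mem_support_iff] at hp
    apply hp
    rw [eg, h0, Nat.zero_mod]
  have hg' : ∀ p ∈ g'.support, p.Prime := by
    intro p hp
    apply hsup
    intro h0
    rw [Finsupp.mem_support_iff] at hp
    apply hp
    rw [eg', h0, Nat.zero_div]
  have f1 : (g.prod (· ^ ·)).factorization = g := Nat.prod_pow_factorization_eq_self hg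
  have f2 : (g'.prod (· ^ ·)).factorization = g' := Nat.prod_pow_factorization_eq_self hg'
  have n1 := prod_pow_ne_zero' hg
  have n2 := prod_pow_ne_zero' hg'
  refine ⟨g.prod (· ^ ·), g'.prod (· ^ ·), Nat.pos_of_ne_zero n1, ?_, ?_, ?_⟩
  · intro p hp hd
    by_contra hs
    have h1 := hp.factorization_pos_of_dvd n1 hd
    rw [f1] at h1
    rw [eg, Nat.mod_eq_zero_of_dvd (hG p hp hs)] at h1
    exact lt_irrefl _ h1
  · intro p
    rw [f1, eg]
    exact Nat.mod_lt _ hq
  · apply Nat.eq_of_factorization_eq hn.ne' (mul_ne_zero n1 (pow_ne_zero _ n2))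
    intro p
    rw [Nat.factorization_mul n1 (pow_ne_zero _ n2), Nat.factorization_pow, f1, f2]
    rw [Finsupp.add_apply, Finsupp.smul_apply, eg, eg', smul_eq_mul, Nat.mod_add_div]

theorem fac_eq {l m n : ℕ} (hl : l.Prime) (hm : m ≠ 0) (hn : n ≠ 0)
    (h : emultiplicity (l : ℤ) (m : ℤ) = emultiplicity (l : ℤ) (n : ℤ)) :
    m.factorization l = n.factorization l := by
  rw [Int.natCast_emultiplicity, Int.natCast_emultiplicity] at h
  rw [← Nat.multiplicity_eq_factorization hl hm, ← Nat.multiplicity_eq_factorization hl hn]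
  exact multiplicity_eq_of_emultiplicity_eq h

theorem step {q p a b n : ℕ} {Sm : ℕ → Prop} (hp : p.Prime) (hodd : Odd p) (hSp : Sm p)
    (hab : a.Coprime b) (h1 : a * b ≠ 1) (ha : 0 < a) (hb : 0 < b) (hG : G q Sm n)
    (h : a ^ p + b ^ p = n ∨ a ^ p = b ^ p + n) : ∃ n', G q Sm n' ∧ (a + b = n' ∨ a = b + n') := by
  rcases h with h | h
  · refine ⟨a + b, ⟨by positivity, fun l hl hs => ?_⟩, Or.inl rfl⟩
    by_cases hd : l ∣ a + b
    · have hla : ¬ l ∣ a := by
        intro hla
        have hlb : l ∣ b := (Nat.dvd_add_right hla).1 hd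
        exact hl.one_lt.ne' (Nat.dvd_one.1 (hab ▸ Nat.dvd_gcd hla hlb))
      have hlp : ¬ l ∣ p := by
        intro hlp
        have := (Nat.prime_dvd_prime_iff_eq hl hp).1 hlp
        exact hs (this ▸ hSp)
      have hlZ : Prime (l : ℤ) := Nat.prime_iff_prime_int.1 hl
      have e := emultiplicity_pow_sub_pow_of_prime (R := ℤ) hlZ (x := (a : ℤ)) (y := -(b : ℤ))
        (by rw [sub_neg_eq_add]; exact_mod_cast hd) (by exact_mod_cast hla) (n := p) (by exact_mod_cast hlp)
      rw [hodd.neg_pow, sub_neg_eq_add, sub_neg_eq_add] at e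
      have e' : n.factorization l = (a + b).factorization l := by
        apply fac_eq hl hG.1.ne' (by positivity)
        rw [← h]
        push_cast
        exact e
      rw [← e']
      exact hG.2 l hl hs
    · rw [Nat.factorization_eq_zero_of_not_dvd hd]; exact dvd_zero _
  · have hlt : b < a := by
      by_contra hcon
      have := Nat.pow_le_pow_left (not_lt.1 hcon) p
      have := hG.1
      omega
    obtain ⟨m, rfl⟩ : ∃ m, a = b + m := ⟨a - b, by omega⟩
    refine ⟨m, ⟨by omega, fun l hl hs => ?_⟩, Or.inr rfl⟩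
    by_cases hd : l ∣ m
    · have hla : ¬ l ∣ b + m := by
        intro hla
        have hlb : l ∣ b := (Nat.dvd_add_left hd).1 hla
        exact hl.one_lt.ne' (Nat.dvd_one.1 (hab ▸ Nat.dvd_gcd hla hlb))
      have hlp : ¬ l ∣ p := by
        intro hlp
        have := (Nat.prime_dvd_prime_iff_eq hl hp).1 hlp
        exact hs (this ▸ hSp)
      have hlZ : Prime (l : ℤ) := Nat.prime_iff_prime_int.1 hl
      have e := emultiplicity_pow_sub_pow_of_prime (R := ℤ) hlZ (x := ((b + m : ℕ) : ℤ)) (y := (b : ℤ))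
        (by push_cast; rw [add_sub_cancel_left]; exact_mod_cast hd) (by exact_mod_cast hla) (n := p)
        (by exact_mod_cast hlp)
      have e' : n.factorization l = m.factorization l := by
        apply fac_eq hl hG.1.ne' (by omega)
        have h2 : (n : ℤ) = ((b + m : ℕ) : ℤ) ^ p - (b : ℤ) ^ p := by
          have : (((b + m) ^ p : ℕ) : ℤ) = ((b ^ p + n : ℕ) : ℤ) := by rw [h]
          push_cast at this ⊢
          linarith
        have h3 : (m : ℤ) = ((b + m : ℕ) : ℤ) - (b : ℤ) := by push_cast; ring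
        rw [h2, e, ← h3]
      rw [← e']
      exact hG.2 l hl hs
    · rw [Nat.factorization_eq_zero_of_not_dvd hd]; exact dvd_zero _

theorem exists_odd_prime {lam r : ℕ} (hlam : 0 < lam) (h4 : ¬ 4 ∣ lam) (hr : r ∣ lam) (h2 : ¬ r ∣ 2) :
    ∃ p : ℕ, p.Prime ∧ Odd p ∧ p ∣ r := by
  by_contra hcon
  push Not at hcon
  have hr0 : r ≠ 0 := by rintro rfl; exact hlam.ne' (Nat.eq_zero_of_zero_dvd hr)
  have h : ∀ d : ℕ, d.Prime → d ∣ r → d = 2 := by
    intro d hd hdr
    rcases hd.eq_two_or_odd' with h | h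
    · exact h
    · exact absurd hdr (hcon d hd h)
  have h3 := Nat.eq_prime_pow_of_unique_prime_dvd hr0 (fun {d} hd hdr => h d hd hdr)
  rcases Nat.lt_or_ge r.primeFactorsList.length 2 with h5 | h5
  · apply h2
    rw [h3]
    interval_cases r.primeFactorsList.length <;> norm_num
  · apply h4
    apply dvd_trans _ hr
    rw [h3]
    exact pow_dvd_pow 2 h5

theorem main {k q lam : ℕ} {Sm : ℕ → Prop} (hlam : 0 < lam) (h4 : ¬ 4 ∣ lam)
    (hS : ∀ p : ℕ, p.Prime → p ∣ lam → Sm p) (A : Fin k → ℕ) (hA : ∀ i, 0 < A i) :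
    ∀ s : ℕ, ∀ (x y : Fin k → ℕ) (n : ℕ), ∑ i, (x i + y i) ≤ s →
      Nat.Coprime (∏ i, A i ^ x i) (∏ i, A i ^ y i) →
      (∏ i, A i ^ x i) * (∏ i, A i ^ y i) ≠ 1 → G q Sm n →
      (∏ i, A i ^ x i + ∏ i, A i ^ y i = n ∨ ∏ i, A i ^ x i = ∏ i, A i ^ y i + n) →
      ∃ (x' y' : Fin k → ℕ) (n' : ℕ), G q Sm n' ∧
        (∀ r : ℕ, r ∣ lam → (∀ i, (r : ℤ) ∣ (y' i : ℤ) - x' i) → r ∣ 2) ∧
        (∏ i, A i ^ x' i + ∏ i, A i ^ y' i = n' ∨ ∏ i, A i ^ x' i = ∏ i, A i ^ y' i + n') := by
  intro s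
  induction s with
  | zero =>
    intro x y n hs hc h1 hG h
    exfalso
    apply h1
    have h0 : ∀ i, x i = 0 ∧ y i = 0 := by
      intro i
      have := (Finset.sum_eq_zero_iff.1 (Nat.le_zero.1 hs)) i (mem_univ i)
      omega
    simp [h0]
  | succ s ih =>
    intro x y n hs hc h1 hG h
    -- normalisation
    set x0 : Fin k → ℕ := fun i => if A i = 1 then 0 else x i with hx0
    set y0 : Fin k → ℕ := fun i => if A i = 1 then 0 else y i with hy0
    have ex : ∀ i, A i ^ x i = A i ^ x0 i := by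
      intro i; simp only [hx0]; split_ifs with hi
      · simp [hi]
      · rfl
    have ey : ∀ i, A i ^ y i = A i ^ y0 i := by
      intro i; simp only [hy0]; split_ifs with hi
      · simp [hi]
      · rfl
    simp only [ex, ey] at hc h1 h
    have hs0 : ∑ i, (x0 i + y0 i) ≤ s + 1 := by
      refine le_trans (Finset.sum_le_sum fun i _ => ?_) hs
      simp only [hx0, hy0]; split_ifs <;> omega
    have hz : ∀ i, x0 i = 0 ∨ y0 i = 0 := by
      intro i
      by_contra hcon
      push Not at hcon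
      have hAi : A i ≠ 1 := by
        intro hi; apply hcon.1; simp [hx0, hi]
      have d1 : A i ∣ ∏ i, A i ^ x0 i :=
        (dvd_pow_self (A i) hcon.1).trans (Finset.dvd_prod_of_mem (fun i => A i ^ x0 i) (mem_univ i))
      have d2 : A i ∣ ∏ i, A i ^ y0 i :=
        (dvd_pow_self (A i) hcon.2).trans (Finset.dvd_prod_of_mem (fun i => A i ^ y0 i) (mem_univ i))
      exact hAi (Nat.dvd_one.1 (hc ▸ Nat.dvd_gcd d1 d2))
    by_cases hr : ∀ r : ℕ, r ∣ lam → (∀ i, (r : ℤ) ∣ (y0 i : ℤ) - x0 i) → r ∣ 2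
    · exact ⟨x0, y0, n, hG, hr, h⟩
    push Not at hr
    obtain ⟨r, hrl, hri, hr2⟩ := hr
    obtain ⟨p, hp, hodd, hpr⟩ := exists_odd_prime hlam h4 hrl hr2
    have hpS : Sm p := hS p hp (hpr.trans hrl)
    have hpi : ∀ i, (p : ℤ) ∣ (y0 i : ℤ) - x0 i := fun i => (by exact_mod_cast hpr : (p : ℤ) ∣ r).trans (hri i)
    have hpx : ∀ i, p ∣ x0 i := by
      intro i
      rcases hz i with h0 | h0
      · rw [h0]; exact dvd_zero _
      · have := hpi i
        rw [h0] at this
        simp only [Nat.cast_zero, zero_sub, dvd_neg] at this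
        exact_mod_cast this
    have hpy : ∀ i, p ∣ y0 i := by
      intro i
      rcases hz i with h0 | h0
      · have := hpi i
        rw [h0] at this
        simp only [Nat.cast_zero, sub_zero] at this
        exact_mod_cast this
      · rw [h0]; exact dvd_zero _
    choose x1 hx1 using hpx
    choose y1 hy1 using hpy
    have eX : ∏ i, A i ^ x0 i = (∏ i, A i ^ x1 i) ^ p := by
      rw [← Finset.prod_pow]
      apply Finset.prod_congr rfl
      intro i _
      rw [hx1 i, mul_comm, pow_mul]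
    have eY : ∏ i, A i ^ y0 i = (∏ i, A i ^ y1 i) ^ p := by
      rw [← Finset.prod_pow]
      apply Finset.prod_congr rfl
      intro i _
      rw [hy1 i, mul_comm, pow_mul]
    have hs1 : ∑ i, (x1 i + y1 i) ≤ s := by
      have hp3 : 3 ≤ p := by
        have := hp.two_le
        rcases hodd with ⟨m, hm⟩
        omega
      have e1 : 3 * ∑ i, (x1 i + y1 i) ≤ ∑ i, (x0 i + y0 i) := by
        rw [Finset.mul_sum]
        apply Finset.sum_le_sum
        intro i _
        rw [hx1 i, hy1 i, ← mul_add]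
        exact Nat.mul_le_mul_right _ hp3
      have e2 : ∑ i, (x0 i + y0 i) ≠ 0 := by
        intro h0
        apply h1
        have h0' : ∀ i, x0 i = 0 ∧ y0 i = 0 := by
          intro i
          have := (Finset.sum_eq_zero_iff.1 h0) i (mem_univ i)
          omega
        simp [h0']
      omega
    rw [eX, eY] at hc h1 h
    have hcop : Nat.Coprime (∏ i, A i ^ x1 i) (∏ i, A i ^ y1 i) :=
      Nat.Coprime.coprime_dvd_left (dvd_pow_self _ hp.ne_zero)
        (Nat.Coprime.coprime_dvd_right (dvd_pow_self _ hp.ne_zero) hc)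
    have hne1 : (∏ i, A i ^ x1 i) * (∏ i, A i ^ y1 i) ≠ 1 := by
      intro h0
      apply h1
      rw [← mul_pow, h0, one_pow]
    obtain ⟨n', hG', h'⟩ := step hp hodd hpS hcop hne1 (Finset.prod_pos fun i _ => pow_pos (hA i) _)
      (Finset.prod_pos fun i _ => pow_pos (hA i) _) hG h
    exact ih x1 y1 n' hs1 hcop hne1 hG' h'

end DescX

open DescX in
theorem desc : S_DESC := by
  intro k q lam Sm hq hlam h4 hS A x y c w hA hc h1 hc0 hcS h
  have hpos : 0 < c * w ^ q := by
    rcases h with h | h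
    · rw [← h]
      have : 0 < ∏ i, A i ^ x i := Finset.prod_pos fun i _ => pow_pos (hA i) _
      omega
    · apply Nat.pos_of_ne_zero
      intro h0
      rw [h0, add_zero] at h
      rw [h] at hc h1
      have : ∏ i, A i ^ y i = 1 := (Nat.coprime_self _).1 hc
      rw [this] at h1
      exact h1 rfl
  obtain ⟨x', y', n', hG', hr', h'⟩ := main hlam h4 hS A hA _ x y (c * w ^ q) le_rfl hc h1 (G_of hpos hcS) h
  obtain ⟨c', w', e1, e2, e3, e4⟩ := split hq.pos hG'
  exact ⟨x', y', c', w', e1, e2, e3, hr', by rw [← e4]; exact h'⟩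

end Pool.Agent.TH194.BL
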