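import Mathlib
import Pool.Agent.TH194.BL.Stmts

/-!
# The local count by Jacobi sums (job 1463, helper111)
-/

set_option autoImplicit false

namespace Pool.Agent.TH194.BL

open Finset

section
variable {t : ℕ} [Fact t.Prime] {k : ℕ}

/-- `∏ A_i ^ x_i` for unit vectors -/
def UU (x : Fin k → ℕ) (A : Fin k → (ZMod t)ˣ) : (ZMod t)ˣ := ∏ i, A i ^ x i

theorem norm_mulChar (χ : MulChar (ZMod t) ℂ) (a : (ZMod t)ˣ) : ‖χ a‖ = 1 := by
  have h1 := MulChar.star_apply' χ (a : ZMod t)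
  have h2 : χ⁻¹ (a : ZMod t) * χ a = 1 := by
    rw [← MulChar.mul_apply, inv_mul_cancel, MulChar.one_apply_coe]
  rw [← h1] at h2
  have h3 : (‖χ a‖ : ℝ) ^ 2 = 1 := by
    have h4 : ((‖χ (a : ZMod t)‖ ^ 2 : ℝ) : ℂ) = 1 := by
      rw [← h2, ← Complex.normSq_eq_norm_sq, Complex.normSq_eq_conj_mul_self]
      rfl
    exact_mod_cast h4
  have h4 : 0 ≤ ‖χ (a : ZMod t)‖ := norm_nonneg _
  nlinarith [sq_nonneg (‖χ (a : ZMod t)‖ - 1)]

theorem norm_mulChar_le (χ : MulChar (ZMod t) ℂ) (a : ZMod t) : ‖χ a‖ ≤ 1 := by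
  by_cases h : IsUnit a
  · obtain ⟨u, rfl⟩ := h
    exact (norm_mulChar χ u).le
  · rw [MulChar.map_nonunit χ h, norm_zero]
    exact zero_le_one

theorem grp_aux {G : Type*} [CommGroup G] (a b c : G) (m n : ℕ)
    (h1 : a ^ m * b ^ n * (b⁻¹) ^ m = 1) (h2 : a ^ m * c ^ n * (c⁻¹) ^ m = 1) :
    (b * c⁻¹) ^ ((n : ℤ) - m) = 1 := by
  rw [inv_pow] at h1 h2
  have h1' := mul_inv_eq_one.1 h1
  have h2' := mul_inv_eq_one.1 h2
  rw [zpow_sub, zpow_natCast, zpow_natCast, mul_inv_eq_one, mul_pow, mul_pow, inv_pow, inv_pow,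
    ← h1', ← h2', mul_inv, mul_mul_mul_comm, mul_inv_cancel, one_mul]

/-- at most two characters are trivial on all the monomials -/
theorem two_chars (x y : Fin k → ℕ)
    (hr : ∀ r : ℕ, r ∣ t - 1 → (∀ i, (r : ℤ) ∣ (y i : ℤ) - x i) → r ∣ 2)
    (χ : MulChar (ZMod t) ℂ) (S : Finset (MulChar (ZMod t) ℂ))
    (hS : ∀ ψ ∈ S, ∀ i, χ ^ x i * ψ ^ y i * (ψ⁻¹) ^ x i = 1) : S.card ≤ 2 := by
  classical
  rcases S.eq_empty_or_nonempty with rfl | ⟨ψ₀, h0⟩
  · simp
  have : Fintype (MulChar (ZMod t) ℂ) := Fintype.ofFinite _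
  have : IsCyclic (MulChar (ZMod t) ℂ) := by
    obtain ⟨e⟩ := MulChar.mulEquiv_units (ZMod t) ℂ
    exact isCyclic_of_surjective e.symm e.symm.surjective
  have h1 := IsCyclic.card_pow_eq_one_le (α := MulChar (ZMod t) ℂ) (n := 2) (by norm_num)
  refine le_trans (Finset.card_le_card_of_injOn (fun ψ => ψ * ψ₀⁻¹) ?_ ?_) h1
  · intro ψ hψ
    rw [mem_coe, mem_filter]
    refine ⟨mem_univ _, ?_⟩
    change (ψ * ψ₀⁻¹) ^ 2 = 1
    rw [← orderOf_dvd_iff_pow_eq_one]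
    apply hr
    · have := MulChar.orderOf_dvd_card_sub_one (F := ZMod t) (ψ * ψ₀⁻¹)
      rwa [ZMod.card] at this
    · intro i
      rw [orderOf_dvd_iff_zpow_eq_one]
      exact grp_aux χ ψ ψ₀ (x i) (y i) (hS ψ hψ i) (hS ψ₀ h0 i)
  · intro a _ b _ hab
    exact mul_right_cancel hab

theorem sum_units_char (Θ : MulChar (ZMod t) ℂ) [Decidable (Θ = 1)] :
    ∑ a : (ZMod t)ˣ, Θ a = if Θ = 1 then ((t : ℂ) - 1) else 0 := by
  classical
  have h1 := sum_hom_units (Θ.toMonoidHom.comp (Units.coeHom (ZMod t)))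
  have h2 : (Θ.toMonoidHom.comp (Units.coeHom (ZMod t)) = 1) ↔ Θ = 1 := by
    rw [MulChar.eq_one_iff]
    constructor
    · intro h a
      exact DFunLike.congr_fun h a
    · intro h
      ext a
      exact h a
  have h3 : (Fintype.card (ZMod t)ˣ : ℂ) = (t : ℂ) - 1 := by
    rw [ZMod.card_units_eq_totient, Nat.totient_prime (Fact.out : t.Prime),
      Nat.cast_sub (Fact.out : t.Prime).one_le]
    simp
  have h4 : ∑ a : (ZMod t)ˣ, (Θ.toMonoidHom.comp (Units.coeHom (ZMod t))) a =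
      ∑ a : (ZMod t)ˣ, Θ a := rfl
  rw [← h4, h1]
  by_cases h : Θ = 1
  · rw [if_pos h, if_pos (h2.2 h), h3]
  · rw [if_neg h, if_neg (fun h' => h (h2.1 h'))]
    simp

theorem sum_vec (χ ψ : MulChar (ZMod t) ℂ) (x y : Fin k → ℕ) :
    ∑ A : Fin k → (ZMod t)ˣ, χ (UU x A) * (ψ (UU y A) * ψ⁻¹ (UU x A)) =
      ∏ i, ∑ a : (ZMod t)ˣ, (χ ^ x i * ψ ^ y i * (ψ⁻¹) ^ x i) a := by
  rw [Finset.prod_univ_sum, Fintype.piFinset_univ]
  refine sum_congr rfl fun A _ => ?_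
  have e : ∀ (φ : MulChar (ZMod t) ℂ) (z : Fin k → ℕ), φ (UU z A) = ∏ i, φ (A i) ^ z i := by
    intro φ z
    unfold UU
    rw [Units.coe_prod, map_prod]
    refine prod_congr rfl fun i _ => ?_
    rw [Units.val_pow_eq_pow_val, map_pow]
  rw [e, e, e, ← prod_mul_distrib, ← prod_mul_distrib]
  refine prod_congr rfl fun i _ => ?_
  rw [MulChar.mul_apply, MulChar.mul_apply, MulChar.pow_apply_coe, MulChar.pow_apply_coe,
    MulChar.pow_apply_coe]
  ring

theorem key (x y : Fin k → ℕ)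
    (hr : ∀ r : ℕ, r ∣ t - 1 → (∀ i, (r : ℤ) ∣ (y i : ℤ) - x i) → r ∣ 2)
    (χ : MulChar (ZMod t) ℂ) (h : (ZMod t)ˣ → ℂ) (Bd : ℝ)
    (hB : ∀ ψ : MulChar (ZMod t) ℂ, ‖∑ v : (ZMod t)ˣ, ψ⁻¹ v * h v‖ ≤ Bd) :
    ((t : ℝ) - 1) * ‖∑ A : Fin k → (ZMod t)ˣ, χ (UU x A) * h (UU y A * (UU x A)⁻¹)‖ ≤
      2 * Bd * ((t : ℝ) - 1) ^ k := by
  classical
  have : Fintype (MulChar (ZMod t) ℂ) := Fintype.ofFinite _
  have ht1 : (0 : ℝ) < (t : ℝ) - 1 := by
    have : (2 : ℝ) ≤ t := by exact_mod_cast (Fact.out : t.Prime).two_le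
    linarith
  have hB0 : 0 ≤ Bd := (norm_nonneg _).trans (hB 1)
  -- Fourier inversion
  have hinv : ∀ w : (ZMod t)ˣ, ((t : ℂ) - 1) * h w =
      ∑ ψ : MulChar (ZMod t) ℂ, ψ w * ∑ v : (ZMod t)ˣ, ψ⁻¹ v * h v := by
    intro w
    simp_rw [mul_sum]
    rw [sum_comm]
    have h1 : ∀ v : (ZMod t)ˣ, ∑ ψ : MulChar (ZMod t) ℂ, ψ w * (ψ⁻¹ v * h v) =
        (if v = w then ((t : ℂ) - 1) else 0) * h v := by
      intro v
      have h2 := DirichletCharacter.sum_char_inv_mul_char_eq ℂ (v.isUnit) (w : ZMod t)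
      have h3 : ∑ ψ : MulChar (ZMod t) ℂ, ψ w * (ψ⁻¹ v * h v) =
          (∑ ψ : MulChar (ZMod t) ℂ, ψ ((v : ZMod t))⁻¹ * ψ w) * h v := by
        rw [sum_mul]
        refine sum_congr rfl fun ψ _ => ?_
        rw [MulChar.inv_apply']
        ring
      rw [h3]
      congr 1
      have h4 : (∑ ψ : MulChar (ZMod t) ℂ, ψ ((v : ZMod t))⁻¹ * ψ w) =
          if (v : ZMod t) = w then ((t.totient : ℕ) : ℂ) else 0 := by
        rw [← h2]
        exact Finset.sum_congr (by ext; simp) fun _ _ => rfl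
      rw [h4, Nat.totient_prime (Fact.out : t.Prime), Nat.cast_sub (Fact.out : t.Prime).one_le]
      simp only [Units.ext_iff, Nat.cast_one]
    simp_rw [h1]
    rw [Finset.sum_eq_single w]
    · rw [if_pos rfl]
    · intro b _ hb
      rw [if_neg hb, zero_mul]
    · intro hw
      exact absurd (mem_univ _) hw
  have e1 : ((t : ℂ) - 1) * ∑ A : Fin k → (ZMod t)ˣ, χ (UU x A) * h (UU y A * (UU x A)⁻¹) =
      ∑ ψ : MulChar (ZMod t) ℂ, (∑ v : (ZMod t)ˣ, ψ⁻¹ v * h v) *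
        ∏ i, ∑ a : (ZMod t)ˣ, (χ ^ x i * ψ ^ y i * (ψ⁻¹) ^ x i) a := by
    rw [mul_sum]
    have h1 : ∀ A : Fin k → (ZMod t)ˣ, ((t : ℂ) - 1) * (χ (UU x A) * h (UU y A * (UU x A)⁻¹)) =
        ∑ ψ : MulChar (ZMod t) ℂ, (∑ v : (ZMod t)ˣ, ψ⁻¹ v * h v) *
          (χ (UU x A) * (ψ (UU y A) * ψ⁻¹ (UU x A))) := by
      intro A
      rw [mul_left_comm, hinv, mul_sum]
      refine sum_congr rfl fun ψ _ => ?_
      rw [Units.val_mul, map_mul, Units.val_inv_eq_inv_val, ← MulChar.inv_apply']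
      ring
    simp_rw [h1]
    rw [sum_comm]
    refine sum_congr rfl fun ψ _ => ?_
    rw [← mul_sum, sum_vec]
  have e2 : ∀ ψ : MulChar (ZMod t) ℂ,
      (∏ i, ∑ a : (ZMod t)ˣ, (χ ^ x i * ψ ^ y i * (ψ⁻¹) ^ x i) a) =
        if (∀ i, χ ^ x i * ψ ^ y i * (ψ⁻¹) ^ x i = 1) then ((t : ℂ) - 1) ^ k else 0 := by
    intro ψ
    simp_rw [sum_units_char]
    split_ifs with h1
    · rw [prod_congr rfl (fun i _ => if_pos (h1 i))]
      simp
    · push Not at h1
      obtain ⟨i, hi⟩ := h1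
      exact prod_eq_zero (mem_univ i) (if_neg hi)
  have e3 : ((t : ℝ) - 1) * ‖∑ A : Fin k → (ZMod t)ˣ, χ (UU x A) * h (UU y A * (UU x A)⁻¹)‖ =
      ‖((t : ℂ) - 1) * ∑ A : Fin k → (ZMod t)ˣ, χ (UU x A) * h (UU y A * (UU x A)⁻¹)‖ := by
    rw [norm_mul]
    congr 1
    have : ((t : ℂ) - 1) = (((t : ℝ) - 1 : ℝ) : ℂ) := by push_cast; rfl
    rw [this, Complex.norm_real, Real.norm_of_nonneg ht1.le]
  rw [e3, e1]
  simp_rw [e2, mul_ite, mul_zero]
  rw [← sum_filter]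
  refine (norm_sum_le _ _).trans ?_
  have h5 : ∀ ψ ∈ univ.filter (fun ψ : MulChar (ZMod t) ℂ =>
      ∀ i, χ ^ x i * ψ ^ y i * (ψ⁻¹) ^ x i = 1),
      ‖(∑ v : (ZMod t)ˣ, ψ⁻¹ v * h v) * ((t : ℂ) - 1) ^ k‖ ≤ Bd * ((t : ℝ) - 1) ^ k := by
    intro ψ _
    rw [norm_mul, norm_pow]
    have : ((t : ℂ) - 1) = (((t : ℝ) - 1 : ℝ) : ℂ) := by push_cast; rfl
    rw [this, Complex.norm_real, Real.norm_of_nonneg ht1.le]
    exact mul_le_mul_of_nonneg_right (hB ψ) (by positivity)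
  refine (sum_le_card_nsmul _ _ _ h5).trans ?_
  rw [nsmul_eq_mul]
  have h6 : ((univ.filter (fun ψ : MulChar (ZMod t) ℂ =>
      ∀ i, χ ^ x i * ψ ^ y i * (ψ⁻¹) ^ x i = 1)).card : ℝ) ≤ 2 := by
    exact_mod_cast two_chars x y hr χ _ (fun ψ hψ => (mem_filter.1 hψ).2)
  have h7 : 0 ≤ Bd * ((t : ℝ) - 1) ^ k := by positivity
  calc _ ≤ 2 * (Bd * ((t : ℝ) - 1) ^ k) := mul_le_mul_of_nonneg_right h6 h7
    _ = _ := by ring

/-- the number of unit vectors with a given value of the quotient -/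
theorem count_eq (x y : Fin k → ℕ)
    (hr : ∀ r : ℕ, r ∣ t - 1 → (∀ i, (r : ℤ) ∣ (y i : ℤ) - x i) → r ∣ 2) (w₀ : (ZMod t)ˣ)
    (S : Finset (Fin k → (ZMod t)ˣ)) (hS : ∀ A ∈ S, UU y A * (UU x A)⁻¹ = w₀) :
    ((t : ℝ) - 1) * (S.card : ℝ) ≤ 2 * ((t : ℝ) - 1) ^ k := by
  have ht1 : (0 : ℝ) < (t : ℝ) - 1 := by
    have : (2 : ℝ) ≤ t := by exact_mod_cast (Fact.out : t.Prime).two_le
    linarith
  have h1 := key x y hr 1 (fun w => if w = w₀ then 1 else 0) 1 (by
    intro ψ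
    simp only [mul_ite, mul_one, mul_zero]
    rw [sum_ite_eq' univ w₀ (fun v : (ZMod t)ˣ => ψ⁻¹ v), if_pos (mem_univ _)]
    exact norm_mulChar_le _ _)
  have h2 : ∑ A : Fin k → (ZMod t)ˣ, (1 : MulChar (ZMod t) ℂ) (UU x A) *
      (if UU y A * (UU x A)⁻¹ = w₀ then (1 : ℂ) else 0) =
      ((univ.filter (fun A : Fin k → (ZMod t)ˣ => UU y A * (UU x A)⁻¹ = w₀)).card : ℂ) := by
    simp_rw [MulChar.one_apply_coe, one_mul]
    rw [← sum_filter]
    simp
  rw [h2] at h1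
  have h3 : ‖((univ.filter (fun A : Fin k → (ZMod t)ˣ => UU y A * (UU x A)⁻¹ = w₀)).card : ℂ)‖ =
      ((univ.filter (fun A : Fin k → (ZMod t)ˣ => UU y A * (UU x A)⁻¹ = w₀)).card : ℝ) := by
    simp
  rw [h3] at h1
  have h4 : (S.card : ℝ) ≤
      ((univ.filter (fun A : Fin k → (ZMod t)ˣ => UU y A * (UU x A)⁻¹ = w₀)).card : ℝ) := by
    exact_mod_cast card_le_card fun A hA => mem_filter.2 ⟨mem_univ _, hS A hA⟩
  nlinarith [mul_le_mul_of_nonneg_left h4 ht1.le]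

/-- the bound of the Jacobi sums -/
theorem norm_jacobi_le (χ φ : MulChar (ZMod t) ℂ) (hχ : χ ≠ 1) :
    ‖jacobiSum φ χ‖ ≤ Real.sqrt t := by
  have ht1 : (1 : ℝ) ≤ Real.sqrt t := by
    rw [Real.one_le_sqrt]
    exact_mod_cast (Fact.out : t.Prime).one_le
  by_cases hφ : φ = 1
  · rw [hφ, jacobiSum_one_nontrivial hχ, norm_neg, norm_one]
    exact ht1
  by_cases h : φ * χ = 1
  · have h1 : χ = φ⁻¹ := eq_inv_of_mul_eq_one_right h
    rw [h1, jacobiSum_nontrivial_inv hφ, norm_neg]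
    exact (norm_mulChar_le _ _).trans ht1
  · have h1 := jacobiSum_mul_jacobiSum_inv (F := ZMod t) (F' := ℂ) (by
      rw [ringChar.eq_zero, ZMod.ringChar_zmod_n]
      exact (Fact.out : t.Prime).ne_zero.symm) hφ hχ h
    have h2 : jacobiSum φ⁻¹ χ⁻¹ = star (jacobiSum φ χ) := by
      unfold jacobiSum
      rw [star_sum]
      refine sum_congr rfl fun a _ => ?_
      rw [star_mul', MulChar.star_apply', MulChar.star_apply']
    rw [h2, ZMod.card] at h1
    have h3 : ‖jacobiSum φ χ‖ ^ 2 = t := by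
      have h4 : ((‖jacobiSum φ χ‖ ^ 2 : ℝ) : ℂ) = t := by
        rw [← h1, ← Complex.normSq_eq_norm_sq, Complex.normSq_eq_conj_mul_self, mul_comm]
        rfl
      exact_mod_cast h4
    rw [← h3, Real.sqrt_sq (norm_nonneg _)]

/-- the sum of a nontrivial character over the values -/
theorem char_sum_le (x y : Fin k → ℕ)
    (hr : ∀ r : ℕ, r ∣ t - 1 → (∀ i, (r : ℤ) ∣ (y i : ℤ) - x i) → r ∣ 2)
    (χ : MulChar (ZMod t) ℂ) (hχ : χ ≠ 1) (s : (ZMod t)ˣ) (hs : s * s = 1) :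
    ((t : ℝ) - 1) * ‖∑ A : Fin k → (ZMod t)ˣ, χ ((UU x A : ZMod t) + s * (UU y A : ZMod t))‖ ≤
      2 * Real.sqrt t * ((t : ℝ) - 1) ^ k := by
  have h1 := key x y hr χ (fun w => χ (1 + (s : ZMod t) * (w : ZMod t))) (Real.sqrt t) (by
    intro ψ
    have h2 : ∑ v : (ZMod t)ˣ, ψ⁻¹ v * χ (1 + (s : ZMod t) * (v : ZMod t)) =
        ψ⁻¹ ((-s : (ZMod t)ˣ) : ZMod t) * jacobiSum ψ⁻¹ χ := by
      have h3 : jacobiSum ψ⁻¹ χ = ∑ v : (ZMod t)ˣ, ψ⁻¹ ((v : ZMod t)) * χ (1 - (v : ZMod t)) := by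
        unfold jacobiSum
        have h4 : ∀ a : ZMod t, a ∉ Set.range (Units.val : (ZMod t)ˣ → ZMod t) →
            ψ⁻¹ a * χ (1 - a) = 0 := by
          intro a ha
          rw [MulChar.map_nonunit _ (fun h => ha ⟨h.unit, rfl⟩), zero_mul]
        exact (Fintype.sum_of_injective Units.val Units.val_injective _ _
          (fun a ha => h4 a ha) (fun _ => rfl)).symm
      rw [h3, mul_sum]
      refine Fintype.sum_equiv (Equiv.mulLeft (-s)) _ _ (fun v => ?_)
      have h5 : -s * -s = 1 := by rw [neg_mul_neg, hs]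
      change ψ⁻¹ (v : ZMod t) * χ (1 + (s : ZMod t) * (v : ZMod t)) =
        ψ⁻¹ ((-s : (ZMod t)ˣ) : ZMod t) * (ψ⁻¹ ((-s * v : (ZMod t)ˣ) : ZMod t) *
          χ (1 - ((-s * v : (ZMod t)ˣ) : ZMod t)))
      have h6 : -s * (-s * v) = v := by rw [← mul_assoc, h5, one_mul]
      rw [← mul_assoc, ← map_mul, ← Units.val_mul (-s) (-s * v), h6]
      congr 2
      rw [Units.val_mul, Units.val_neg]
      ring
    rw [h2, norm_mul, norm_mulChar, one_mul]
    exact norm_jacobi_le χ ψ⁻¹ hχ)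
  refine le_trans (le_of_eq ?_) h1
  congr 2
  refine sum_congr rfl fun A _ => ?_
  rw [← map_mul]
  congr 1
  rw [mul_add, mul_one, Units.val_mul]
  congr 1
  rw [mul_left_comm, mul_left_comm (UU x A : ZMod t), ← Units.val_mul (UU x A), mul_inv_cancel]
  simp

end

open Classical in
theorem loc : S_LOC := by
  intro k q t _ hq hqt hkt x y s c hs hr
  have htp : t.Prime := Fact.out
  rcases k with _ | k
  · exfalso
    have h1 := hr (t - 1) dvd_rfl (fun i => i.elim0)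
    have h2 := Nat.le_of_dvd (by norm_num) h1
    omega
  have ht : (16 : ℝ) * ((k : ℝ) + 1 + 4) ^ 2 ≤ t := by exact_mod_cast hkt
  have ht0 : (0 : ℝ) < t := by exact_mod_cast htp.pos
  have hsq : 4 * ((k : ℝ) + 1 + 4) ≤ Real.sqrt t := by
    rw [Real.le_sqrt (by positivity) ht0.le]
    nlinarith
  have hsq2 : Real.sqrt t * Real.sqrt t = t := Real.mul_self_sqrt ht0.le
  have ht1 : (0 : ℝ) < (t : ℝ) - 1 := by
    have : (2 : ℝ) ≤ t := by exact_mod_cast htp.two_le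
    linarith
  obtain ⟨su, hsu, hss⟩ : ∃ su : (ZMod t)ˣ, (su : ZMod t) = s ∧ su * su = 1 := by
    rcases hs with rfl | rfl
    · exact ⟨1, by simp, by simp⟩
    · exact ⟨-1, by simp, by simp⟩
  -- the three sets
  set Z0 : Finset (Fin (k + 1) → ZMod t) := univ.filter (fun A => ∃ i, A i = 0) with hZ0
  set S1 : Finset (Fin (k + 1) → (ZMod t)ˣ) :=
    univ.filter (fun A => (UU x A : ZMod t) + su * (UU y A : ZMod t) = 0) with hS1
  set S2 : Finset (Fin (k + 1) → (ZMod t)ˣ) :=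
    univ.filter (fun A => c ≠ 0 ∧ ∃ z, z ≠ 0 ∧
      (UU x A : ZMod t) + su * (UU y A : ZMod t) = c * z ^ q) with hS2
  have hcard : (univ.filter (fun A : Fin (k + 1) → ZMod t => (∃ i, A i = 0) ∨
      ∃ z, ∏ i, A i ^ x i + s * ∏ i, A i ^ y i = c * z ^ q)).card ≤
      Z0.card + (S1.card + S2.card) := by
    have hsub : (univ.filter (fun A : Fin (k + 1) → ZMod t => (∃ i, A i = 0) ∨
      ∃ z, ∏ i, A i ^ x i + s * ∏ i, A i ^ y i = c * z ^ q)) ⊆
      Z0 ∪ (S1 ∪ S2).image (fun A i => (A i : ZMod t)) := by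
      intro A hA
      rw [mem_filter] at hA
      rw [mem_union]
      by_cases h0 : ∃ i, A i = 0
      · left
        rw [hZ0, mem_filter]
        exact ⟨mem_univ _, h0⟩
      · right
        rcases hA.2 with h | ⟨z, hz⟩
        · exact absurd h h0
        push Not at h0
        rw [mem_image]
        refine ⟨fun i => Units.mk0 (A i) (h0 i), ?_, by ext i; simp⟩
        have e : ∀ w : Fin (k + 1) → ℕ,
            ((UU w (fun i => Units.mk0 (A i) (h0 i)) : (ZMod t)ˣ) : ZMod t) = ∏ i, A i ^ w i := by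
          intro w
          unfold UU
          rw [Units.coe_prod]
          simp
        rw [mem_union, hS1, hS2, mem_filter, mem_filter, e, e, hsu]
        by_cases hcz : c * z ^ q = 0
        · left
          exact ⟨mem_univ _, by rw [hz, hcz]⟩
        · right
          refine ⟨mem_univ _, fun h => hcz (by rw [h, zero_mul]), z, fun h => hcz ?_, hz⟩
          rw [h, zero_pow hq.ne_zero, mul_zero]
    refine (card_le_card hsub).trans ((card_union_le _ _).trans ?_)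
    exact Nat.add_le_add_left (card_image_le.trans (card_union_le _ _)) _
  -- vanishing coordinates
  have hZ0c : (Z0.card : ℝ) ≤ ((k : ℝ) + 1) * (t : ℝ) ^ k := by
    have h1 : Z0 ⊆ (univ : Finset (Fin (k + 1))).biUnion
        (fun i => Fintype.piFinset (fun j => if j = i then {(0 : ZMod t)} else univ)) := by
      intro A hA
      rw [hZ0, mem_filter] at hA
      obtain ⟨i, hi⟩ := hA.2
      rw [mem_biUnion]
      refine ⟨i, mem_univ _, ?_⟩
      rw [Fintype.mem_piFinset]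
      intro j
      split_ifs with h
      · rw [h, hi]
        exact mem_singleton_self _
      · exact mem_univ _
    have h2 : ∀ i : Fin (k + 1), (Fintype.piFinset
        (fun j => if j = i then {(0 : ZMod t)} else (univ : Finset (ZMod t)))).card = t ^ k := by
      intro i
      rw [Fintype.card_piFinset]
      have h3 : ∀ j : Fin (k + 1), (if j = i then {(0 : ZMod t)} else (univ : Finset (ZMod t))).card =
          if j = i then 1 else t := by
        intro j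
        split_ifs
        · simp
        · rw [card_univ, ZMod.card]
      simp_rw [h3]
      rw [prod_ite]
      simp [filter_ne']
    have h4 := (card_le_card h1).trans card_biUnion_le
    simp_rw [h2] at h4
    rw [sum_const, card_univ, Fintype.card_fin, smul_eq_mul] at h4
    exact_mod_cast h4
  -- vanishing values
  have hS1c : (S1.card : ℝ) ≤ 2 * (t : ℝ) ^ k := by
    have h1 := count_eq x y hr (-su) S1 (by
      intro A hA
      rw [hS1, mem_filter] at hA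
      have h2 := hA.2
      rw [mul_inv_eq_iff_eq_mul]
      ext
      rw [Units.val_mul, Units.val_neg]
      have h3 : (su : ZMod t) * su = 1 := by rw [← Units.val_mul, hss, Units.val_one]
      calc (UU y A : ZMod t) = (su * su) * UU y A := by rw [h3, one_mul]
        _ = su * (UU x A + su * UU y A) - su * UU x A := by ring
        _ = _ := by rw [h2]; ring)
    have h2 : ((t : ℝ) - 1) * (S1.card : ℝ) ≤ ((t : ℝ) - 1) * (2 * ((t : ℝ) - 1) ^ k) := by
      refine h1.trans (le_of_eq ?_)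
      ring
    have h3 := le_of_mul_le_mul_left h2 ht1
    have h4 : ((t : ℝ) - 1) ^ k ≤ (t : ℝ) ^ k := pow_le_pow_left₀ ht1.le (by linarith) k
    linarith
  -- the main set
  have hS2c : (S2.card : ℝ) ≤ (t : ℝ) ^ (k + 1) / 2 + Real.sqrt t * (t : ℝ) ^ k := by
    by_cases hc : c = 0
    · have : S2 = ∅ := by
        rw [hS2]
        apply filter_false_of_mem
        intro A _ h
        exact h.1 hc
      rw [this, card_empty, Nat.cast_zero]
      positivity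
    obtain ⟨χ, hχ⟩ := MulChar.exists_mulChar_orderOf (ZMod t) (R := ℂ) (n := q)
      (by rwa [ZMod.card]) (Complex.isPrimitiveRoot_exp q hq.ne_zero)
    have hχ1 : χ ≠ 1 := by
      intro h
      rw [h, orderOf_one] at hχ
      exact hq.one_lt.ne hχ
    have hχq : χ ^ q = 1 := by rw [← hχ]; exact pow_orderOf_eq_one χ
    have h1 := char_sum_le x y hr χ hχ1 su hss
    set SS := ∑ A : Fin (k + 1) → (ZMod t)ˣ, χ ((UU x A : ZMod t) + su * (UU y A : ZMod t)) with hSS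
    have h2 : ‖SS‖ ≤ 2 * Real.sqrt t * (t : ℝ) ^ k := by
      have h3 : ((t : ℝ) - 1) * ‖SS‖ ≤ ((t : ℝ) - 1) * (2 * Real.sqrt t * ((t : ℝ) - 1) ^ k) := by
        refine h1.trans (le_of_eq ?_)
        ring
      have h4 := le_of_mul_le_mul_left h3 ht1
      have h5 : ((t : ℝ) - 1) ^ k ≤ (t : ℝ) ^ k := pow_le_pow_left₀ ht1.le (by linarith) k
      refine h4.trans (mul_le_mul_of_nonneg_left h5 (by positivity))
    have hcu : ‖χ c‖ = 1 := by
      have := norm_mulChar χ (Units.mk0 c hc)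
      simpa using this
    have h3 : ((starRingEnd ℂ) (χ c) * SS).re ≤ ‖SS‖ := by
      refine (Complex.re_le_norm _).trans ?_
      rw [norm_mul, RCLike.norm_conj, hcu, one_mul]
    have h4 : (S2.card : ℝ) * 2 - ((t : ℝ) - 1) ^ (k + 1) ≤ ((starRingEnd ℂ) (χ c) * SS).re := by
      rw [hSS, mul_sum, Complex.re_sum]
      have h5 : ∀ A : Fin (k + 1) → (ZMod t)ˣ, (if A ∈ S2 then (2 : ℝ) else 0) - 1 ≤
          ((starRingEnd ℂ) (χ c) * χ ((UU x A : ZMod t) + su * (UU y A : ZMod t))).re := by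
        intro A
        split_ifs with hA
        · rw [hS2, mem_filter] at hA
          obtain ⟨_, _, z, hz, hA⟩ := hA
          have h6 : χ (z ^ q) = 1 := by
            have h7 := MulChar.pow_apply' χ hq.ne_zero z
            rw [map_pow, ← h7, hχq]
            exact MulChar.one_apply (isUnit_iff_ne_zero.2 hz)
          rw [hA, map_mul, h6, mul_one, ← Complex.normSq_eq_conj_mul_self, Complex.ofReal_re,
            Complex.normSq_eq_norm_sq, hcu]
          norm_num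
        · have h6 : ‖(starRingEnd ℂ) (χ c) * χ ((UU x A : ZMod t) + su * (UU y A : ZMod t))‖ ≤ 1 := by
            rw [norm_mul, RCLike.norm_conj, hcu, one_mul]
            exact norm_mulChar_le _ _
          have h7 := (abs_le.1 ((Complex.abs_re_le_norm _).trans h6)).1
          linarith
      refine le_trans (le_of_eq ?_) (sum_le_sum fun A _ => h5 A)
      rw [sum_sub_distrib, sum_const, card_univ, Fintype.card_fun, Fintype.card_fin,
        ZMod.card_units_eq_totient, Nat.totient_prime htp, ← sum_filter, sum_const, nsmul_eq_mul,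
        nsmul_eq_mul, mul_one]
      have h8 : univ.filter (fun A => A ∈ S2) = S2 := by
        ext A
        simp
      rw [h8, Nat.cast_pow, Nat.cast_sub htp.one_le, Nat.cast_one]
    have h5 : ((t : ℝ) - 1) ^ (k + 1) ≤ (t : ℝ) ^ (k + 1) :=
      pow_le_pow_left₀ ht1.le (by linarith) (k + 1)
    linarith
  have htk : (0 : ℝ) < (t : ℝ) ^ k := by positivity
  have hfin : (((univ.filter (fun A : Fin (k + 1) → ZMod t => (∃ i, A i = 0) ∨
      ∃ z, ∏ i, A i ^ x i + s * ∏ i, A i ^ y i = c * z ^ q)).card : ℕ) : ℝ) ≤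
      (Z0.card : ℝ) + ((S1.card : ℝ) + (S2.card : ℝ)) := by exact_mod_cast hcard
  have h6 : (k : ℝ) + 1 + 2 + Real.sqrt t ≤ t / 4 := by
    have h7 : (4 * ((k : ℝ) + 1 + 4)) * Real.sqrt t ≤ Real.sqrt t * Real.sqrt t :=
      mul_le_mul_of_nonneg_right hsq (Real.sqrt_nonneg _)
    rw [hsq2] at h7
    have h8 : 1 ≤ Real.sqrt t := by
      refine le_trans ?_ hsq
      have : (0 : ℝ) ≤ k := Nat.cast_nonneg k
      linarith
    have h9 : (0 : ℝ) ≤ k := Nat.cast_nonneg k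
    nlinarith
  calc _ ≤ (Z0.card : ℝ) + ((S1.card : ℝ) + (S2.card : ℝ)) := hfin
    _ ≤ ((k : ℝ) + 1) * (t : ℝ) ^ k + (2 * (t : ℝ) ^ k +
        ((t : ℝ) ^ (k + 1) / 2 + Real.sqrt t * (t : ℝ) ^ k)) := by linarith
    _ = ((k : ℝ) + 1 + 2 + Real.sqrt t) * (t : ℝ) ^ k + (t : ℝ) ^ (k + 1) / 2 := by ring
    _ ≤ (t / 4) * (t : ℝ) ^ k + (t : ℝ) ^ (k + 1) / 2 := by
      have := mul_le_mul_of_nonneg_right h6 htk.le
      linarith
    _ = _ := by ring

end Pool.Agent.TH194.BL
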