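import Pool.Agent.TH194.BL.Stmts

/-!
Project BL: the arithmetic large sieve in dimension `k` from the additive large sieve and the lower
bound for one modulus (job 1468, helper761).
-/

set_option autoImplicit false

namespace Pool.Agent.TH194.BL

open Finset
open Pool.Agent.Helper112 (ee)

namespace LSK

/-- product of the primes in `D` -/
def mD (D : Finset ℕ) : ℕ := ∏ t ∈ D, t

theorem mD_pos {D : Finset ℕ} (hD : ∀ t ∈ D, t.Prime) : 0 < mD D :=
  Finset.prod_pos fun t ht => (hD t ht).pos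

/-- the vector of reduced fractions -/
def Phi {k : ℕ} (p : (_ : Finset ℕ) × (Fin k → ℕ)) : Fin k → ℕ × ℕ := fun i =>
  (mD p.1 / Nat.gcd (p.2 i) (mD p.1), p.2 i / Nat.gcd (p.2 i) (mD p.1))

theorem phi_mem {k : ℕ} (Q : ℕ) (D : Finset ℕ) (hD : ∀ t ∈ D, t.Prime) (hQ : mD D ≤ Q)
    (b : Fin k → ℕ) (hb : ∀ i, b i < mD D) :
    Phi ⟨D, b⟩ ∈ Fintype.piFinset (fun _ : Fin k => Far Q) := by
  rw [Fintype.mem_piFinset]
  intro i
  have hm := mD_pos hD
  have hg : 0 < Nat.gcd (b i) (mD D) := Nat.gcd_pos_of_pos_right _ hm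
  have hg1 : Nat.gcd (b i) (mD D) ∣ mD D := Nat.gcd_dvd_right _ _
  have hg2 : Nat.gcd (b i) (mD D) ∣ b i := Nat.gcd_dvd_left _ _
  have h1 : 0 < mD D / Nat.gcd (b i) (mD D) := Nat.div_pos (Nat.le_of_dvd hm hg1) hg
  have h2 : mD D / Nat.gcd (b i) (mD D) ≤ Q := (Nat.div_le_self _ _).trans hQ
  have h3 : b i / Nat.gcd (b i) (mD D) < mD D / Nat.gcd (b i) (mD D) :=
    Nat.div_lt_div_of_lt_of_dvd hg1 (hb i)
  simp only [Phi, Far, Finset.mem_filter, Finset.mem_product, Finset.mem_Icc, Finset.mem_range]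
  exact ⟨⟨⟨h1, h2⟩, by omega⟩, h3, Nat.coprime_div_gcd_div_gcd hg⟩

theorem D_eq {k : ℕ} (P D : Finset ℕ) (hP : ∀ t ∈ P, t.Prime) (hDP : D ⊆ P)
    (b : Fin k → ℕ) (hb : ∀ t ∈ D, ∃ i, ¬ t ∣ b i) :
    D = P.filter (fun t => ∃ i, t ∣ (Phi ⟨D, b⟩ i).1) := by
  have hD : ∀ t ∈ D, t.Prime := fun t ht => hP t (hDP ht)
  have hm := mD_pos hD
  ext t
  rw [Finset.mem_filter]
  constructor
  · intro ht
    refine ⟨hDP ht, ?_⟩
    obtain ⟨i, hi⟩ := hb t ht
    refine ⟨i, ?_⟩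
    have h1 : t ∣ mD D := Finset.dvd_prod_of_mem _ ht
    have h2 : Nat.gcd (b i) (mD D) * (mD D / Nat.gcd (b i) (mD D)) = mD D :=
      Nat.mul_div_cancel' (Nat.gcd_dvd_right _ _)
    rw [← h2] at h1
    rcases ((hD t ht).dvd_mul).1 h1 with h3 | h3
    · exact absurd (h3.trans (Nat.gcd_dvd_left _ _)) hi
    · exact h3
  · rintro ⟨htP, i, hi⟩
    have h1 : t ∣ mD D := hi.trans (Nat.div_dvd_of_dvd (Nat.gcd_dvd_right _ _))
    obtain ⟨s, hs, h2⟩ := ((hP t htP).prime.dvd_finsetProd_iff _).1 h1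
    rwa [(Nat.prime_dvd_prime_iff_eq (hP t htP) (hD s hs)).1 h2]

theorem b_eq {k : ℕ} (D : Finset ℕ) (hD : ∀ t ∈ D, t.Prime) (b : Fin k → ℕ) (i : Fin k) :
    b i = (Phi ⟨D, b⟩ i).2 * (mD D / (Phi ⟨D, b⟩ i).1) := by
  have hm := mD_pos hD
  simp only [Phi]
  rw [Nat.div_div_self (Nat.gcd_dvd_right _ _) hm.ne', Nat.div_mul_cancel (Nat.gcd_dvd_left _ _)]

theorem val_eq {k : ℕ} (D : Finset ℕ) (hD : ∀ t ∈ D, t.Prime) (b z : Fin k → ℕ) :
    (∑ i, (z i : ℝ) * (b i : ℝ) / ((∏ t ∈ D, t : ℕ) : ℝ)) =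
      ∑ i, (z i : ℝ) * (Phi ⟨D, b⟩ i).2 / (Phi ⟨D, b⟩ i).1 := by
  have hm := mD_pos hD
  refine Finset.sum_congr rfl fun i _ => ?_
  have hg : 0 < Nat.gcd (b i) (mD D) := Nat.gcd_pos_of_pos_right _ hm
  have h1 : (b i : ℝ) = (Phi ⟨D, b⟩ i).2 * Nat.gcd (b i) (mD D) := by
    have : b i = (Phi ⟨D, b⟩ i).2 * Nat.gcd (b i) (mD D) := by
      simp only [Phi]
      rw [Nat.div_mul_cancel (Nat.gcd_dvd_left _ _)]
    exact_mod_cast this
  have h2 : ((∏ t ∈ D, t : ℕ) : ℝ) = (Phi ⟨D, b⟩ i).1 * Nat.gcd (b i) (mD D) := by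
    have : (∏ t ∈ D, t : ℕ) = (Phi ⟨D, b⟩ i).1 * Nat.gcd (b i) (mD D) := by
      simp only [Phi]
      rw [Nat.div_mul_cancel (Nat.gcd_dvd_right _ _)]
      rfl
    exact_mod_cast this
  have hg' : ((Nat.gcd (b i) (mD D) : ℕ) : ℝ) ≠ 0 := by exact_mod_cast hg.ne'
  rw [h1, h2, ← mul_assoc, mul_div_mul_right _ _ hg']

open Classical in
/-- the admissible numerators modulo `∏ t ∈ D, t` -/
noncomputable def Bs (k : ℕ) (D : Finset ℕ) : Finset (Fin k → ℕ) :=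
  (Fintype.piFinset (fun _ : Fin k => range (∏ t ∈ D, t))).filter (fun b => ∀ t ∈ D, ∃ i, ¬ t ∣ b i)

theorem mem_Bs {k : ℕ} {D : Finset ℕ} {b : Fin k → ℕ} :
    b ∈ Bs k D ↔ (∀ i, b i < ∏ t ∈ D, t) ∧ ∀ t ∈ D, ∃ i, ¬ t ∣ b i := by
  unfold Bs
  rw [Finset.mem_filter, Fintype.mem_piFinset]
  simp only [Finset.mem_range]

theorem phi_inj {k : ℕ} (j : ℕ) (P : Finset ℕ) (hP : ∀ t ∈ P, t.Prime)
    (x y : (_ : Finset ℕ) × (Fin k → ℕ)) (hx : x ∈ (P.powersetCard j).sigma (fun D => Bs k D))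
    (hy : y ∈ (P.powersetCard j).sigma (fun D => Bs k D)) (heq : Phi x = Phi y) : x = y := by
  obtain ⟨D, b⟩ := x
  obtain ⟨D', b'⟩ := y
  rw [Finset.mem_sigma, Finset.mem_powersetCard, mem_Bs] at hx hy
  have e1 := D_eq P D hP hx.1.1 b hx.2.2
  have e2 := D_eq P D' hP hy.1.1 b' hy.2.2
  have e3 : D = D' := by
    rw [e1, e2, heq]
  subst e3
  have hD : ∀ t ∈ D, t.Prime := fun t ht => hP t (hx.1.1 ht)
  have e4 : b = b' := by
    funext i
    rw [b_eq D hD b i, b_eq D hD b' i, heq]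
  rw [e4]

/-- the sum over all moduli is at most the sum over all vectors of fractions -/
theorem collect {k : ℕ} (Q j : ℕ) (P : Finset ℕ) (hP : ∀ t ∈ P, t.Prime)
    (hQ : ∀ D ∈ P.powersetCard j, ∏ t ∈ D, t ≤ Q) (F : (Fin k → ℕ × ℕ) → ℝ) (hF : ∀ r, 0 ≤ F r) :
    ∑ D ∈ P.powersetCard j, ∑ b ∈ Bs k D, F (Phi ⟨D, b⟩) ≤
      ∑ r ∈ Fintype.piFinset (fun _ : Fin k => Far Q), F r := by
  classical
  rw [Finset.sum_sigma' (P.powersetCard j) (fun D => Bs k D) (fun D b => F (Phi ⟨D, b⟩))]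
  have hs : ∑ x ∈ (P.powersetCard j).sigma (fun D => Bs k D), F (Phi x) =
      ∑ r ∈ ((P.powersetCard j).sigma (fun D => Bs k D)).image Phi, F r :=
    (Finset.sum_image (fun x hx y hy h => phi_inj j P hP x y hx hy h)).symm
  refine (le_of_eq hs).trans ?_
  refine Finset.sum_le_sum_of_subset_of_nonneg ?_ (fun r _ _ => hF r)
  intro r hr
  obtain ⟨⟨D, b⟩, hx, rfl⟩ := Finset.mem_image.1 hr
  rw [Finset.mem_sigma, mem_Bs] at hx
  exact phi_mem Q D (fun t ht => hP t ((Finset.mem_powersetCard.1 hx.1).1 ht)) (hQ D hx.1) b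
    (fun i => hx.2.1 i)

end LSK

open LSK in
/-- the arithmetic large sieve in dimension `k` -/
theorem lsk (h1 : S_ADD) (h2 : S_LOW) : S_LSK := by
  classical
  intro k N Q j a P Z Om hN hQN hP hZ hOm hZO hD
  -- translation
  set c : (Fin k → ℕ) → ℂ := fun z => if (fun i => z i + a i) ∈ Z then 1 else 0 with hc
  have hsum : ∀ g : (Fin k → ℕ) → ℂ, ∑ z ∈ Fintype.piFinset (fun _ : Fin k => Icc 1 N), c z * g z =
      ∑ z ∈ Z, g (fun i => z i - a i) := by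
    intro g
    have e1 : ∑ z ∈ Fintype.piFinset (fun _ : Fin k => Icc 1 N), c z * g z =
        ∑ z ∈ (Fintype.piFinset (fun _ : Fin k => Icc 1 N)).filter
          (fun z => (fun i => z i + a i) ∈ Z), g z := by
      rw [Finset.sum_filter]
      refine Finset.sum_congr rfl fun z _ => ?_
      simp only [hc]
      split_ifs <;> simp
    rw [e1]
    symm
    refine Finset.sum_bij' (fun z _ => fun i => z i - a i) (fun z _ => fun i => z i + a i)
      ?_ ?_ ?_ ?_ ?_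
    · intro z hz
      rw [Finset.mem_filter, Fintype.mem_piFinset]
      have h3 : (fun i => z i - a i + a i) = z := by
        funext i
        have := Finset.mem_Ioc.1 (hZ z hz i)
        omega
      refine ⟨fun i => ?_, by rw [h3]; exact hz⟩
      have := Finset.mem_Ioc.1 (hZ z hz i)
      rw [Finset.mem_Icc]
      omega
    · intro z hz
      exact (Finset.mem_filter.1 hz).2
    · intro z hz
      funext i
      have := Finset.mem_Ioc.1 (hZ z hz i)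
      show z i - a i + a i = z i
      omega
    · intro z hz
      funext i
      show z i + a i - a i = z i
      omega
    · intro z _
      rfl
  have hc2 : ∑ z ∈ Fintype.piFinset (fun _ : Fin k => Icc 1 N), ‖c z‖ ^ 2 = (Z.card : ℝ) := by
    have e1 := hsum (fun _ => 1)
    have e2 : ∀ z, ((‖c z‖ ^ 2 : ℝ) : ℂ) = c z * 1 := by
      intro z
      simp only [hc]
      split_ifs <;> simp
    have e3 : ((∑ z ∈ Fintype.piFinset (fun _ : Fin k => Icc 1 N), ‖c z‖ ^ 2 : ℝ) : ℂ) =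
        ((Z.card : ℝ) : ℂ) := by
      rw [Complex.ofReal_sum, Finset.sum_congr rfl (fun z _ => e2 z), e1]
      simp
    exact_mod_cast e3
  set F : (Fin k → ℕ × ℕ) → ℝ := fun r =>
    ‖∑ z ∈ Z, (1 : ℂ) * ee (∑ i, (z i : ℝ) * (r i).2 / (r i).1)‖ ^ 2 with hF
  have hFadd : ∀ r, F r = ‖∑ z ∈ Fintype.piFinset (fun _ : Fin k => Icc 1 N),
      c z * ee (∑ i, (z i : ℝ) * (r i).2 / (r i).1)‖ ^ 2 := by
    intro r
    rw [hsum (fun z => ee (∑ i, (z i : ℝ) * (r i).2 / (r i).1))]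
    have e1 : ∀ z ∈ Z, (1 : ℂ) * ee (∑ i, (z i : ℝ) * (r i).2 / (r i).1) =
        ee (∑ i, (a i : ℝ) * (r i).2 / (r i).1) *
          ee (∑ i, (((z i - a i : ℕ)) : ℝ) * (r i).2 / (r i).1) := by
      intro z hz
      rw [one_mul, ← Pool.Agent.Helper112.ls_ee_add, ← Finset.sum_add_distrib]
      congr 1
      refine Finset.sum_congr rfl fun i _ => ?_
      have h3 := Finset.mem_Ioc.1 (hZ z hz i)
      have h4 : (z i : ℝ) = (a i : ℝ) + ((z i - a i : ℕ) : ℝ) := by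
        have : z i = a i + (z i - a i) := by omega
        exact_mod_cast this
      rw [h4]
      ring
    simp only [hF]
    rw [Finset.sum_congr rfl e1, ← Finset.mul_sum, norm_mul, Pool.Agent.Helper112.ls_norm_ee, one_mul]
  have hcol := collect Q j P hP hD F (fun r => by simp only [hF]; positivity)
  have hlow : ∀ D ∈ P.powersetCard j, (1 / 3 : ℝ) ^ j * (Z.card : ℝ) ^ 2 ≤
      ∑ b ∈ Bs k D, F (Phi ⟨D, b⟩) := by
    intro D hDm
    obtain ⟨hDP, hDc⟩ := Finset.mem_powersetCard.1 hDm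
    have h3 := h2 k D Z Om (fun t ht => hP t (hDP ht)) (fun t ht => hOm t (hDP ht))
      (fun z hz t ht => hZO z hz t (hDP ht)) (fun _ => 1)
    rw [hDc] at h3
    have h4 : ‖∑ _z ∈ Z, (1 : ℂ)‖ = (Z.card : ℝ) := by simp
    rw [h4] at h3
    refine h3.trans (le_of_eq ?_)
    refine Finset.sum_congr rfl fun b _ => ?_
    simp only [hF]
    congr 2
    refine Finset.sum_congr rfl fun z _ => ?_
    rw [val_eq D (fun t ht => hP t (hDP ht)) b z]
  have hsumD : ((P.card.choose j : ℕ) : ℝ) * ((1 / 3 : ℝ) ^ j * (Z.card : ℝ) ^ 2) ≤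
      ∑ r ∈ Fintype.piFinset (fun _ : Fin k => Far Q), F r := by
    refine le_trans ?_ hcol
    have h5 := Finset.sum_le_sum hlow
    rw [Finset.sum_const, Finset.card_powersetCard, nsmul_eq_mul] at h5
    exact h5
  have hadd := h1 k N Q c
  rw [hc2] at hadd
  have h6 : ∑ r ∈ Fintype.piFinset (fun _ : Fin k => Far Q), F r ≤
      (6 * ((N : ℝ) + (Q : ℝ) ^ 2)) ^ k * (Z.card : ℝ) := by
    rw [Finset.sum_congr rfl (fun r _ => hFadd r)]
    exact hadd
  have h7 : (6 * ((N : ℝ) + (Q : ℝ) ^ 2)) ^ k ≤ (12 * (N : ℝ)) ^ k := by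
    apply pow_le_pow_left₀ (by positivity)
    have : ((Q : ℝ)) ^ 2 ≤ N := by exact_mod_cast hQN
    linarith
  rcases Nat.eq_zero_or_pos Z.card with h0 | h0
  · rw [h0]
    simp only [Nat.cast_zero, zero_mul]
    positivity
  · have hZ0 : (0 : ℝ) < Z.card := by exact_mod_cast h0
    have h8 : ((P.card.choose j : ℕ) : ℝ) * ((1 / 3 : ℝ) ^ j * (Z.card : ℝ) ^ 2) ≤
        (12 * (N : ℝ)) ^ k * (Z.card : ℝ) :=
      (hsumD.trans h6).trans (mul_le_mul_of_nonneg_right h7 hZ0.le)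
    have h9 : ((Z.card : ℝ) * ((P.card.choose j : ℝ) / 3 ^ j)) * (Z.card : ℝ) ≤
        (12 * (N : ℝ)) ^ k * (Z.card : ℝ) := by
      refine le_trans (le_of_eq ?_) h8
      rw [div_pow, one_pow]
      ring
    exact le_of_mul_le_mul_right h9 hZ0

end Pool.Agent.TH194.BL
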