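import Mathlib
import Pool.Agent.TH194.BL.Fin5
import Pool.Agent.TH194.BL.Loc
import Pool.Agent.TH194.BL.Desc
import Pool.Agent.TH194.BL.Add
import Pool.Agent.TH194.BL.Low
import Pool.Agent.TH194.BL.Lsk
import Pool.Agent.TH194.BL.Ssp

/-!
Project BL: the power saving, unconditional form.
-/

namespace Pool.Agent.TH194.BL

open Finset

theorem main (k B : ℕ) {ε : ℝ} (h0 : 0 < ε) : ∃ N₀ : ℕ, ∀ N : ℕ, N₀ ≤ N →
    ∀ a M : Fin k → ℕ, (∀ i, N ≤ M i) →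
    ∀ E : Finset (Fin k → ℕ), (∀ A ∈ E, (∀ i, a i < A i ∧ A i ≤ a i + M i) ∧ A ∈ ExcAll k B N ε) →
    (E.card : ℝ) ≤ (N : ℝ) ^ (-(1 / 4) + ε) * ∏ i, (M i : ℝ) :=
  power_saving loc (lsk add low) desc ssp k B h0

end Pool.Agent.TH194.BL
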